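import Mathlib

/-!
# Choosing a subset in good position

Many vectors `F j` of a finite dimensional space, of which at most `c` are killed by any of the
functionals `ev x`: if there are at least `2 ^ m * (c + 1)` of them, one can choose `m` of them of which
fewer than `finrank V` are killed by any functional.
-/

namespace Pool.MPSel

open Finset

variable {k : Type*} [Field k] {V : Type*} [AddCommGroup V] [Module k V] [FiniteDimensional k V]
  {P : Type*} {ι : Type*} [Fintype ι]

omit [FiniteDimensional k V] in
/-- The next index is chosen outside the zeros of the chosen common zeros. -/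
theorem next (ev : P → V →ₗ[k] k) (F : ι → V) (c : ℕ)
    (hc : ∀ x : P, {j | ev x (F j) = 0}.ncard ≤ c) {r : ℕ} (φ : Fin r → ι)
    (pt : Finset (Fin r) → P) (hm : 2 ^ r * (c + 1) ≤ Fintype.card ι) (hr : r < 2 ^ r) :
    ∃ i : ι, (∀ A : Finset (Fin r), ev (pt A) (F i) ≠ 0) ∧ ∀ j, φ j ≠ i := by
  classical
  by_contra hcon
  push Not at hcon
  have hcover : (Finset.univ : Finset ι) ⊆
      (Finset.univ : Finset (Finset (Fin r))).biUnion
        (fun A => (Finset.univ.filter fun i => ev (pt A) (F i) = 0)) ∪ Finset.univ.image φ := by
    intro i _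
    rw [Finset.mem_union]
    by_cases h : ∀ A : Finset (Fin r), ev (pt A) (F i) ≠ 0
    · obtain ⟨j, hj⟩ := hcon i h
      exact Or.inr (Finset.mem_image.2 ⟨j, Finset.mem_univ _, hj⟩)
    · push Not at h
      obtain ⟨A, hA⟩ := h
      exact Or.inl (Finset.mem_biUnion.2 ⟨A, Finset.mem_univ _, Finset.mem_filter.2
        ⟨Finset.mem_univ _, hA⟩⟩)
  have h1 := Finset.card_le_card hcover
  have h2 : ((Finset.univ : Finset (Finset (Fin r))).biUnion
      (fun A => (Finset.univ.filter fun i => ev (pt A) (F i) = 0))).card ≤ 2 ^ r * c := by
    refine (Finset.card_biUnion_le_card_mul _ _ c fun A _ => ?_).trans ?_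
    · have := hc (pt A)
      rwa [show {j | ev (pt A) (F j) = 0} =
        ((Finset.univ.filter fun i => ev (pt A) (F i) = 0 : Finset ι) : Set ι) by ext; simp,
        Set.ncard_coe_finset] at this
    · simp [Finset.card_univ, Fintype.card_finset]
  have h3 : (Finset.univ.image φ).card ≤ r := by
    simpa using (Finset.card_image_le (s := (Finset.univ : Finset (Fin r))) (f := φ))
  have h4 := Finset.card_union_le ((Finset.univ : Finset (Finset (Fin r))).biUnion
      (fun A => (Finset.univ.filter fun i => ev (pt A) (F i) = 0))) (Finset.univ.image φ)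
  rw [Finset.card_univ] at h1
  have h5 : 2 ^ r * (c + 1) = 2 ^ r * c + 2 ^ r := by ring
  omega

/-- Selection of `m` vectors of which fewer than `finrank V` are killed by any functional. -/
theorem sel (ev : P → V →ₗ[k] k) (F : ι → V) (c : ℕ)
    (hc : ∀ x : P, {j | ev x (F j) = 0}.ncard ≤ c) (m : ℕ)
    (hm : 2 ^ m * (c + 1) ≤ Fintype.card ι) :
    ∃ φ : Fin m → ι, Function.Injective φ ∧
      ∀ x : P, {i | ev x (F (φ i)) = 0}.ncard + 1 ≤ Module.finrank k V := by
  classical
  by_cases hP : Nonempty P
  swap
  · -- no points: any injection works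
    have hle : m ≤ Fintype.card ι :=
      ((Nat.lt_two_pow_self (n := m)).le.trans (Nat.le_mul_of_pos_right _ (Nat.succ_pos c))).trans hm
    obtain ⟨f⟩ : Nonempty (Fin m ↪ ι) := by
      apply Function.Embedding.nonempty_of_card_le
      simpa using hle
    exact ⟨f, f.injective, fun x => (hP ⟨x⟩).elim⟩
  obtain ⟨x₀⟩ := hP
  -- the chosen common zero of the vectors with indices in `T`
  let z : Set V → P := fun T => if h : ∃ x, ∀ v ∈ T, ev x v = 0 then h.choose else x₀
  have hz : ∀ T : Set V, (∃ x, ∀ v ∈ T, ev x v = 0) → ∀ v ∈ T, ev (z T) v = 0 := by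
    intro T hT
    have : z T = hT.choose := dif_pos hT
    rw [this]
    exact hT.choose_spec
  -- construction
  have key : ∀ r : ℕ, r ≤ m → ∃ φ : Fin r → ι, Function.Injective φ ∧
      ∀ (i : Fin r) (A : Finset (Fin r)), (∀ a ∈ A, a < i) →
        ev (z ((fun a => F (φ a)) '' (A : Set (Fin r)))) (F (φ i)) ≠ 0 := by
    intro r
    induction r with
    | zero => exact fun _ => ⟨Fin.elim0, fun i => i.elim0, fun i => i.elim0⟩
    | succ r ih =>
      intro hr
      obtain ⟨φ, hφ, hφ'⟩ := ih (by omega)
      have hm' : 2 ^ r * (c + 1) ≤ Fintype.card ι :=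
        (Nat.mul_le_mul_right _ (Nat.pow_le_pow_right (by norm_num) (by omega))).trans hm
      obtain ⟨i₀, hi₀, hi₁⟩ := next ev F c hc φ
        (fun A => z ((fun a => F (φ a)) '' (A : Set (Fin r)))) hm' (Nat.lt_two_pow_self)
      refine ⟨Fin.snoc φ i₀, ?_, ?_⟩
      · intro a b hab
        induction a using Fin.lastCases with
        | last =>
          induction b using Fin.lastCases with
          | last => rfl
          | cast b =>
            simp only [Fin.snoc_last, Fin.snoc_castSucc] at hab
            exact absurd hab.symm (hi₁ b)
        | cast a =>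
          induction b using Fin.lastCases with
          | last =>
            simp only [Fin.snoc_last, Fin.snoc_castSucc] at hab
            exact absurd hab (hi₁ a)
          | cast b =>
            simp only [Fin.snoc_castSucc] at hab
            rw [hφ hab]
      · intro i A hA
        -- `A` consists of castSucc's
        have hlast : Fin.last r ∉ A := fun h => by
          have := hA _ h
          exact absurd this (not_lt.2 (Fin.le_last i))
        let A' : Finset (Fin r) := Finset.univ.filter fun a => Fin.castSucc a ∈ A
        have himg : (fun a => F ((Fin.snoc φ i₀ : Fin (r + 1) → ι) a)) '' (A : Set (Fin (r + 1))) =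
            (fun a => F (φ a)) '' (A' : Set (Fin r)) := by
          ext v
          constructor
          · rintro ⟨a, ha, rfl⟩
            induction a using Fin.lastCases with
            | last => exact absurd ha hlast
            | cast a =>
              refine ⟨a, by simpa [A'] using ha, ?_⟩
              simp
          · rintro ⟨a, ha, rfl⟩
            refine ⟨Fin.castSucc a, by simpa [A'] using ha, ?_⟩
            simp
        rw [himg]
        induction i using Fin.lastCases with
        | last =>
          rw [Fin.snoc_last]
          exact hi₀ A'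
        | cast i =>
          rw [Fin.snoc_castSucc]
          refine hφ' i A' fun a ha => ?_
          have := hA (Fin.castSucc a) (by simpa [A'] using ha)
          simpa using this
  obtain ⟨φ, hφ, hφ'⟩ := key m le_rfl
  refine ⟨φ, hφ, fun x => ?_⟩
  -- independence
  have hind : ∀ A : Finset (Fin m), (∀ a ∈ A, ev x (F (φ a)) = 0) →
      A.card ≤ Module.finrank k (Submodule.span k ((fun a => F (φ a)) '' (A : Set (Fin m)))) := by
    intro A
    induction A using Finset.induction_on_max with
    | empty => intro _; simp
    | insert i A hi ih =>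
      intro hA
      have hA' : ∀ a ∈ A, ev x (F (φ a)) = 0 := fun a ha => hA a (Finset.mem_insert_of_mem ha)
      have h1 := ih hA'
      have hni : i ∉ A := fun h => lt_irrefl _ (hi i h)
      rw [Finset.card_insert_of_notMem hni]
      set T := (fun a => F (φ a)) '' (A : Set (Fin m)) with hT
      have hTz : ∀ v ∈ T, ev (z T) v = 0 := hz T ⟨x, by
        rintro v ⟨a, ha, rfl⟩
        exact hA' a ha⟩
      have hspan : Submodule.span k T ≤ LinearMap.ker (ev (z T)) :=
        Submodule.span_le.2 fun v hv => hTz v hv
      have hnot : F (φ i) ∉ Submodule.span k T := fun h =>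
        hφ' i A hi (hspan h)
      have hlt : Submodule.span k T <
          Submodule.span k ((fun a => F (φ a)) '' ((insert i A : Finset (Fin m)) : Set (Fin m))) := by
        refine lt_of_le_of_ne (Submodule.span_mono (Set.image_mono (by
          intro a ha; exact Finset.mem_coe.2 (Finset.mem_insert_of_mem ha)))) fun h => hnot ?_
        rw [h]
        exact Submodule.subset_span ⟨i, by simp, rfl⟩
      exact (Nat.succ_le_succ h1).trans (Nat.succ_le_of_lt (Submodule.finrank_lt_finrank_of_lt hlt))
  set A : Finset (Fin m) := Finset.univ.filter fun i => ev x (F (φ i)) = 0 with hAdef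
  have hAx : ∀ a ∈ A, ev x (F (φ a)) = 0 := fun a ha => (Finset.mem_filter.1 ha).2
  have hcard : {i | ev x (F (φ i)) = 0}.ncard = A.card := by
    rw [show {i | ev x (F (φ i)) = 0} = ((A : Finset (Fin m)) : Set (Fin m)) by ext; simp [hAdef],
      Set.ncard_coe_finset]
  rw [hcard]
  have h1 := hind A hAx
  have hne : Submodule.span k ((fun a => F (φ a)) '' (A : Set (Fin m))) ≠ ⊤ := by
    intro htop
    -- `ev x` is zero, so all the vectors are killed
    have hker : LinearMap.ker (ev x) = ⊤ := by
      rw [eq_top_iff, ← htop, Submodule.span_le]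
      rintro v ⟨a, ha, rfl⟩
      exact hAx a ha
    have hall : {j | ev x (F j) = 0} = Set.univ := by
      ext j
      simp only [Set.mem_univ, iff_true]
      have : F j ∈ LinearMap.ker (ev x) := by rw [hker]; trivial
      exact this
    have := hc x
    rw [hall, Set.ncard_univ, Nat.card_eq_fintype_card] at this
    have h2 : c + 1 ≤ 2 ^ m * (c + 1) := Nat.le_mul_of_pos_left _ (by positivity)
    omega
  have hlt := Submodule.finrank_lt hne
  omega

end Pool.MPSel
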