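import Pool.Agent.Work.MP_f82ddf_E.Interface

/-! # Block ALI: parameters and the coordinates of a generic point -/

set_option autoImplicit false

namespace Pool.MPE

open MvPolynomial

/-- the coordinates of a generic point, without one on which `P` depends, are algebraically
independent (as in `MP_f82ddf_W/B_GPC.lean`) -/
theorem ALI_ind {σ M F : Type} [Field M] [Field F] [Algebra M F] (P : MvPolynomial σ M)
    (b : σ → F) (hirr : Irreducible P)
    (hgen : ∀ H : MvPolynomial σ M, eval₂ (algebraMap M F) b H = 0 ↔ P ∣ H) :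
    ∃ p₀ : σ, AlgebraicIndependent M fun p : {p : σ // p ≠ p₀} => b p := by
  classical
  obtain ⟨p₀, hp₀⟩ : ∃ p₀, p₀ ∈ P.vars := by
    by_contra hcon
    push Not at hcon
    have h1 : P.vars = ∅ := Finset.eq_empty_of_forall_notMem hcon
    rw [vars_eq_empty_iff_eq_C] at h1
    have h2 : P.coeff 0 ≠ 0 := by
      intro h
      rw [h, map_zero] at h1
      exact hirr.ne_zero h1
    apply hirr.not_isUnit
    rw [h1]
    exact (isUnit_iff_ne_zero.2 h2).map C
  refine ⟨p₀, ?_⟩
  rw [algebraicIndependent_iff]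
  intro H hH
  by_contra hH0
  have h1 : eval₂ (algebraMap M F) b (rename Subtype.val H) = 0 := by
    rw [eval₂_rename]
    exact hH
  obtain ⟨T, hT⟩ := (hgen _).1 h1
  have h2 : rename (Subtype.val : {p : σ // p ≠ p₀} → σ) H ≠ 0 := by
    intro h
    exact hH0 (rename_injective _ Subtype.val_injective (by rw [h, map_zero]))
  have h3 : T ≠ 0 := by
    rintro rfl
    rw [mul_zero] at hT
    exact h2 hT
  have h4 : (rename (Subtype.val : {p : σ // p ≠ p₀} → σ) H).degreeOf p₀ = 0 := by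
    by_contra h
    have h5 := mem_vars_rename _ H (mem_vars_iff_degreeOf_ne_zero.2 h)
    obtain ⟨q, -, hq⟩ := h5
    exact q.2 hq
  rw [hT, degreeOf_mul_eq hirr.ne_zero h3] at h4
  exact (mem_vars_iff_degreeOf_ne_zero.1 hp₀) (by omega)

theorem p_ALI : Stmt_ALI := by
  intro M F _ _ _ _ _ _ σ _ t ξ P b hξ hirr hgen
  obtain ⟨p₀, hp₀⟩ := ALI_ind P b hirr hgen
  refine ⟨p₀, ?_⟩
  have h1 := hξ.sumElim_comp hp₀
  have h2 := h1.comp (Sum.swap : Fin t ⊕ {p : σ // p ≠ p₀} → {p : σ // p ≠ p₀} ⊕ Fin t)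
    (fun x y h => by
      have := congrArg Sum.swap h
      simpa using this)
  have h3 : (Sum.elim (fun p : {p : σ // p ≠ p₀} => b p) ((algebraMap M F) ∘ ξ)) ∘
      (Sum.swap : Fin t ⊕ {p : σ // p ≠ p₀} → {p : σ // p ≠ p₀} ⊕ Fin t) =
      Sum.elim (fun i => algebraMap M F (ξ i)) (fun p : {p : σ // p ≠ p₀} => b p) := by
    funext x
    rcases x with x | x <;> rfl
  rw [← h3]
  exact h2

end Pool.MPE
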