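import Pool.Agent.Work.MP_f82ddf_E.Interface

set_option autoImplicit false

/-! # Block BIR of MP_f82ddf_E (helper84) -/

open Pool.Agent.Work.MP_f82ddf_nt.DQ

namespace Pool.MPE

open MvPolynomial
open Pool.ThmM (NonProp HypData IsRat om dv vP LastMonic)

theorem BIR_hom {w n d : ℕ} {A : Fin (n + 1) → MvPolynomial (Fin (w + 2)) ℂ}
    (hA : ∀ i, (A i).IsHomogeneous d) (b : Fin (n + 1) → ℂ) :
    (∑ j, C (b j) * A j).IsHomogeneous d := by
  refine IsHomogeneous.sum _ _ _ (fun j _ => ?_)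
  have h := (isHomogeneous_C (Fin (w + 2)) (b j)).mul (hA j)
  rwa [zero_add] at h

theorem BIR_ev {w n : ℕ} {A : Fin (n + 1) → MvPolynomial (Fin (w + 2)) ℂ}
    (b u : Fin (n + 1) → ℂ) (x : Fin (w + 2) → ℂ) (c : ℂ) (hc : ∀ i, eval x (A i) = c * u i) :
    eval x (∑ j, C (b j) * A j) = c * ∑ j, b j * u j := by
  rw [map_sum, Finset.mul_sum]
  refine Finset.sum_congr rfl (fun j _ => ?_)
  rw [map_mul, eval_C, hc]
  ring

theorem BIR_aux (n w d β' : ℕ) (Q : MvPolynomial (Fin (w + 2)) ℂ)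
    (A : Fin (n + 1) → MvPolynomial (Fin (w + 2)) ℂ) (T : Finset (Fin (n + 1) → ℂ))
    (lift : (Fin (n + 1) → ℂ) → Fin (w + 2) → ℂ) (B : Fin (w + 2) → Fin (n + 1) → ℂ)
    (hD : HypData n w d Q A T lift) (hdβ : d + 1 ≤ β')
    (hdiv : ∀ (e : ℕ) (f : MvPolynomial (Fin (w + 2)) ℂ), e ≤ β' → f.IsHomogeneous e →
      (∀ u ∈ T, eval (lift u) f = 0) → Q ∣ f)
    (hsp : ∀ y : Fin (n + 1) → ℂ, (∀ u ∈ T, ∑ i, u i * y i = 0) → y = 0)
    (hB : ∀ u ∈ T, ∀ i, lift u i = ∑ j, B i j * u j) :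
    ∃ L : Fin (w + 2) → MvPolynomial (Fin (w + 2)) ℂ, Inv Q A L := by
  refine ⟨fun i => ∑ j, C (B i j) * A j, fun j => ⟨B j, rfl⟩, fun i j => ?_, ?_⟩
  · refine hdiv (d + 1) _ hdβ ?_ ?_
    · exact ((BIR_hom hD.homA (B j)).mul (isHomogeneous_X ℂ i)).sub
        ((BIR_hom hD.homA (B i)).mul (isHomogeneous_X ℂ j))
    · intro u hu
      obtain ⟨c, -, hc⟩ := hD.prop u hu
      show eval (lift u) ((∑ m, C (B j m) * A m) * X i - (∑ m, C (B i m) * A m) * X j) = 0
      rw [map_sub, map_mul, map_mul, eval_X, eval_X, BIR_ev (B j) u _ c hc,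
        BIR_ev (B i) u _ c hc, ← hB u hu j, ← hB u hu i]
      ring
  · obtain ⟨u, hu, hu0⟩ : ∃ u ∈ T, u ≠ 0 := by
      by_contra hall
      push Not at hall
      have h1 := hsp (fun _ => 1) (fun u hu => by
        rw [hall u hu]
        simp)
      have h2 := congrFun h1 0
      simp at h2
    obtain ⟨m, hm⟩ := Function.ne_iff.1 hu0
    obtain ⟨c, hc0, hc⟩ := hD.prop u hu
    have hl : lift u ≠ 0 := by
      intro h0
      have h1 := hc m
      rw [h0] at h1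
      have h2 : eval (0 : Fin (w + 2) → ℂ) (A m) = 0 := by
        have h3 : eval (0 : Fin (w + 2) → ℂ) (A m) = constantCoeff (A m) := by
          rw [← MvPolynomial.eval_zero]
        rw [h3, constantCoeff_eq]
        refine (hD.homA m).coeff_eq_zero ?_
        have := hD.hd
        simp
        omega
      rw [h2] at h1
      exact mul_ne_zero hc0 hm h1.symm
    obtain ⟨i, hi⟩ := Function.ne_iff.1 hl
    refine ⟨i, ?_⟩
    rintro ⟨R, hR⟩
    have h4 : eval (lift u) (∑ j, C (B i j) * A j) = 0 := by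
      have h5 : (∑ j, C (B i j) * A j) = Q * R := hR
      rw [h5, map_mul, hD.zero u hu, zero_mul]
    rw [BIR_ev (B i) u _ c hc, ← hB u hu i] at h4
    exact mul_ne_zero hc0 hi h4

theorem p_BIR : Stmt_BIR := by
  intro n w d β' Q A T Lm hD hdβ hdiv hsp
  exact BIR_aux n w d β' Q A T (fun u => Lm.mulVec u) (fun i j => Lm i j) hD hdβ hdiv hsp
    (fun u _ i => rfl)

end Pool.MPE
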