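import Pool.Agent.Work.MP_f82ddf_E.Interface

/-! # Block CDV of THEOREM E (helper67) -/

set_option autoImplicit false

open Pool.Agent.Work.MP_f82ddf_nt.DQ

namespace Pool.MPE

open MvPolynomial
open Pool.Agent.Work.MP_f82ddf_M5 (lineAt resAt chow at2 comb Data GoodDer)

theorem p_CDV (hDEG : Pool.Agent.Work.MP_f82ddf_M5.Stmt_DEG) : Stmt_CDV := by
  intro F _ N d D Q G hd hQ0 hQ hG hdvd
  obtain ⟨h, hh⟩ := hdvd
  set a : Fin N → MvPolynomial (Fin 2 × Fin N) F := fun i => X (0, i) with ha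
  set b : Fin N → MvPolynomial (Fin 2 × Fin N) F := fun i => X (1, i) with hb
  obtain ⟨d1, d2, -, -⟩ := hDEG N d F (MvPolynomial (Fin 2 × Fin N) F) C Q a b hQ
  obtain ⟨g1, -, -, -⟩ := hDEG N D F (MvPolynomial (Fin 2 × Fin N) F) C G a b hG
  set f := lineAt (C : F →+* MvPolynomial (Fin 2 × Fin N) F) Q a b with hf
  set g := lineAt (C : F →+* MvPolynomial (Fin 2 × Fin N) F) G a b with hg
  have hfg : g = f * lineAt (C : F →+* MvPolynomial (Fin 2 × Fin N) F) h a b := by
    rw [hg, hh, lineAt, eval₂_mul]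
    rfl
  have hne : f.coeff d ≠ 0 := by
    rw [d2]
    have h1 : eval₂ (C : F →+* MvPolynomial (Fin 2 × Fin N) F) a Q =
        rename (fun i : Fin N => ((0 : Fin 2), i)) Q := by
      rw [← aeval_X_left_apply (rename (fun i : Fin N => ((0 : Fin 2), i)) Q), aeval_rename,
        aeval_def]
      rfl
    rw [h1]
    intro h2
    exact hQ0 (rename_injective _ (fun i j hij => (Prod.ext_iff.1 hij).2)
      (h2.trans (map_zero _).symm))
  obtain ⟨p, q, -, -, hpq⟩ :=
    Polynomial.exists_mul_add_mul_eq_C_resultant f g d1 g1 (Or.inl (by omega))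
  have hdv : f ∣ Polynomial.C (f.resultant g d D) := by
    refine ⟨p + lineAt (C : F →+* MvPolynomial (Fin 2 × Fin N) F) h a b * q, ?_⟩
    rw [← hpq, hfg]
    ring
  show f.resultant g d D = 0
  by_contra h0
  have h1 := Polynomial.natDegree_le_of_dvd hdv (Polynomial.C_ne_zero.2 h0)
  rw [Polynomial.natDegree_C] at h1
  have h2 := Polynomial.le_natDegree_of_ne_zero hne
  omega

end Pool.MPE
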