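import Pool.Agent.Work.MP_f82ddf_E.Interface

set_option autoImplicit false

/-! # Block CLD (helper72): a family of vectors stable under a derivation with constants `ℂ` -/

open Pool.Agent.Work.MP_f82ddf_nt.DQ

namespace Pool.MPE

open MvPolynomial

theorem p_CLD : Stmt_CLD := by
  classical
  intro R _ _ _ δ m G h1 h2 h3
  have main : ∀ (k : ℕ) (c : Fin m → R), (Finset.univ.filter fun i => c i ≠ 0).card = k →
      (∀ v ∈ G, ∑ i, c i * v i = 0) → c = 0 := by
    intro k
    induction k using Nat.strong_induction_on with
    | _ k ih =>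
      intro c hk hc
      by_contra hne
      obtain ⟨i₀, hi₀⟩ : ∃ i, c i ≠ 0 := by
        by_contra hno
        push Not at hno
        exact hne (funext hno)
      have hδ : ∀ v ∈ G, ∑ i, δ (c i) * v i = 0 := by
        intro v hv
        have e1 : δ (∑ i, c i * v i) = 0 := by rw [hc v hv, map_zero]
        rw [map_sum] at e1
        have e2 : ∀ i, δ (c i * v i) = c i * δ (v i) + δ (c i) * v i := by
          intro i
          rw [Derivation.leibniz, smul_eq_mul, smul_eq_mul, mul_comm (v i)]
        rw [Finset.sum_congr rfl fun i _ => e2 i, Finset.sum_add_distrib, h2 c hc v hv,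
          zero_add] at e1
        exact e1
      have hc' : ∀ v ∈ G, ∑ i, (c i₀ * δ (c i) - δ (c i₀) * c i) * v i = 0 := by
        intro v hv
        have e1 : ∀ i, (c i₀ * δ (c i) - δ (c i₀) * c i) * v i =
            c i₀ * (δ (c i) * v i) - δ (c i₀) * (c i * v i) := by
          intro i
          ring
        rw [Finset.sum_congr rfl fun i _ => e1 i, Finset.sum_sub_distrib, ← Finset.mul_sum,
          ← Finset.mul_sum, hδ v hv, hc v hv, mul_zero, mul_zero, sub_zero]
      have hlt : (Finset.univ.filter fun i => (c i₀ * δ (c i) - δ (c i₀) * c i) ≠ 0).card < k := by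
        rw [← hk]
        apply Finset.card_lt_card
        rw [Finset.ssubset_iff_of_subset]
        · refine ⟨i₀, Finset.mem_filter.2 ⟨Finset.mem_univ _, hi₀⟩, ?_⟩
          rw [Finset.mem_filter]
          rintro ⟨-, h⟩
          exact h (by ring)
        · intro i hi
          rw [Finset.mem_filter] at hi ⊢
          refine ⟨hi.1, fun h => hi.2 ?_⟩
          rw [h, map_zero]
          ring
      have hz := ih _ hlt (fun i => c i₀ * δ (c i) - δ (c i₀) * c i) rfl hc'
      have hz' : ∀ i, ∃ z : ℂ, c i = algebraMap ℂ R z * c i₀ := by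
        intro i
        apply h1 _ _ hi₀
        have e1 : c i₀ * δ (c i) - δ (c i₀) * c i = 0 := congrFun hz i
        rw [sub_eq_zero] at e1
        rw [e1, mul_comm]
      choose z hz' using hz'
      have hz0 : z = 0 := by
        apply h3
        intro v hv
        have e1 : c i₀ * ∑ i, algebraMap ℂ R (z i) * v i = 0 := by
          rw [← hc v hv, Finset.mul_sum]
          refine Finset.sum_congr rfl fun i _ => ?_
          rw [hz' i]
          have e2 : c i₀ = algebraMap ℂ R (z i₀) * c i₀ := hz' i₀
          ring
        exact (mul_eq_zero.1 e1).resolve_left hi₀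
      apply hi₀
      rw [hz' i₀, hz0]
      simp
  exact fun c hc => main _ c rfl hc

end Pool.MPE
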