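import Pool.Agent.Work.MP_f82ddf_E.Interface

set_option autoImplicit false

/-! # Block CNT (helper29): the count of parameters -/

namespace Pool.MPE

open MvPolynomial
open Pool.ThmM (LastMonic)
open Pool.MPW (pv)

/-- TRM for finite index types -/
theorem CNT_card (hTRM : Pool.MPW.Stmt_TRM) {F : Type} [Field F] [Algebra ℂ F]
    {ι τ : Type} [Fintype ι] [Fintype τ] (u : ι → F) (s : τ → F) (hu : AlgebraicIndependent ℂ u)
    (h : ∀ i, IsAlgebraic (IntermediateField.adjoin ℂ (Set.range s)) (u i)) :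
    Fintype.card ι ≤ Fintype.card τ := by
  refine hTRM ℂ F (Fintype.card ι) (Fintype.card τ) (fun j => u ((Fintype.equivFin ι).symm j))
    (fun j => s ((Fintype.equivFin τ).symm j)) ?_ ?_
  · exact hu.comp _ (Fintype.equivFin ι).symm.injective
  · intro j
    have h1 : Set.range (fun j => s ((Fintype.equivFin τ).symm j)) = Set.range s :=
      (Fintype.equivFin τ).symm.surjective.range_comp s
    rw [h1]
    exact h _

/-- the last coordinate of a point of `Q = 0` is algebraic over a field with the others -/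
theorem CNT_last {F : Type} [Field F] [Algebra ℂ F] (w d : ℕ) (Q : MvPolynomial (Fin (w + 2)) ℂ)
    (hQ : LastMonic w d Q) (v : Fin (w + 2) → F) (hv : aeval v Q = 0)
    (E : IntermediateField ℂ F) (hE : ∀ j : Fin (w + 1), v j.castSucc ∈ E) :
    IsAlgebraic E (v (Fin.last (w + 1))) := by
  obtain ⟨q, hq⟩ := hQ
  have hE' : ∃ v' : Fin (w + 1) → E, ∀ j, (v' j : F) = v j.castSucc :=
    ⟨fun j => ⟨v j.castSucc, hE j⟩, fun j => rfl⟩
  obtain ⟨v', hv'⟩ := hE'
  have hval : ∀ H : MvPolynomial (Fin (w + 1)) ℂ,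
      algebraMap E F (aeval v' H) = aeval (fun j => v j.castSucc) H := by
    intro H
    have h1 := MvPolynomial.aeval_algebraMap_apply F v' H
    have h2 : (fun j => algebraMap E F (v' j)) = fun j => v j.castSucc := funext hv'
    rw [← h1]
    congr 1
    exact congrArg _ h2
  refine ⟨Polynomial.X ^ d + ∑ j ∈ Finset.range d, Polynomial.C (aeval v' (q j)) *
    Polynomial.X ^ j, ?_, ?_⟩
  · intro h0
    have h1 : (Polynomial.X ^ d + ∑ j ∈ Finset.range d, Polynomial.C (aeval v' (q j)) *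
        Polynomial.X ^ j : Polynomial E).Monic := by
      refine Polynomial.monic_X_pow_add ?_
      refine (Polynomial.degree_sum_le _ _).trans_lt ?_
      refine (Finset.sup_lt_iff (WithBot.bot_lt_coe d)).2 ?_
      intro j hj
      refine (Polynomial.degree_C_mul_X_pow_le _ _).trans_lt ?_
      exact WithBot.coe_lt_coe.2 (Finset.mem_range.1 hj)
    rw [h0] at h1
    exact Polynomial.not_monic_zero h1
  · rw [map_add, map_pow, Polynomial.aeval_X, map_sum]
    rw [hq] at hv
    rw [map_add, map_pow, aeval_X, map_sum] at hv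
    rw [← hv]
    congr 1
    refine Finset.sum_congr rfl fun j _ => ?_
    rw [map_mul, Polynomial.aeval_C, map_pow, Polynomial.aeval_X, map_mul, map_pow, aeval_X,
      aeval_rename, hval]
    rfl

/-- CNT (helper29) -/
theorem p_CNT (hTRM : Pool.MPW.Stmt_TRM) : Stmt_CNT := by
  intro F _ _ w a d Q B B' b s ξ p₀ hQm hQ hG hG' hmin hind
  classical
  obtain ⟨i₁, i₂, hm⟩ := hmin
  have hne : i₁ ≠ i₂ := by
    intro h
    apply hm
    rw [h, sub_self, map_zero]
  obtain ⟨v, hv⟩ : ∃ v, v = pv b s := ⟨_, rfl⟩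
  rw [← hv] at hQ hG hG' hm
  have hvj : ∀ j, v j = s * b (0, j) + b (1, j) := fun j => by rw [hv]; rfl
  -- the generators
  let sf : (Fin (w + 1) ⊕ Unit) ⊕ (Fin (w + 2) ⊕ {i : Fin (a + 1) // i ≠ i₁ ∧ i ≠ i₂}) → F :=
    Sum.elim (Sum.elim (fun j => v j.castSucc) (fun _ => s))
      (Sum.elim (fun j => b (0, j)) (fun i => ξ i))
  obtain ⟨E, hE⟩ : ∃ E, E = IntermediateField.adjoin ℂ (Set.range sf) := ⟨_, rfl⟩
  have hmem : ∀ t, sf t ∈ E := by
    intro t
    rw [hE]
    exact IntermediateField.subset_adjoin _ _ ⟨t, rfl⟩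
  obtain ⟨K, hK⟩ : ∃ K : IntermediateField E F, ∀ x, x ∈ K ↔ IsAlgebraic E x :=
    ⟨algebraicClosure E F, fun x => mem_algebraicClosure_iff⟩
  have hEK : ∀ x ∈ E, x ∈ K := by
    intro x hx
    exact K.algebraMap_mem ⟨x, hx⟩
  have hv1 : ∀ j : Fin (w + 1), v j.castSucc ∈ E := fun j => hmem (Sum.inl (Sum.inl j))
  have hs : s ∈ E := hmem (Sum.inl (Sum.inr ()))
  have hb0 : ∀ j, b (0, j) ∈ E := fun j => hmem (Sum.inr (Sum.inl j))
  have hξ : ∀ i, i ≠ i₁ → i ≠ i₂ → ξ i ∈ E := fun i h1 h2 => hmem (Sum.inr (Sum.inr ⟨i, h1, h2⟩))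
  have hvK : ∀ j, v j ∈ K := by
    intro j
    refine Fin.lastCases ?_ (fun i => hEK _ (hv1 i)) j
    exact (hK _).2 (CNT_last w d Q hQm v hQ E hv1)
  have hpol : ∀ H : MvPolynomial (Fin (w + 2)) ℂ, aeval v H ∈ K := by
    intro H
    induction H using MvPolynomial.induction_on with
    | C z =>
      rw [aeval_C]
      exact hEK _ (E.algebraMap_mem z)
    | add p q hp hq =>
      rw [map_add]
      exact K.add_mem hp hq
    | mul_X p j hp =>
      rw [map_mul, aeval_X]
      exact K.mul_mem hp (hvK j)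
  have hb1 : ∀ j, b (1, j) ∈ K := by
    intro j
    have h1 : b (1, j) = v j - s * b (0, j) := by rw [hvj]; ring
    rw [h1]
    exact K.sub_mem (hvK j) (K.mul_mem (hEK _ hs) (hEK _ (hb0 j)))
  -- the two other coordinates
  have hkey1 : ∑ i, ξ i * (aeval v (B i) * aeval v (B' i₂) - aeval v (B i₂) * aeval v (B' i)) =
      0 := by
    have h1 : ∑ i, ξ i * (aeval v (B i) * aeval v (B' i₂) - aeval v (B i₂) * aeval v (B' i)) =
        (∑ i, ξ i * aeval v (B i)) * aeval v (B' i₂) -
          aeval v (B i₂) * ∑ i, ξ i * aeval v (B' i) := by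
      rw [Finset.sum_mul, Finset.mul_sum, ← Finset.sum_sub_distrib]
      exact Finset.sum_congr rfl fun i _ => by ring
    rw [h1, hG, hG', zero_mul, mul_zero, sub_zero]
  have hkey2 : ∑ i, ξ i * (aeval v (B i₁) * aeval v (B' i) - aeval v (B i) * aeval v (B' i₁)) =
      0 := by
    have h1 : ∑ i, ξ i * (aeval v (B i₁) * aeval v (B' i) - aeval v (B i) * aeval v (B' i₁)) =
        aeval v (B i₁) * (∑ i, ξ i * aeval v (B' i)) -
          (∑ i, ξ i * aeval v (B i)) * aeval v (B' i₁) := by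
      rw [Finset.sum_mul, Finset.mul_sum, ← Finset.sum_sub_distrib]
      exact Finset.sum_congr rfl fun i _ => by ring
    rw [h1, hG, hG', zero_mul, mul_zero, sub_zero]
  have hm' : aeval v (B i₁) * aeval v (B' i₂) - aeval v (B i₂) * aeval v (B' i₁) ≠ 0 := by
    rw [← map_mul, ← map_mul, ← map_sub]
    intro h1
    apply hm
    rw [← h1]
  have hdiv : ∀ x m : F, m ≠ 0 → m ∈ K → x * m ∈ K → x ∈ K := by
    intro x m hm0 hmK hxm
    have h1 : x = x * m / m := by field_simp
    rw [h1]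
    exact K.div_mem hxm hmK
  have hmK : aeval v (B i₁) * aeval v (B' i₂) - aeval v (B i₂) * aeval v (B' i₁) ∈ K :=
    K.sub_mem (K.mul_mem (hpol _) (hpol _)) (K.mul_mem (hpol _) (hpol _))
  have hξ1 : ξ i₁ ∈ K := by
    refine hdiv _ _ hm' hmK ?_
    have h1 := hkey1
    rw [← Finset.add_sum_erase _ _ (Finset.mem_univ i₁)] at h1
    rw [eq_neg_of_add_eq_zero_left h1]
    refine K.neg_mem (K.sum_mem fun i hi => ?_)
    have hi1 : i ≠ i₁ := (Finset.mem_erase.1 hi).1
    by_cases hi2 : i = i₂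
    · rw [hi2, sub_self, mul_zero]
      exact K.zero_mem
    · exact K.mul_mem (hEK _ (hξ i hi1 hi2))
        (K.sub_mem (K.mul_mem (hpol _) (hpol _)) (K.mul_mem (hpol _) (hpol _)))
  have hξ2 : ξ i₂ ∈ K := by
    refine hdiv _ _ hm' hmK ?_
    have h1 := hkey2
    rw [← Finset.add_sum_erase _ _ (Finset.mem_univ i₂)] at h1
    rw [eq_neg_of_add_eq_zero_left h1]
    refine K.neg_mem (K.sum_mem fun i hi => ?_)
    have hi2 : i ≠ i₂ := (Finset.mem_erase.1 hi).1
    by_cases hi1 : i = i₁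
    · rw [hi1, sub_self, mul_zero]
      exact K.zero_mem
    · exact K.mul_mem (hEK _ (hξ i hi1 hi2))
        (K.sub_mem (K.mul_mem (hpol _) (hpol _)) (K.mul_mem (hpol _) (hpol _)))
  have hξK : ∀ i, ξ i ∈ K := by
    intro i
    by_cases h1 : i = i₁
    · rw [h1]
      exact hξ1
    · by_cases h2 : i = i₂
      · rw [h2]
        exact hξ2
      · exact hEK _ (hξ i h1 h2)
  have hbK : ∀ p : Fin 2 × Fin (w + 2), b p ∈ K := by
    rintro ⟨t, j⟩
    fin_cases t
    · exact hEK _ (hb0 j)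
    · exact hb1 j
  have hcard := CNT_card hTRM _ sf hind (by
    intro t
    rw [← hE, ← hK]
    rcases t with i | p
    · exact hξK i
    · exact hbK p)
  -- the count
  have hc1 : Fintype.card {p : Fin 2 × Fin (w + 2) // p ≠ p₀} = 2 * (w + 2) - 1 := by
    rw [Fintype.card_subtype_compl, Fintype.card_prod, Fintype.card_fin, Fintype.card_fin,
      Fintype.card_subtype_eq]
  have hc2 : Fintype.card {i : Fin (a + 1) // i ≠ i₁ ∧ i ≠ i₂} = a + 1 - 2 := by
    rw [Fintype.card_subtype]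
    have h1 : (Finset.univ.filter fun i : Fin (a + 1) => i ≠ i₁ ∧ i ≠ i₂) =
        ({i₁, i₂} : Finset (Fin (a + 1)))ᶜ := by
      ext i
      simp
    rw [h1, Finset.card_compl, Finset.card_pair hne, Fintype.card_fin]
  have ha : 2 ≤ a + 1 := by
    have h1 := Finset.card_le_univ ({i₁, i₂} : Finset (Fin (a + 1)))
    rwa [Finset.card_pair hne, Fintype.card_fin] at h1
  rw [Fintype.card_sum, Fintype.card_sum, Fintype.card_sum, Fintype.card_sum, Fintype.card_fin,
    Fintype.card_fin, Fintype.card_fin, Fintype.card_unit, hc1, hc2] at hcard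
  omega

end Pool.MPE
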