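import Pool.Agent.Work.MP_f82ddf_E.Interface

set_option autoImplicit false

/-! # THEOREM E (MP_f82ddf_nt), block DEX -/

open Pool.Agent.Work.MP_f82ddf_nt.DQ

namespace Pool.MPE

open MvPolynomial
open Pool.Agent.Work.MP_f82ddf_M5 (comb)

/-- The derivation over `F` which extends `D₁`. -/
noncomputable def DEX_d {N : ℕ} (F : Type) [Field F] [Algebra ℂ F]
    (D₁ : Derivation ℂ (MvPolynomial (Fin N) ℂ) (MvPolynomial (Fin N) ℂ)) :
    Derivation F (MvPolynomial (Fin N) F) (MvPolynomial (Fin N) F) :=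
  mkDerivation F fun i => map (algebraMap ℂ F) (D₁ (X i))

theorem DEX_map {N : ℕ} (F : Type) [Field F] [Algebra ℂ F]
    (D₁ : Derivation ℂ (MvPolynomial (Fin N) ℂ) (MvPolynomial (Fin N) ℂ))
    (f : MvPolynomial (Fin N) ℂ) :
    DEX_d F D₁ (map (algebraMap ℂ F) f) = map (algebraMap ℂ F) (D₁ f) := by
  induction f using MvPolynomial.induction_on with
  | C a =>
    have h1 : D₁ (C a) = 0 := by
      rw [← MvPolynomial.algebraMap_eq]
      exact D₁.map_algebraMap a
    have h2 : DEX_d F D₁ (C (algebraMap ℂ F a)) = 0 := by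
      rw [← MvPolynomial.algebraMap_eq]
      exact (DEX_d F D₁).map_algebraMap _
    rw [map_C, h1, h2, map_zero]
  | add p r hp hr => rw [map_add, map_add, map_add, map_add, hp, hr]
  | mul_X p i hp =>
    have h3 : DEX_d F D₁ (X i) = map (algebraMap ℂ F) (D₁ (X i)) := by
      rw [DEX_d, mkDerivation_X]
    rw [map_mul, map_X, Derivation.leibniz, Derivation.leibniz, hp, h3]
    simp only [smul_eq_mul, map_add, map_mul, map_X]

/-- DEX -/
theorem p_DEX : Stmt_DEX := by
  intro F _ _ N D₁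
  refine ⟨DEX_d F D₁, DEX_map F D₁, ?_⟩
  intro n A x
  unfold comb
  rw [map_sum]
  refine Finset.sum_congr rfl fun i _ => ?_
  rw [← smul_eq_C_mul, ← smul_eq_C_mul, Derivation.map_smul, DEX_map]

end Pool.MPE
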