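import Pool.Agent.Work.MP_f82ddf_E.Interface
import Pool.Agent.Work.MP_f82ddf_W.B_DIX

set_option autoImplicit false

/-! # THEOREM E, block DIE (helper6): the points over `Mer` have dimension at most `a - 1`
(adapted from `MP_f82ddf_W/B_DIX.lean`) -/

open Pool.Agent.Work.MP_f82ddf_nt.DQ

namespace Pool.MPE

open MvPolynomial
open Pool.Agent.Work.MP_f82ddf_nt (PSpace HolomorphicOn complexPoints points KobayashiHyperbolic)
open Pool.ThmP (Mor OnX OnK tm)
open Pool.MPL (NC)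
open Pool.MPV (Ful Full)

theorem p_DIE (h1 : Stmt_MPE) (hNCI : Stmt_NCI) (hMPT : Pool.ThmP.Stmt_MPT)
    (hFIB : Pool.ThmP.Stmt_FIB) (hTRX : Pool.ThmP.Stmt_TRX) (hHOMR : Pool.ThmM0.Stmt_HOMR) :
    Stmt_DIE := by
  intro n c κ hn
  obtain ⟨N₀, δ, hN₀⟩ := h1 n c κ hn
  refine ⟨N₀, δ, ?_⟩
  intro N hN K _ _ l hl w₀ k a q hk ha hw hnaq hconc m S hS g hg hfull
  obtain ⟨b, rfl⟩ : ∃ b, a = b + 1 := ⟨a - 1, by omega⟩
  rw [Nat.add_sub_cancel]
  intro σ x hx r
  have := Pool.MPW.DIX_countable K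
  obtain ⟨D, hD, hDx⟩ := hN₀ (AlgebraicClosure K) N l hN hl w₀ k (b + 1) q hk ha hw hnaq hconc
  let τ : AlgebraicClosure K →+* ℂ :=
    letI : Algebra K ℂ := σ.toAlgebra
    (IsAlgClosed.lift (R := K) (M := ℂ) (S := AlgebraicClosure K)).toRingHom
  have hτ : τ.comp (algebraMap K (AlgebraicClosure K)) = σ := by
    let : Algebra K ℂ := σ.toAlgebra
    exact AlgHom.comp_algebraMap
      (IsAlgClosed.lift (R := K) (M := ℂ) (S := AlgebraicClosure K))
  have hx' : OnK (tm τ) S x := by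
    intro F hF
    have h6 : (tm τ).comp (algebraMap K (AlgebraicClosure K)) =
        (algebraMap ℂ Mer).comp σ := by
      rw [tm, RingHom.comp_assoc, hτ]
    rw [h6]
    exact hx F hF
  by_contra hcon
  push Not at hcon
  have hr0 : x (r 0) ≠ 0 := by
    have h := hcon 1 (X 0) (X_ne_zero _) (isHomogeneous_X _ _)
    rwa [aeval_X] at h
  have hx0 : x ≠ 0 := fun h => hr0 (congrFun h _)
  have hind := hHOMR b (fun i => x (r i)) hr0 hcon
  have hnc : ∃ i₀ i, x i₀ ≠ 0 ∧ ∀ a : ℂ, x i ≠ algebraMap ℂ Mer a * x i₀ := by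
    refine ⟨r 0, r 1, hr0, fun a ha => ?_⟩
    have h2 := hind.transcendental 0
    have h3 : x (r (Fin.succ 0)) / x (r 0) = algebraMap ℂ Mer a := by
      rw [div_eq_iff hr0]
      exact ha
    rw [h3] at h2
    exact h2 (isAlgebraic_algebraMap a)
  obtain ⟨M1, -⟩ := hMPT K (AlgebraicClosure K) Mer m n S g (tm τ) x hx'
  obtain ⟨s, hs, c₀, hc₀⟩ := M1 hx0
  have hDy := hDx K m S hS g hfull τ x hx'
    (hNCI K (AlgebraicClosure K) m n S g hS hg τ x hx' hnc) s hs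
  set y : Fin (n + 1) → Mer := fun c => eval₂ (tm τ) x (s c) with hy
  set A : Set Mer := Set.range fun c => y c / y c₀ with hA
  have h2 : ∀ j : Fin (b + 1), IsAlgebraic (Algebra.adjoin ℂ A) (x (r j.succ) / x (r 0)) :=
    fun j => hFIB K (AlgebraicClosure K) m n S g hS hg τ x hx' s hs c₀ hc₀ (r j.succ) (r 0) hr0
  have h3 : ∀ a ∈ A, IsAlgebraic (Algebra.adjoin ℂ A) a := fun a ha =>
    isAlgebraic_algebraMap (⟨a, Algebra.subset_adjoin ha⟩ : Algebra.adjoin ℂ A)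
  obtain ⟨t, ht1, ht2⟩ := hTRX (b + 1) _ A A hind h2 h3
  choose cc hcc using ht1
  simp only at hcc
  have hone : ∀ j, t j ≠ 1 := by
    intro j hj
    have h4 := ht2.transcendental j
    rw [hj] at h4
    exact h4 isAlgebraic_one
  have hσ : Function.Injective (Fin.cons c₀ cc : Fin (b + 1 + 1) → Fin (n + 1)) := by
    rw [Fin.cons_injective_iff]
    constructor
    · rintro ⟨j, hj⟩
      exact hone j (by rw [← hcc j, hj, div_self hc₀])
    · intro i j hij
      exact ht2.injective (by rw [← hcc i, ← hcc j, hij])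
  let ρ : Fin (b + 1 + 1) ↪ Fin (n + 1) := ⟨Fin.cons c₀ cc, hσ⟩
  have hρ0 : ρ 0 = c₀ := rfl
  have hρs : ∀ j : Fin (b + 1), ρ j.succ = cc j := fun j => rfl
  obtain ⟨hD0, e, hDe⟩ := hD ρ
  have hDy' : eval₂ (algebraMap ℂ Mer) (fun i => y (ρ i)) (map τ (D ρ)) = 0 := by
    rw [eval₂_map]
    exact hDy ρ
  refine Pool.MPW.DIX_alg (fun i => y (ρ i)) hc₀ (map τ (D ρ)) (hDe.map τ) (fun h => ?_) hDy' ?_
  · exact hD0 (map_injective τ τ.injective (by rw [h, map_zero]))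
  · have h5 : (fun j : Fin (b + 1) => y (ρ j.succ) / y (ρ 0)) = t := by
      funext j
      rw [hρs, hρ0, hcc]
    rw [h5]
    exact ht2

end Pool.MPE
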