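import Pool.Agent.Work.MP_f82ddf_E.Interface
import Mathlib.RingTheory.MvPolynomial.EulerIdentity

set_option autoImplicit false

/-! # THEOREM E (MP_f82ddf_nt), block DLL (helper75) -/

namespace Pool.MPE

open MvPolynomial

theorem DLL_one {w : ℕ} (Q : MvPolynomial (Fin (w + 2)) ℂ) (l : Fin (w + 1))
    (f : MvPolynomial (Fin (w + 2)) ℂ) :
    Dl Q l f = pderiv l.castSucc f * pderiv (Fin.last (w + 1)) Q -
      pderiv (Fin.last (w + 1)) f * pderiv l.castSucc Q := by
  obtain ⟨D2, hD2⟩ : ∃ D2 : Derivation ℂ (MvPolynomial (Fin (w + 2)) ℂ)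
      (MvPolynomial (Fin (w + 2)) ℂ), D2 = pderiv (Fin.last (w + 1)) Q • pderiv l.castSucc -
        pderiv l.castSucc Q • pderiv (Fin.last (w + 1)) := ⟨_, rfl⟩
  have hne : l.castSucc ≠ Fin.last (w + 1) := Fin.castSucc_ne_last l
  have h1 : Dl Q l = D2 := by
    apply derivation_ext
    intro i
    rw [hD2, Derivation.sub_apply, Derivation.smul_apply, Derivation.smul_apply, smul_eq_mul,
      smul_eq_mul]
    unfold Dl
    rw [mkDerivation_X]
    by_cases h1 : i = l.castSucc
    · rw [if_pos h1, h1, pderiv_X_self, pderiv_X_of_ne hne, mul_one, mul_zero, sub_zero]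
    · rw [if_neg h1]
      by_cases h2 : i = Fin.last (w + 1)
      · rw [if_pos h2, h2, pderiv_X_self, pderiv_X_of_ne hne.symm, mul_one, mul_zero, zero_sub]
      · rw [if_neg h2, pderiv_X_of_ne h1, pderiv_X_of_ne h2, mul_zero, mul_zero, sub_zero]
  rw [h1, hD2, Derivation.sub_apply, Derivation.smul_apply, Derivation.smul_apply, smul_eq_mul,
      smul_eq_mul]
  ring

theorem p_DLL : Stmt_DLL := by
  intro w Q l
  refine ⟨DLL_one Q l, ?_, ?_, ?_⟩
  · rw [DLL_one]
    ring
  · intro d e f hQ hf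
    rw [DLL_one]
    have h1 : (pderiv l.castSucc f).IsHomogeneous e := hf.pderiv
    have h2 : (pderiv (Fin.last (w + 1)) f).IsHomogeneous e := hf.pderiv
    exact (h1.mul hQ.pderiv).sub (h2.mul hQ.pderiv)
  · intro l'
    unfold Dl
    rw [mkDerivation_X]
    by_cases h : l' = l
    · rw [if_pos h, if_pos (by rw [h])]
    · rw [if_neg h, if_neg (fun hc => h (Fin.castSucc_injective _ hc)),
        if_neg (Fin.castSucc_ne_last l')]

end Pool.MPE
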