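import Pool.Agent.Work.MP_f82ddf_E.Interface
import Pool.Agent.Work.MP_f82ddf_H.B_DS2

set_option autoImplicit false

/-! # THEOREM E, block DS3: two products of irreducible factors -/

open Pool.Agent.Work.MP_f82ddf_nt.DQ

namespace Pool.MPE

open MvPolynomial
open Pool.ThmM.Chow (Mov)
open Pool.MPL (RX)
open Pool.MPH (MovR DS2_fix DS2_pairs)

/-- One factor of the first product against the factors of the second one. -/
theorem DS3_pairs (hDS1 : Pool.MPH.Stmt_DS1) (hMIR : Pool.MPL.Stmt_MIR) {σ : Type} [Finite σ]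
    {b : ℕ} (H : MvPolynomial σ (RX b)) (hH : Irreducible H) (L : List (MvPolynomial σ (RX b)))
    (hL : ∀ H' ∈ L, Irreducible H') (hA : MovR H → ∀ H' ∈ L, ¬ Associated H H') :
    ∃ D : RX b, D ≠ 0 ∧ ∀ (α : ℂ ≃+* ℂ) (φ : RX b →+* Mer),
      (∀ z : ℂ, φ (C z) = algebraMap ℂ Mer (α z)) →
      ∀ P : MvPolynomial σ Mer, Irreducible P → Mov P → φ D ≠ 0 → P ∣ map φ H →
        ∀ H' ∈ L, ¬ P ∣ map φ H' := by
  by_cases hm : MovR H
  · obtain ⟨D, hD, h⟩ := DS2_pairs hDS1 H hH L hL (hA hm)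
    exact ⟨D, hD, fun α φ _ P hP _ hφ hPH => h φ P hP hφ hPH⟩
  · obtain ⟨D, hD, h⟩ := DS2_fix hMIR H hH.ne_zero hm
    exact ⟨D, hD, fun α φ hα P hP hMov hφ hPH => absurd hPH (h α φ hα P hP hMov hφ)⟩

/-- Two lists of irreducible factors. -/
theorem DS3_list (hDS1 : Pool.MPH.Stmt_DS1) (hMIR : Pool.MPL.Stmt_MIR) {σ : Type} [Finite σ]
    {b : ℕ} (L L' : List (MvPolynomial σ (RX b))) (hL : ∀ H ∈ L, Irreducible H)
    (hL' : ∀ H ∈ L', Irreducible H) (hA : ∀ H ∈ L, MovR H → ∀ H' ∈ L', ¬ Associated H H') :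
    ∃ D : RX b, D ≠ 0 ∧ ∀ (α : ℂ ≃+* ℂ) (φ : RX b →+* Mer),
      (∀ z : ℂ, φ (C z) = algebraMap ℂ Mer (α z)) →
      ∀ P : MvPolynomial σ Mer, Irreducible P → Mov P → φ D ≠ 0 → P ∣ map φ L.prod →
        ¬ P ∣ map φ L'.prod := by
  induction L with
  | nil =>
    refine ⟨1, one_ne_zero, ?_⟩
    intro α φ _ P hP _ _ hdvd
    rw [List.prod_nil, map_one] at hdvd
    exact absurd (isUnit_of_dvd_one hdvd) hP.not_isUnit
  | cons H L ih =>
    obtain ⟨D₁, hD₁, h₁⟩ := ih (fun H' h => hL H' (List.mem_cons_of_mem _ h))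
      (fun H' h => hA H' (List.mem_cons_of_mem _ h))
    obtain ⟨D₂, hD₂, h₂⟩ := DS3_pairs hDS1 hMIR H (hL H List.mem_cons_self) L' hL'
      (hA H List.mem_cons_self)
    refine ⟨D₁ * D₂, mul_ne_zero hD₁ hD₂, ?_⟩
    intro α φ hα P hP hMov hφ hdvd
    rw [map_mul] at hφ
    rw [List.prod_cons, map_mul] at hdvd
    rcases hP.prime.dvd_or_dvd hdvd with h3 | h3
    · intro h4
      rw [map_list_prod, Prime.dvd_prod_iff hP.prime] at h4
      obtain ⟨Q, hQ, hPQ⟩ := h4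
      obtain ⟨H', hH', rfl⟩ := List.mem_map.mp hQ
      exact h₂ α φ hα P hP hMov (right_ne_zero_of_mul hφ) h3 H' hH' hPQ
    · exact h₁ α φ hα P hP hMov (left_ne_zero_of_mul hφ) h3

/-- DS3 -/
theorem p_DS3 : Pool.MPH.Stmt_DS1 → Pool.MPL.Stmt_MIR → Stmt_DS3 := by
  intro hDS1 hMIR σ _ b U U' hU hU' hsep
  obtain ⟨f, hf, hfU⟩ := WfDvdMonoid.exists_factors U hU
  obtain ⟨f', hf', hfU'⟩ := WfDvdMonoid.exists_factors U' hU'
  have hL : ∀ H ∈ f.toList, Irreducible H := fun H hH => hf H (Multiset.mem_toList.mp hH)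
  have hL' : ∀ H ∈ f'.toList, Irreducible H := fun H hH => hf' H (Multiset.mem_toList.mp hH)
  have hA : Associated f.toList.prod U := by rw [Multiset.prod_toList]; exact hfU
  have hA' : Associated f'.toList.prod U' := by rw [Multiset.prod_toList]; exact hfU'
  obtain ⟨D, hD, h⟩ := DS3_list hDS1 hMIR f.toList f'.toList hL hL' (by
    intro H hH hm H' hH' hass
    exact hsep H (hL H hH) hm ((List.dvd_prod hH).trans hA.dvd)
      (hass.dvd.trans ((List.dvd_prod hH').trans hA'.dvd)))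
  refine ⟨D, hD, ?_⟩
  intro α φ hα P hP hMov hdvd hdvd'
  by_contra hφ
  exact h α φ hα P hP hMov hφ (hdvd.trans (map_dvd (map φ) hA.symm.dvd))
    (hdvd'.trans (map_dvd (map φ) hA'.symm.dvd))

end Pool.MPE
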