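import Pool.Agent.Work.MP_f82ddf_E.Interface

set_option autoImplicit false

/-! # Block DVC (helper72): the Chow form vanishes at a line through a common zero -/

open Pool.Agent.Work.MP_f82ddf_nt.DQ

namespace Pool.MPE

open MvPolynomial
open Pool.Agent.Work.MP_f82ddf_M5 (lineAt resAt chow at2 comb Data GoodDer)
open Pool.MPW (pv OrdGE UG ExcW)

theorem DVC_eval {N : ℕ} {R B : Type} [CommRing R] [CommRing B] (φ : R →+* B)
    (F : MvPolynomial (Fin N) R) (b : Fin 2 × Fin N → B) (s : B) :
    (lineAt φ F (fun i => b (0, i)) (fun i => b (1, i))).eval s = eval₂ φ (pv b s) F := by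
  unfold lineAt
  rw [← Polynomial.coe_evalRingHom, MvPolynomial.eval₂_comp_left]
  congr 1
  · ext r
    simp
  · funext i
    show (Polynomial.evalRingHom s) (Polynomial.C (b (0, i)) * Polynomial.X +
      Polynomial.C (b (1, i))) = s * b (0, i) + b (1, i)
    rw [Polynomial.coe_evalRingHom, Polynomial.eval_add, Polynomial.eval_mul, Polynomial.eval_C,
      Polynomial.eval_C, Polynomial.eval_X, mul_comm]

theorem p_DVC (hFUN : Pool.Agent.Work.MP_f82ddf_M5.Stmt_FUN)
    (hDEG : Pool.Agent.Work.MP_f82ddf_M5.Stmt_DEG) : Stmt_DVC := by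
  intro M F _ _ _ N d D Q G b s hd hQ hG hQ0 hG0
  have h1 := hFUN.2.2.2.2.1 N d D M F (algebraMap M F) Q G (fun i => b (0, i)) (fun i => b (1, i))
  have h2 : at2 (algebraMap M F) (fun i => b (0, i)) (fun i => b (1, i)) (chow d D Q G) =
      eval₂ (algebraMap M F) b (chow d D Q G) := by
    unfold at2
    rw [coe_eval₂Hom]
    congr 1
    funext p
    obtain ⟨i, j⟩ := p
    by_cases hi : i = 0
    · subst hi
      simp
    · have hi1 : i = 1 := by
        fin_cases i
        · exact absurd rfl hi
        · rfl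
      subst hi1
      simp
  rw [← h2, h1]
  unfold resAt
  obtain ⟨p, q, -, -, hpq⟩ := Polynomial.exists_mul_add_mul_eq_C_resultant
    (lineAt (algebraMap M F) Q (fun i => b (0, i)) (fun i => b (1, i)))
    (lineAt (algebraMap M F) G (fun i => b (0, i)) (fun i => b (1, i)))
    (hDEG N d M F (algebraMap M F) Q _ _ hQ).1 (hDEG N D M F (algebraMap M F) G _ _ hG).1
    (Or.inl (by omega))
  have h3 := congrArg (Polynomial.eval s) hpq
  rw [Polynomial.eval_add, Polynomial.eval_mul, Polynomial.eval_mul, DVC_eval, DVC_eval, hQ0, hG0,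
    Polynomial.eval_C, zero_mul, zero_mul, add_zero] at h3
  exact h3.symm

end Pool.MPE
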