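import Pool.Agent.Work.MP_f82ddf_E.Interface

set_option autoImplicit false

/-! # Block ELM (helper29): elimination of columns -/

namespace Pool.MPE

open MvPolynomial

/-- one elimination step, and the induction -/
theorem ELM_claim (N n q : ℕ) (Q : MvPolynomial (Fin N) ℂ) (cols : Fin q → Fin (n + 1))
    (r : Fin (q + 2) → Fin (n + 1) → MvPolynomial (Fin N) ℂ) (e : Fin (q + 2) → ℕ)
    (hQ : Prime Q) (hr : ∀ ρ i, (r ρ i).IsHomogeneous (e ρ))
    (hind : ∀ c : Fin (q + 2) → MvPolynomial (Fin N) ℂ, (∀ i, Q ∣ ∑ ρ, c ρ * r ρ i) →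
      ∀ ρ, Q ∣ c ρ) :
    ∀ h : ℕ, h ≤ q → ∀ p : ℕ, p + h = q + 2 →
      ∃ (r' : Fin p → Fin (n + 1) → MvPolynomial (Fin N) ℂ) (e' : Fin p → ℕ),
        (∀ ρ, r' ρ ∈ Submodule.span (MvPolynomial (Fin N) ℂ) (Set.range r)) ∧
        (∀ ρ i, (r' ρ i).IsHomogeneous (e' ρ)) ∧
        (∀ c : Fin p → MvPolynomial (Fin N) ℂ, (∀ i, Q ∣ ∑ ρ, c ρ * r' ρ i) → ∀ ρ, Q ∣ c ρ) ∧
        ∀ ρ, ∀ l : Fin q, (l : ℕ) < h → Q ∣ r' ρ (cols l) := by
  intro h
  induction h with
  | zero =>
    intro _ p hp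
    have hp' : p = q + 2 := by omega
    subst hp'
    exact ⟨r, e, fun ρ => Submodule.subset_span ⟨ρ, rfl⟩, hr, hind,
      fun ρ l hl => absurd hl (Nat.not_lt_zero _)⟩
  | succ h ih =>
    intro hh p hp
    obtain ⟨r', e', h1, h2, h3, h4⟩ := ih (by omega) (p + 1) (by omega)
    by_cases hall : ∀ ρ, Q ∣ r' ρ (cols ⟨h, by omega⟩)
    · refine ⟨fun ρ => r' ρ.castSucc, fun ρ => e' ρ.castSucc, fun ρ => h1 _, fun ρ i => h2 _ i,
        ?_, ?_⟩
      · intro c hc ρ
        have h5 := h3 (Fin.snoc (α := fun _ => MvPolynomial (Fin N) ℂ) c 0) (fun i => by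
          rw [Fin.sum_univ_castSucc]
          simp only [Fin.snoc_castSucc, Fin.snoc_last, zero_mul, add_zero]
          exact hc i) ρ.castSucc
        rwa [Fin.snoc_castSucc] at h5
      · intro ρ l hl
        rcases Nat.lt_succ_iff_lt_or_eq.1 hl with h5 | h5
        · exact h4 _ l h5
        · have h6 : l = ⟨h, by omega⟩ := Fin.ext h5
          rw [h6]
          exact hall _
    · push Not at hall
      obtain ⟨ρ₀, hρ₀⟩ := hall
      obtain ⟨g, hg⟩ : ∃ g, g = r' ρ₀ (cols ⟨h, by omega⟩) := ⟨_, rfl⟩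
      rw [← hg] at hρ₀
      refine ⟨fun ρ i => g * r' (ρ₀.succAbove ρ) i -
          r' (ρ₀.succAbove ρ) (cols ⟨h, by omega⟩) * r' ρ₀ i,
        fun ρ => e' ρ₀ + e' (ρ₀.succAbove ρ), ?_, ?_, ?_, ?_⟩
      · intro ρ
        exact Submodule.sub_mem _ (Submodule.smul_mem _ g (h1 _))
          (Submodule.smul_mem _ (r' (ρ₀.succAbove ρ) (cols ⟨h, by omega⟩)) (h1 _))
      · intro ρ i
        refine MvPolynomial.IsHomogeneous.sub ?_ ?_
        · rw [hg]
          exact (h2 _ _).mul (h2 _ _)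
        · have h5 := (h2 (ρ₀.succAbove ρ) (cols ⟨h, by omega⟩)).mul (h2 ρ₀ i)
          rwa [add_comm] at h5
      · intro c hc ρ
        have h5 := h3 (ρ₀.insertNth (α := fun _ => MvPolynomial (Fin N) ℂ)
          (-∑ σ, c σ * r' (ρ₀.succAbove σ) (cols ⟨h, by omega⟩)) (fun σ => c σ * g))
          (fun i => by
            rw [Fin.sum_univ_succAbove _ ρ₀]
            simp only [Fin.insertNth_apply_same, Fin.insertNth_apply_succAbove]
            have h6 := hc i
            have h7 : ∑ σ, c σ * (g * r' (ρ₀.succAbove σ) i -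
                r' (ρ₀.succAbove σ) (cols ⟨h, by omega⟩) * r' ρ₀ i) =
                (-∑ σ, c σ * r' (ρ₀.succAbove σ) (cols ⟨h, by omega⟩)) * r' ρ₀ i +
                  ∑ σ, c σ * g * r' (ρ₀.succAbove σ) i := by
              rw [neg_mul, Finset.sum_mul, ← Finset.sum_neg_distrib, ← Finset.sum_add_distrib]
              exact Finset.sum_congr rfl fun σ _ => by ring
            rw [← h7]
            exact h6) (ρ₀.succAbove ρ)
        rw [Fin.insertNth_apply_succAbove] at h5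
        exact (hQ.dvd_or_dvd h5).resolve_right hρ₀
      · intro ρ l hl
        rcases Nat.lt_succ_iff_lt_or_eq.1 hl with h5 | h5
        · exact dvd_sub (Dvd.dvd.mul_left (h4 _ l h5) _) (Dvd.dvd.mul_left (h4 _ l h5) _)
        · have h6 : l = ⟨h, by omega⟩ := Fin.ext h5
          have h7 : g * r' (ρ₀.succAbove ρ) (cols l) -
              r' (ρ₀.succAbove ρ) (cols ⟨h, by omega⟩) * r' ρ₀ (cols l) = 0 := by
            rw [h6, ← hg]
            ring
          show Q ∣ g * r' (ρ₀.succAbove ρ) (cols l) -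
            r' (ρ₀.succAbove ρ) (cols ⟨h, by omega⟩) * r' ρ₀ (cols l)
          rw [h7]
          exact dvd_zero _

/-- ELM (helper29) -/
theorem p_ELM : Stmt_ELM := by
  intro N n a q Q ε r e hQi hr hind
  have hQ : Prime Q := hQi.prime
  obtain ⟨r', e', h1, h2, h3, h4⟩ := ELM_claim N n q Q (fun l => ε (Sum.inr l)) r e hQ hr hind q
    le_rfl 2 (by omega)
  refine ⟨e' 0, e' 1, r' 0, r' 1, h1 0, h1 1, h2 0, h2 1, fun l => h4 0 l l.2,
    fun l => h4 1 l l.2, ?_⟩
  by_contra hcon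
  push Not at hcon
  -- an entry of the first row which is not divisible by `Q`
  have h5 : ∃ i, ¬ Q ∣ r' 0 i := by
    by_contra h6
    push Not at h6
    have h7 := h3 ![1, 0] (fun i => by
      rw [Fin.sum_univ_two]
      simp only [Matrix.cons_val_zero, Matrix.cons_val_one, one_mul, zero_mul, add_zero]
      exact h6 i) 0
    exact hQ.not_isUnit (isUnit_of_dvd_one h7)
  obtain ⟨i₀, hi₀⟩ := h5
  obtain ⟨s, rfl⟩ := ε.surjective i₀
  rcases s with i | l
  · have h7 := h3 ![r' 1 (ε (Sum.inl i)), -r' 0 (ε (Sum.inl i))] (fun i' => by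
      rw [Fin.sum_univ_two]
      simp only [Matrix.cons_val_zero, Matrix.cons_val_one]
      obtain ⟨s, rfl⟩ := ε.surjective i'
      rcases s with j | l
      · have h8 := hcon i j
        have h9 : r' 1 (ε (Sum.inl i)) * r' 0 (ε (Sum.inl j)) +
            -r' 0 (ε (Sum.inl i)) * r' 1 (ε (Sum.inl j)) =
            -(r' 0 (ε (Sum.inl i)) * r' 1 (ε (Sum.inl j)) -
              r' 0 (ε (Sum.inl j)) * r' 1 (ε (Sum.inl i))) := by ring
        rw [h9]
        exact (dvd_neg).2 h8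
      · exact dvd_add (Dvd.dvd.mul_left (h4 0 l l.2) _) (Dvd.dvd.mul_left (h4 1 l l.2) _)) 1
    exact hi₀ ((dvd_neg).1 h7)
  · exact hi₀ (h4 0 l l.2)

end Pool.MPE
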