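import Pool.Agent.Work.MP_f82ddf_E.Interface

/-! # Block ERN: no constant vector is orthogonal to the rows of order zero -/

set_option autoImplicit false

namespace Pool.MPE

open MvPolynomial
open Pool.Agent.Work.MP_f82ddf_M5 (comb Data)

theorem ERN_deg {N n d D : ℕ} {Q : MvPolynomial (Fin N) ℂ}
    {A : Fin (n + 1) → MvPolynomial (Fin N) ℂ} (hD : Data N n d D Q A) : d ≠ 0 := by
  rintro rfl
  have h := hD.hom
  have h1 : Q.totalDegree = 0 := h.totalDegree hD.irr.ne_zero
  rw [MvPolynomial.totalDegree_eq_zero_iff_eq_C] at h1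
  refine hD.irr.not_isUnit ?_
  rw [h1]
  refine IsUnit.map C (isUnit_iff_ne_zero.2 ?_)
  intro h2
  rw [h2, map_zero] at h1
  exact hD.irr.ne_zero h1

theorem p_ERN (hDLL : Stmt_DLL) : Stmt_ERN := by
  intro n w d Q A hD hm y hy
  have hd : d ≠ 0 := ERN_deg hD
  set G : MvPolynomial (Fin (w + 2)) ℂ := ∑ i, C (y i) * A i with hG
  have hGh : G.IsHomogeneous d := by
    refine IsHomogeneous.sum _ _ _ fun i _ => ?_
    have := (isHomogeneous_C (Fin (w + 2)) (y i)).mul (hD.homA i)
    rwa [zero_add] at this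
  have hDG : ∀ l, Q ∣ Dl Q l G := by
    intro l
    have h1 : Dl Q l G = ∑ i, C (y i) * Dl Q l (A i) := by
      rw [hG, map_sum]
      refine Finset.sum_congr rfl fun i _ => ?_
      rw [← smul_eq_C_mul, ← smul_eq_C_mul, Derivation.map_smul]
    rw [h1]
    exact hy l
  have hE : ∀ f : MvPolynomial (Fin (w + 2)) ℂ, f.IsHomogeneous d →
      ∑ l : Fin (w + 1), X l.castSucc * pderiv l.castSucc f =
        C (d : ℂ) * f - X (Fin.last (w + 1)) * pderiv (Fin.last (w + 1)) f := by
    intro f hf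
    have h1 := hf.sum_X_mul_pderiv
    rw [Fin.sum_univ_castSucc] at h1
    have h2 : (d • f : MvPolynomial (Fin (w + 2)) ℂ) = C (d : ℂ) * f := by
      rw [nsmul_eq_mul]
      simp
    rw [h2] at h1
    rw [← h1]
    ring
  have hsum : ∑ l : Fin (w + 1), X l.castSucc * Dl Q l G =
      pderiv (Fin.last (w + 1)) Q * (∑ l : Fin (w + 1), X l.castSucc * pderiv l.castSucc G) -
      pderiv (Fin.last (w + 1)) G * (∑ l : Fin (w + 1), X l.castSucc * pderiv l.castSucc Q) := by
    rw [Finset.mul_sum, Finset.mul_sum, ← Finset.sum_sub_distrib]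
    refine Finset.sum_congr rfl fun l _ => ?_
    rw [(hDLL w Q l).1 G]
    ring
  have hdiv : Q ∣ ∑ l : Fin (w + 1), X l.castSucc * Dl Q l G :=
    Finset.dvd_sum fun l _ => (hDG l).mul_left _
  rw [hsum, hE G hGh, hE Q hD.hom] at hdiv
  have hdiv2 : Q ∣ C (d : ℂ) * G * pderiv (Fin.last (w + 1)) Q := by
    have h1 : C (d : ℂ) * G * pderiv (Fin.last (w + 1)) Q =
        (pderiv (Fin.last (w + 1)) Q * (C (d : ℂ) * G -
          X (Fin.last (w + 1)) * pderiv (Fin.last (w + 1)) G) -
        pderiv (Fin.last (w + 1)) G * (C (d : ℂ) * Q -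
          X (Fin.last (w + 1)) * pderiv (Fin.last (w + 1)) Q)) +
        Q * (pderiv (Fin.last (w + 1)) G * C (d : ℂ)) := by ring
    rw [h1]
    exact dvd_add hdiv (dvd_mul_right _ _)
  have hp : Prime Q := hD.irr.prime
  rcases hp.dvd_or_dvd hdiv2 with h1 | h1
  · rcases hp.dvd_or_dvd h1 with h2 | h2
    · exfalso
      refine hD.irr.not_isUnit (isUnit_of_dvd_unit h2 ?_)
      exact IsUnit.map C (isUnit_iff_ne_zero.2 (Nat.cast_ne_zero.2 hd))
    · refine hD.nd y ?_
      have h3 : comb (RingHom.id ℂ) A y = G := by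
        simp only [comb, map_id, hG]
      rw [h3]
      exact h2
  · exact absurd h1 hm

end Pool.MPE
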