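import Pool.Agent.Work.MP_f82ddf_E.Interface
import Pool.Agent.Work.MP_f82ddf_U.B_FNU

set_option autoImplicit false

/-! # THEOREM E (MP_f82ddf_nt), block FE1 (helper79) -/

open Pool.Agent.Work.MP_f82ddf_nt.DQ

namespace Pool.MPE

open MvPolynomial
open Pool.Agent.Work.MP_f82ddf_nt (PSpace HolomorphicOn complexPoints KobayashiHyperbolic
  exists_entire_curve not_kobayashi)
open Pool.ThmP (Mor OnX OnK tm)
open Pool.MPV (Full)
open Pool.MPL (FNU_countable FNU_G FNU_G_hom FNU_G_eval FNU_mono NC)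
open Pool.MPW (ExcW)
open Pool.MPH (InFibre)

/-- The equations at the meromorphic point give the equations at all the points of the curve. -/
theorem FE1_exc (h2 : Pool.ThmM0.Stmt_MREL) {K Ω : Type} [Field K] [Field Ω] [Algebra K Ω]
    {m n a : ℕ} {S : Set (MvPolynomial (Fin (m + 1)) K)} (g : Mor K Ω m n S)
    (D : (Fin (a + 1) ↪ Fin (n + 1)) → MvPolynomial (Fin (a + 1)) Ω)
    (hD0 : ∀ σ, D σ ≠ 0 ∧ ∃ e, (D σ).IsHomogeneous e) (τ : Ω →+* ℂ) (f : ℂ → PSpace ℂ m)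
    (hf : HolomorphicOn f Set.univ) (hfX : ∀ z, f z ∈ complexPoints S (τ.comp (algebraMap K Ω)))
    (φ : Fin (m + 1) → ℂ → ℂ) (hφ : ∀ j z, MeromorphicAt (φ j) z)
    (hrep : ∀ z₀, ∀ᶠ z in nhdsWithin z₀ {z₀}ᶜ, ∃ c : ℂ, c ≠ 0 ∧ ∀ j, (f z).rep j = c * φ j z)
    (h4 : ∀ s ∈ g.tuples, ∀ σ, eval₂ (tm τ)
      (fun i => eval₂ (tm τ) (fun j => Mer.mk (φ j) (hφ j)) (s (σ i))) (D σ) = 0) :
    ∀ z, f z ∈ ExcW g D τ := by
  intro z
  refine ⟨hfX z, fun s hs σ => ?_⟩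
  obtain ⟨b, hb⟩ := g.homogeneous s hs
  obtain ⟨-, e, he⟩ := hD0 σ
  have h5 : aeval (fun i => Mer.mk (φ (id i)) (hφ (id i)))
      (FNU_G τ (fun i => s (σ i)) (D σ)) = 0 := by
    rw [aeval_def, FNU_G_eval]
    exact h4 s hs σ
  have h6 := h2 m f φ hφ hf hrep (m + 1) (b * e) id (FNU_G τ (fun i => s (σ i)) (D σ))
    (FNU_G_hom τ (fun i => s (σ i)) (D σ) (fun i => hb (σ i)) he) h5 z
  have h7 : eval (fun i => (f z).rep (id i)) (FNU_G τ (fun i => s (σ i)) (D σ)) =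
      eval₂ (RingHom.id ℂ) (f z).rep (FNU_G τ (fun i => s (σ i)) (D σ)) := rfl
  rw [h7, FNU_G_eval, RingHom.id_comp] at h6
  exact h6

/-- The case of a constant image: the curve is in a fibre. -/
theorem FE1_fib (h2 : Pool.ThmM0.Stmt_MREL) {K Ω : Type} [Field K] [Field Ω] [Algebra K Ω]
    {m n : ℕ} {S : Set (MvPolynomial (Fin (m + 1)) K)} (g : Mor K Ω m n S) (τ : Ω →+* ℂ)
    (f : ℂ → PSpace ℂ m) (hf : HolomorphicOn f Set.univ)
    (φ : Fin (m + 1) → ℂ → ℂ) (hφ : ∀ j z, MeromorphicAt (φ j) z)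
    (hrep : ∀ z₀, ∀ᶠ z in nhdsWithin z₀ {z₀}ᶜ, ∃ c : ℂ, c ≠ 0 ∧ ∀ j, (f z).rep j = c * φ j z)
    (s₀ : Fin (n + 1) → MvPolynomial (Fin (m + 1)) Ω) (c₀ : Fin (n + 1))
    (hc₀ : eval₂ (tm τ) (fun j => Mer.mk (φ j) (hφ j)) (s₀ c₀) ≠ 0)
    (hM : ∀ s ∈ g.tuples, ∀ c c',
      eval₂ (tm τ) (fun j => Mer.mk (φ j) (hφ j)) (s c) *
        eval₂ (tm τ) (fun j => Mer.mk (φ j) (hφ j)) (s₀ c') =
      eval₂ (tm τ) (fun j => Mer.mk (φ j) (hφ j)) (s c') *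
        eval₂ (tm τ) (fun j => Mer.mk (φ j) (hφ j)) (s₀ c))
    (hNC : ¬ NC (fun c => eval₂ (tm τ) (fun j => Mer.mk (φ j) (hφ j)) (s₀ c))) :
    InFibre g τ f := by
  obtain ⟨x, hxdef⟩ : ∃ x : Fin (m + 1) → Mer, x = fun j => Mer.mk (φ j) (hφ j) := ⟨_, rfl⟩
  rw [← hxdef] at hc₀ hM hNC
  have hconst : ∀ d, ∃ a : ℂ,
      eval₂ (tm τ) x (s₀ d) = algebraMap ℂ Mer a * eval₂ (tm τ) x (s₀ c₀) := by
    intro d
    by_contra hcon
    push Not at hcon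
    exact hNC ⟨c₀, d, hc₀, hcon⟩
  choose a ha using hconst
  have ha0 : a c₀ ≠ 0 := by
    intro h
    apply hc₀
    rw [ha c₀, h, map_zero, zero_mul]
  have hsc : ∀ s ∈ g.tuples, ∀ d, eval₂ (tm τ) x (s d)
      = eval₂ (tm τ) x (s c₀) / eval₂ (tm τ) x (s₀ c₀) * eval₂ (tm τ) x (s₀ d) := by
    intro s hs d
    have h4 := hM s hs d c₀
    rw [div_mul_eq_mul_div, eq_div_iff hc₀]
    exact h4
  refine ⟨a, fun h => ha0 (congrFun h c₀), ?_⟩
  intro z s hs d d'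
  obtain ⟨es, hes⟩ := g.homogeneous s hs
  have hmap : ∀ l, eval₂ (algebraMap ℂ Mer) x (map τ (s l)) = eval₂ (tm τ) x (s l) := by
    intro l
    rw [eval₂_map]
    rfl
  have hvan : aeval x (map τ (s d) * C (a d') - map τ (s d') * C (a d)) = 0 := by
    rw [aeval_def, eval₂_sub, eval₂_mul, eval₂_mul, eval₂_C, eval₂_C, hmap, hmap,
      hsc s hs d, hsc s hs d']
    rw [ha d, ha d']
    ring
  rw [hxdef] at hvan
  have hhom : (map τ (s d) * C (a d') - map τ (s d') * C (a d)).IsHomogeneous es := by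
    have h3 := ((hes d).map τ).mul (isHomogeneous_C (Fin (m + 1)) (a d'))
    have h4 := ((hes d').map τ).mul (isHomogeneous_C (Fin (m + 1)) (a d))
    exact h3.sub h4
  have h5 := h2 m f φ hφ hf hrep (m + 1) es id _ hhom hvan z
  rw [map_sub, map_mul, map_mul, eval_C, eval_C, eval_map, eval_map, sub_eq_zero] at h5
  exact h5

/-- FE1 -/
theorem p_FE1 (h1 : Stmt_MPE) (hNCI : Stmt_NCI) (h2 : Pool.ThmM0.Stmt_MREL)
    (hMPT : Pool.ThmP.Stmt_MPT) : Stmt_FE1 := by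
  intro n c B hn
  obtain ⟨N₀, δ, hN⟩ := h1 n c B hn
  refine ⟨N₀, δ, fun N hNN K _ _ l hl w₀ k a q hk ha hwk hna hnod => ?_⟩
  have : Countable (AlgebraicClosure K) := FNU_countable K
  obtain ⟨D, hD0, hD⟩ := hN (AlgebraicClosure K) N l hNN hl w₀ k a q hk ha hwk hna hnod
  refine ⟨D, hD0, fun m S hS g hdiv τ => ?_⟩
  set ι : K →+* ℂ := τ.comp (algebraMap K (AlgebraicClosure K)) with hι
  refine ⟨?_, fun hfin => ?_⟩
  · -- all entire curves
    intro f hf hfX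
    obtain ⟨φ, hφ, i₀, hi₀, hFx, hrep, -⟩ := exists_mer_of_curve hS ι f hf hfX
    have hx' : OnK (tm τ) S (fun j => Mer.mk (φ j) (hφ j)) := by
      intro F hF
      have h6 : (tm τ).comp (algebraMap K (AlgebraicClosure K)) = (algebraMap ℂ Mer).comp ι := by
        rw [tm, RingHom.comp_assoc, hι]
      rw [h6]
      exact hFx F hF
    have hx0 : (fun j => Mer.mk (φ j) (hφ j)) ≠ 0 := by
      intro h
      have h3 : (fun j => Mer.mk (φ j) (hφ j)) i₀ = 1 := hi₀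
      rw [h] at h3
      exact zero_ne_one h3
    have hM := hMPT K (AlgebraicClosure K) Mer m n S g (tm τ) (fun j => Mer.mk (φ j) (hφ j)) hx'
    obtain ⟨s₀, hs₀, c₀, hc₀⟩ := hM.1 hx0
    by_cases hNC : NC (fun c => eval₂ (tm τ) (fun j => Mer.mk (φ j) (hφ j)) (s₀ c))
    · left
      exact FE1_exc h2 g D hD0 τ f hf hfX φ hφ hrep
        (hD K m S hS g hdiv τ (fun j => Mer.mk (φ j) (hφ j)) hx' ⟨s₀, hs₀, hNC⟩)
    · right
      exact FE1_fib h2 g τ f hf φ hφ hrep s₀ c₀ hc₀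
        (fun s hs c c' => hM.2 s hs s₀ hs₀ c c') hNC
  · have hcurve : ∀ f : ℂ → PSpace ℂ m, HolomorphicOn f Set.univ →
        (∀ z, f z ∈ complexPoints S ι) → (∃ a b, f a ≠ f b) → ∀ z, f z ∈ ExcW g D τ := by
      intro f hf hfX hab
      obtain ⟨φ, hφ, i₀, hi₀, hF, hrep, hcon⟩ := exists_mer_of_curve hS ι f hf hfX
      obtain ⟨j, hj⟩ := hcon hab
      have hon : OnK (tm τ) S (fun j => Mer.mk (φ j) (hφ j)) := by
        intro F hFS
        have h3 : (tm τ).comp (algebraMap K (AlgebraicClosure K)) = (algebraMap ℂ Mer).comp ι := by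
          rw [tm, RingHom.comp_assoc, hι]
        rw [h3]
        exact hF F hFS
      have hnc := hNCI K (AlgebraicClosure K) m n S g hS hfin τ
        (fun j => Mer.mk (φ j) (hφ j)) hon
        ⟨i₀, j, by rw [hi₀]; exact one_ne_zero, fun a => by rw [hi₀, mul_one]; exact hj a⟩
      exact FE1_exc h2 g D hD0 τ f hf hfX φ hφ hrep
        (hD K m S hS g hdiv τ (fun j => Mer.mk (φ j) (hφ j)) hon hnc)
    refine ⟨hcurve, fun hX => ?_, fun hZ => ?_⟩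
    · exact FNU_mono (fun p hp => hp.1) hX
    · by_contra hX
      obtain ⟨f, hf, hfX, a, b, hab⟩ := exists_entire_curve hS ι hX
      exact not_kobayashi f hf (hcurve f hf hfX ⟨a, b, hab⟩) a b hab hZ

end Pool.MPE
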