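import Pool.Agent.Work.MP_f82ddf_E.Interface
import Pool.Agent.Work.MP_f82ddf_W.B_FW2

/-!
# Theorem E, block FE2
-/

set_option autoImplicit false

open Pool.Agent.Work.MP_f82ddf_nt.DQ

namespace Pool.MPE

/-- FE2 -/
theorem p_FE2 (h1 : Stmt_DIE) (h2 : Pool.ThmM0.Stmt_IMG) (h3 : Pool.ThmM0.Stmt_PAI)
    (h4 : Pool.MCL.stmt_P6C) (h5 : Pool.ThmM0.Stmt_DHO) : Stmt_FE2 := by
  intro n c κ hn
  obtain ⟨N₀, δ, hN⟩ := h1 n c κ hn
  refine ⟨N₀, δ, fun N hNN K _ _ l hc w₀ k a q hk ha hwk hnq hno m S hS g hfin hfull => ?_⟩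
  have hdim : Pool.ThmM0.DimMer S (a - 1) :=
    hN N hNN K l hc w₀ k a q hk ha hwk hnq hno m S hS g hfin hfull
  refine ⟨fun σ f hf hfS => h2 K m (a - 1) S hS hdim σ f hf hfS, fun ha1 σ => ?_, fun ha2 => ?_⟩
  · subst ha1
    exact Pool.MPW.FW2_hyp h5 S hS hdim σ
  · have hle : a - 1 ≤ 1 := by omega
    refine h4 K m S hS ?_
    intro σ x i hi hF
    exact h3 K m (a - 1) S hle hdim σ x i hi hF

end Pool.MPE
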