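import Pool.Agent.Work.MP_f82ddf_E.Optimal
import Mathlib.Algebra.Polynomial.RuleOfSigns

set_option autoImplicit false

/-! # THEOREM E (MP_f82ddf_nt), block FEW (helper75) -/

namespace Pool.MPE

open Polynomial in
theorem FEW_sv : ∀ (n : ℕ) (P : ℚ[X]), P.support.card = n + 1 → P.signVariations ≤ n := by
  intro n
  induction n with
  | zero =>
    intro P hP
    have h1 : P.eraseLead.support.card = 0 := card_support_eraseLead' hP
    have h2 : P.eraseLead = 0 := by
      rw [← support_eq_empty]
      exact Finset.card_eq_zero.mp h1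
    have h3 := P.eraseLead_add_monomial_natDegree_leadingCoeff
    rw [h2, zero_add] at h3
    rw [← h3, signVariations_monomial]
  | succ n ih =>
    intro P hP
    have h1 : P.eraseLead.support.card = n + 1 := card_support_eraseLead' hP
    have h2 := ih _ h1
    have h3 := P.signVariations_le_eraseLead_succ
    omega

open Polynomial in
theorem FEW_rat (M : ℕ) (e a : Fin M → ℕ) (y : Fin M → ℚ) (he : Function.Injective e)
    (ha : Function.Injective a) (ha0 : ∀ j, 0 < a j)
    (h : ∀ j, ∑ i, y i * (a j : ℚ) ^ e i = 0) : y = 0 := by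
  obtain ⟨P, hP⟩ : ∃ P : ℚ[X], P = ∑ i, monomial (e i) (y i) := ⟨_, rfl⟩
  have hcoef : ∀ n, P.coeff n = ∑ i, if e i = n then y i else 0 := by
    intro n
    rw [hP, finsetSum_coeff]
    exact Finset.sum_congr rfl (fun i _ => coeff_monomial)
  have hsup : P.support.card ≤ M := by
    have h1 : P.support ⊆ Finset.univ.image e := by
      intro n hn
      rw [mem_support_iff, hcoef] at hn
      by_contra hc
      refine hn (Finset.sum_eq_zero (fun i _ => ?_))
      rw [if_neg]
      intro hi
      exact hc (Finset.mem_image.mpr ⟨i, Finset.mem_univ _, hi⟩)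
    calc P.support.card ≤ (Finset.univ.image e).card := Finset.card_le_card h1
      _ ≤ (Finset.univ : Finset (Fin M)).card := Finset.card_image_le
      _ = M := by simp
  by_cases hP0 : P = 0
  · funext i
    have h1 := hcoef (e i)
    rw [hP0, coeff_zero, Finset.sum_eq_single i] at h1
    · rw [if_pos rfl] at h1
      exact h1.symm
    · intro b _ hb
      rw [if_neg]
      intro hbi
      exact hb (he hbi)
    · intro hi
      exact absurd (Finset.mem_univ i) hi
  · exfalso
    have hpos : P.support.card ≠ 0 := by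
      intro h0
      exact hP0 (support_eq_empty.mp (Finset.card_eq_zero.mp h0))
    obtain ⟨n, hn⟩ : ∃ n, P.support.card = n + 1 := Nat.exists_eq_succ_of_ne_zero hpos
    have h1 : P.signVariations ≤ n := FEW_sv n P hn
    have h2 : P.roots.countP (0 < ·) ≤ P.signVariations :=
      roots_countP_pos_le_signVariations P
    have hinj : Function.Injective (fun j => (a j : ℚ)) := fun i j hij =>
      ha (Nat.cast_injective hij)
    have h3 : (Finset.univ.image (fun j => (a j : ℚ))).val ≤ P.roots := by
      rw [Multiset.le_iff_subset (Finset.nodup _)]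
      intro x hx
      have hx' : x ∈ Finset.univ.image (fun j => (a j : ℚ)) := hx
      obtain ⟨j, _, rfl⟩ := Finset.mem_image.mp hx'
      rw [mem_roots hP0, IsRoot.def, hP, eval_finsetSum]
      rw [← h j]
      exact Finset.sum_congr rfl (fun i _ => eval_monomial)
    have h4 : (Finset.univ.image (fun j => (a j : ℚ))).val.countP (0 < ·) = M := by
      rw [Multiset.countP_eq_card.mpr]
      · rw [← Finset.card_def, Finset.card_image_of_injective _ hinj]
        simp
      · intro x hx
        have hx' : x ∈ Finset.univ.image (fun j => (a j : ℚ)) := hx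
        obtain ⟨j, _, rfl⟩ := Finset.mem_image.mp hx'
        exact_mod_cast ha0 j
    have h5 := Multiset.countP_le_of_le (0 < ·) h3
    omega

theorem p_FEW : Stmt_FEW := by
  intro Ω _ _ M e a y he ha ha0 h
  obtain ⟨A, hA⟩ : ∃ A : Matrix (Fin M) (Fin M) ℚ, ∀ j i, A j i = (a j : ℚ) ^ e i :=
    ⟨fun j i => (a j : ℚ) ^ e i, fun _ _ => rfl⟩
  have hdet : A.det ≠ 0 := by
    intro h0
    obtain ⟨v, hv, hv0⟩ := Matrix.exists_mulVec_eq_zero_iff.mpr h0
    refine hv (FEW_rat M e a v he ha ha0 (fun j => ?_))
    have h1 := congrFun hv0 j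
    rw [Matrix.mulVec, dotProduct] at h1
    rw [Pi.zero_apply] at h1
    rw [← h1]
    exact Finset.sum_congr rfl (fun i _ => by rw [hA, mul_comm])
  have hdet2 : ((Rat.castHom Ω).mapMatrix A).det ≠ 0 := by
    rw [← RingHom.map_det]
    intro h0
    exact hdet ((map_eq_zero _).mp h0)
  refine Matrix.eq_zero_of_mulVec_eq_zero hdet2 ?_
  funext j
  rw [Matrix.mulVec, dotProduct, Pi.zero_apply, ← h j]
  refine Finset.sum_congr rfl (fun i _ => ?_)
  rw [RingHom.mapMatrix_apply, Matrix.map_apply, hA, mul_comm]
  simp

end Pool.MPE
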