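import Pool.Agent.Work.MP_f82ddf_E.Interface

set_option autoImplicit false

/-! # THEOREM E, block GPV: the generic point of a component -/

open Pool.Agent.Work.MP_f82ddf_nt.DQ

namespace Pool.MPE

open MvPolynomial
open Pool.Agent.Work.MP_f82ddf_M5 (lineAt resAt chow at2 comb Data GoodDer)
open Pool.ThmM.Chow (PluF)
open Pool.MPW (pv)

/-- GPV -/
theorem p_GPV (hGPA : Pool.MPW.Stmt_GPA) (hGPB : Pool.MPW.Stmt_GPB) (hGPC : Pool.MPW.Stmt_GPC)
    (hCHP : Pool.ThmM.Chow.Stmt_CHP) (hPFA : Pool.ThmM.Chow.Stmt_PFA)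
    (hABS : Pool.MPW.Stmt_ABS) : Stmt_GPV := by
  intro M _ _ w d D Q G P hQi hQh hGh hQG hchow hP hmov hdvd
  have : CharZero M := charZero_of_injective_algebraMap (algebraMap ℂ M).injective
  have h1 : Irreducible (map (algebraMap ℂ M) Q) := hABS M _ Q hQi
  have h2 : (map (algebraMap ℂ M) Q).IsHomogeneous d := hQh.map _
  have h6 : PluF (d * D) (chow d D (map (algebraMap ℂ M) Q) G) := hCHP _ _ _ M _ _ h2 hGh
  obtain ⟨ρ, hρ⟩ : ∃ ρ, PluF ρ P := by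
    obtain ⟨H, hH⟩ := hdvd
    rw [hH] at hchow h6
    obtain ⟨ρ, _, hρ⟩ := hPFA _ _ M P H hchow h6
    exact ⟨ρ, hρ⟩
  obtain ⟨F, _, _, b, s, hgen, hQ, hG, hsm⟩ := hGPA M (w + 2) d D Q _ P hQi
    hQh hGh hP hmov hdvd
  obtain ⟨u, hu⟩ := hGPB M F w _ _ (pv b s) h1 hQG hQ hG
  have hvan := hGPC M F w ρ P b s u hP hρ hgen hu
  refine ⟨F, inferInstance, inferInstance, b, s, hgen, hQ, hG, ?_, hvan⟩
  by_contra hcon
  push Not at hcon
  apply hsm
  refine Finset.sum_eq_zero fun j _ => ?_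
  rw [hcon j, mul_zero]

end Pool.MPE
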