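import Pool.Agent.Work.MP_f82ddf_E.Interface
import Mathlib.RingTheory.MvPolynomial.EulerIdentity

set_option autoImplicit false

/-! # THEOREM E (MP_f82ddf_nt), block JAC (helper75) -/

namespace Pool.MPE

open MvPolynomial
open Pool.Agent.Work.MP_f82ddf_M5 (Data)

theorem JAC_sum {N : ℕ} {ι : Type} (s : Finset ι) (a : ι → MvPolynomial (Fin N) ℂ)
    (E : ι → Derivation ℂ (MvPolynomial (Fin N) ℂ) (MvPolynomial (Fin N) ℂ)) :
    ∃ D : Derivation ℂ (MvPolynomial (Fin N) ℂ) (MvPolynomial (Fin N) ℂ),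
      ∀ g, D g = ∑ i ∈ s, a i * E i g := by
  classical
  induction s using Finset.induction_on with
  | empty => exact ⟨0, fun g => by rw [Finset.sum_empty]; rfl⟩
  | insert i s hi ih =>
    obtain ⟨D, hD⟩ := ih
    refine ⟨a i • E i + D, fun g => ?_⟩
    rw [Finset.sum_insert hi, Derivation.add_apply, Derivation.smul_apply, hD, smul_eq_mul]

theorem JAC_der {N : ℕ} (D : Derivation ℂ (MvPolynomial (Fin N) ℂ) (MvPolynomial (Fin N) ℂ))
    (g : MvPolynomial (Fin N) ℂ) : D g = ∑ i, pderiv i g * D (X i) := by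
  obtain ⟨D', hD'⟩ := JAC_sum (Finset.univ : Finset (Fin N)) (fun i => D (X i))
    (fun i => pderiv i)
  have h1 : D = D' := by
    apply derivation_ext
    intro j
    rw [hD', Finset.sum_eq_single j]
    · rw [pderiv_X_self, mul_one]
    · intro i _ hij
      rw [pderiv_X_of_ne hij.symm, mul_zero]
    · intro hj
      exact absurd (Finset.mem_univ j) hj
  calc D g = D' g := by rw [h1]
    _ = ∑ i, D (X i) * pderiv i g := hD' g
    _ = ∑ i, pderiv i g * D (X i) := Finset.sum_congr rfl (fun i _ => mul_comm _ _)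

theorem p_JAC (hDLL : Stmt_DLL) : Stmt_JAC := by
  intro n w d Q A L hD hm hI f hf
  obtain ⟨hL, hLX, i₀, hi₀⟩ := hI
  have hQp : Prime Q := hD.irr.prime
  obtain ⟨Δ, hΔ⟩ := JAC_sum (Finset.univ : Finset (Fin (w + 1))) f (fun l => Dl Q l)
  have hΔQ : Δ Q = 0 := by
    rw [hΔ]
    exact Finset.sum_eq_zero (fun l _ => by rw [(hDLL w Q l).2.1, mul_zero])
  have hΔd : ∀ g, Q ∣ g → Q ∣ Δ g := by
    rintro g ⟨c, rfl⟩
    rw [Derivation.leibniz, hΔQ, smul_zero, add_zero, smul_eq_mul]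
    exact dvd_mul_right _ _
  have hΔA : ∀ i, Q ∣ Δ (A i) := by
    intro i
    rw [hΔ]
    exact hf i
  have hΔL : ∀ j, Q ∣ Δ (L j) := by
    intro j
    obtain ⟨c, hc⟩ := hL j
    have h1 : Δ (L j) = ∑ i, C (c i) * Δ (A i) := by
      rw [hc, map_sum]
      refine Finset.sum_congr rfl (fun i _ => ?_)
      rw [← smul_eq_C_mul, ← smul_eq_C_mul, Derivation.map_smul]
    rw [h1]
    exact Finset.dvd_sum (fun i _ => (hΔA i).mul_left _)
  have h1 : ∀ i j, Q ∣ L j * Δ (X i) - L i * Δ (X j) := by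
    intro i j
    have h2 := hΔd _ (hLX i j)
    rw [map_sub, Derivation.leibniz, Derivation.leibniz] at h2
    simp only [smul_eq_mul] at h2
    have h3 : Q ∣ X i * Δ (L j) - X j * Δ (L i) :=
      dvd_sub ((hΔL j).mul_left _) ((hΔL i).mul_left _)
    have h4 := dvd_sub h2 h3
    have h5 : L j * Δ (X i) + X i * Δ (L j) - (L i * Δ (X j) + X j * Δ (L i)) -
        (X i * Δ (L j) - X j * Δ (L i)) = L j * Δ (X i) - L i * Δ (X j) := by ring
    rwa [h5] at h4
  have hstar : ∀ j, Q ∣ X i₀ * Δ (X j) - X j * Δ (X i₀) := by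
    intro j
    have h2 : Q ∣ L i₀ * (X i₀ * Δ (X j) - X j * Δ (X i₀)) := by
      have h3 : L i₀ * (X i₀ * Δ (X j) - X j * Δ (X i₀)) =
          Δ (X i₀) * (L j * X i₀ - L i₀ * X j) -
            X i₀ * (L j * Δ (X i₀) - L i₀ * Δ (X j)) := by ring
      rw [h3]
      exact dvd_sub ((hLX i₀ j).mul_left _) ((h1 i₀ j).mul_left _)
    exact (hQp.dvd_or_dvd h2).resolve_left hi₀
  have hEul : ∀ i, Q ∣ C (d : ℂ) * A i * Δ (X i₀) := by
    intro i
    have h2 := (hD.homA i).sum_X_mul_pderiv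
    have h3 : X i₀ * Δ (A i) - C (d : ℂ) * A i * Δ (X i₀) =
        ∑ j, pderiv j (A i) * (X i₀ * Δ (X j) - X j * Δ (X i₀)) := by
      have h4 : C (d : ℂ) * A i = ∑ j, X j * pderiv j (A i) := by
        rw [h2, nsmul_eq_mul]
        simp
      rw [h4, JAC_der Δ (A i), Finset.mul_sum, Finset.sum_mul, ← Finset.sum_sub_distrib]
      exact Finset.sum_congr rfl (fun j _ => by ring)
    have h5 : Q ∣ X i₀ * Δ (A i) - C (d : ℂ) * A i * Δ (X i₀) := by
      rw [h3]
      exact Finset.dvd_sum (fun j _ => (hstar j).mul_left _)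
    have h6 := dvd_sub ((hΔA i).mul_left (X i₀)) h5
    rwa [sub_sub_cancel] at h6
  have hd : d ≠ 0 := by
    intro h0
    have h2 : Q.totalDegree = 0 := by
      have h3 := hD.hom.totalDegree hD.irr.ne_zero
      rw [h3, h0]
    rw [totalDegree_eq_zero_iff_eq_C] at h2
    have h3 : Q.coeff 0 ≠ 0 := by
      intro h4
      rw [h4, C_0] at h2
      exact hD.irr.ne_zero h2
    refine hD.irr.not_isUnit ?_
    rw [h2]
    exact (isUnit_iff_ne_zero.mpr h3).map C
  have hCd : ¬ Q ∣ C (d : ℂ) := by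
    intro h2
    exact hD.irr.not_isUnit (isUnit_of_dvd_unit h2
      ((isUnit_iff_ne_zero.mpr (Nat.cast_ne_zero.mpr hd)).map C))
  have hAi : ∃ i, ¬ Q ∣ A i := by
    by_contra hc
    have hc' : ∀ i, Q ∣ A i := by
      intro i
      by_contra h2
      exact hc ⟨i, h2⟩
    obtain ⟨c, hc⟩ := hL i₀
    refine hi₀ ?_
    rw [hc]
    exact Finset.dvd_sum (fun i _ => (hc' i).mul_left _)
  obtain ⟨i₁, hi₁⟩ := hAi
  have hX0 : Q ∣ Δ (X i₀) := by
    rcases hQp.dvd_or_dvd (hEul i₁) with h2 | h2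
    · rcases hQp.dvd_or_dvd h2 with h3 | h3
      · exact absurd h3 hCd
      · exact absurd h3 hi₁
    · exact h2
  have hXi : ¬ Q ∣ (X i₀ : MvPolynomial (Fin (w + 2)) ℂ) := by
    intro h2
    have h3 : ∀ j, Q ∣ (X j : MvPolynomial (Fin (w + 2)) ℂ) := by
      intro j
      have h4 : Q ∣ L i₀ * X j := by
        have h5 := dvd_sub (h2.mul_left (L j)) (hLX i₀ j)
        rwa [sub_sub_cancel] at h5
      exact (hQp.dvd_or_dvd h4).resolve_left hi₀
    have h4 : (X 0 : MvPolynomial (Fin (w + 2)) ℂ) ∣ Q := by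
      have h5 : Irreducible (X 0 : MvPolynomial (Fin (w + 2)) ℂ) :=
        (MvPolynomial.X_prime).irreducible
      exact (h5.dvd_iff.mp (h3 0)).resolve_left hD.irr.not_isUnit |>.dvd
    have h5 := h4.trans (h3 1)
    rw [X_dvd_X] at h5
    exact absurd h5 (by simp)
  intro l
  have h2 : Q ∣ Δ (X l.castSucc) := by
    have h3 := dvd_add (hstar l.castSucc) (hX0.mul_left (X l.castSucc))
    rw [sub_add_cancel] at h3
    exact (hQp.dvd_or_dvd h3).resolve_left hXi
  have h3 : Δ (X l.castSucc) = f l * pderiv (Fin.last (w + 1)) Q := by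
    rw [hΔ, Finset.sum_eq_single l]
    · rw [(hDLL w Q l).2.2.2 l, if_pos rfl]
    · intro l' _ hl'
      rw [(hDLL w Q l').2.2.2 l, if_neg (fun hc => hl' hc.symm), mul_zero]
    · intro hl
      exact absurd (Finset.mem_univ l) hl
  rw [h3] at h2
  exact (hQp.dvd_or_dvd h2).resolve_right hm

end Pool.MPE
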