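import Pool.Agent.Work.MP_f82ddf_E.Optimal
import Pool.Agent.Work.MP_f82ddf_M0.B_FMN

set_option autoImplicit false

/-! # Block LFD (helper54): linear forms without common zero on a closed set -/

namespace Pool.MPE

open MvPolynomial
open Pool.ThmM0 (FMN.deg_eq FMN.form_mem)

attribute [local instance] MvPolynomial.gradedAlgebra

theorem LFD_pow_mem {Ω : Type} [Field Ω] [IsAlgClosed Ω] {m w : ℕ}
    (S : Set (MvPolynomial (Fin (m + 1)) Ω)) (s : Fin w → MvPolynomial (Fin (m + 1)) Ω)
    (hz : ∀ v : Fin (m + 1) → Ω, (∀ F ∈ S, eval v F = 0) → (∀ j, eval v (s j) = 0) → v = 0) :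
    ∃ t : ℕ, ∀ i, (X i : MvPolynomial (Fin (m + 1)) Ω) ^ t ∈
      Ideal.span S ⊔ Ideal.span (Set.range s) := by
  have h0 : ∀ i, ∃ t : ℕ, (X i : MvPolynomial (Fin (m + 1)) Ω) ^ t ∈
      Ideal.span S ⊔ Ideal.span (Set.range s) := by
    intro i
    have h1 : (X i : MvPolynomial (Fin (m + 1)) Ω) ∈ vanishingIdeal Ω
        (zeroLocus Ω (Ideal.span S ⊔ Ideal.span (Set.range s))) := by
      intro v hv
      have h2 : v = 0 := hz v
        (fun F hF => hv F (Ideal.mem_sup_left (Ideal.subset_span hF)))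
        (fun j => hv _ (Ideal.mem_sup_right (Ideal.subset_span ⟨j, rfl⟩)))
      rw [aeval_X, h2]
      rfl
    rw [vanishingIdeal_zeroLocus_eq_radical] at h1
    exact h1
  choose t ht using h0
  refine ⟨∑ i, t i, fun i => ?_⟩
  obtain ⟨c, hc⟩ := Nat.exists_eq_add_of_le
    (Finset.single_le_sum (fun j _ => Nat.zero_le (t j)) (Finset.mem_univ i) : t i ≤ ∑ j, t j)
  rw [hc, pow_add]
  exact Ideal.mul_mem_right _ _ (ht i)

theorem LFD_decomp {Ω F : Type} [Field Ω] [Field F] [Algebra Ω F] {m w : ℕ}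
    (S : Set (MvPolynomial (Fin (m + 1)) Ω))
    (s : Fin w → MvPolynomial (Fin (m + 1)) Ω) (hS : ∀ F ∈ S, ∃ d, F.IsHomogeneous d)
    (hs : ∀ j, (s j).IsHomogeneous 1)
    (p : MvPolynomial (Fin (m + 1)) Ω) (T : ℕ) (hp : p.IsHomogeneous T) (hT : 1 ≤ T)
    (hpI : p ∈ Ideal.span S ⊔ Ideal.span (Set.range s)) (v : Fin (m + 1) → F)
    (hv : ∀ G ∈ S, aeval v G = 0) :
    ∃ g : Fin w → MvPolynomial (Fin (m + 1)) Ω, (∀ j, (g j).IsHomogeneous (T - 1)) ∧
        aeval v p = ∑ j, aeval v (g j) * aeval v (s j) := by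
  obtain ⟨a, ha, b, hb, hab⟩ := Submodule.mem_sup.1 hpI
  obtain ⟨g, hg⟩ := Ideal.mem_span_range_iff_exists_fun.1 hb
  have hI := Ideal.homogeneous_span (homogeneousSubmodule (Fin (m + 1)) Ω) S
    (fun F hF => by
      obtain ⟨d, hd⟩ := hS F hF
      exact ⟨d, hd⟩)
  have h1 : ((DirectSum.decompose (homogeneousSubmodule (Fin (m + 1)) Ω) a T :
      homogeneousSubmodule (Fin (m + 1)) Ω T) : MvPolynomial (Fin (m + 1)) Ω) ∈ Ideal.span S :=
    hI T ha
  have h2 : ((DirectSum.decompose (homogeneousSubmodule (Fin (m + 1)) Ω) p T :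
      homogeneousSubmodule (Fin (m + 1)) Ω T) : MvPolynomial (Fin (m + 1)) Ω) = p :=
    DirectSum.decompose_of_mem_same _ hp
  refine ⟨fun j => (DirectSum.decompose (homogeneousSubmodule (Fin (m + 1)) Ω) (g j) (T - 1) :
      homogeneousSubmodule (Fin (m + 1)) Ω (T - 1)), fun j => (mem_homogeneousSubmodule _ _).1
        (SetLike.coe_mem (DirectSum.decompose (homogeneousSubmodule (Fin (m + 1)) Ω)
          (g j) (T - 1))), ?_⟩
  have h3 : aeval v ((DirectSum.decompose (homogeneousSubmodule (Fin (m + 1)) Ω) a T :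
      homogeneousSubmodule (Fin (m + 1)) Ω T) : MvPolynomial (Fin (m + 1)) Ω) = 0 := by
    have h4 : Ideal.span S ≤ RingHom.ker (aeval v : MvPolynomial (Fin (m + 1)) Ω →ₐ[Ω] F) := by
      rw [Ideal.span_le]
      exact fun F hF => hv F hF
    exact h4 h1
  have h5 : p = ((DirectSum.decompose (homogeneousSubmodule (Fin (m + 1)) Ω) a T :
      homogeneousSubmodule (Fin (m + 1)) Ω T) : MvPolynomial (Fin (m + 1)) Ω) +
      ∑ j, ((DirectSum.decompose (homogeneousSubmodule (Fin (m + 1)) Ω) (g j) (T - 1) :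
      homogeneousSubmodule (Fin (m + 1)) Ω (T - 1)) : MvPolynomial (Fin (m + 1)) Ω) * s j := by
    conv_lhs => rw [← h2, ← hab, ← hg]
    rw [DirectSum.decompose_add, DirectSum.add_apply, Submodule.coe_add,
      DirectSum.decompose_sum, DFinsupp.finsetSum_apply, AddSubmonoidClass.coe_finsetSum]
    congr 1
    refine Finset.sum_congr rfl fun j _ => ?_
    exact DirectSum.coe_decompose_mul_of_right_mem_of_le _ (hs j) hT
  conv_lhs => rw [h5]
  rw [map_add, h3, zero_add, map_sum]
  refine Finset.sum_congr rfl fun j _ => ?_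
  rw [map_mul]

theorem p_LFD : Stmt_LFD := by
  classical
  intro Ω F _ _ _ _ n w E h v hE hz hv j
  set K := IntermediateField.adjoin Ω (Set.range fun i => ∑ c, algebraMap Ω F (h i c) * v c)
    with hK
  let H : Fin w → MvPolynomial (Fin (n + 1)) Ω := fun i => ∑ c, C (h i c) * X c
  have hH1 : ∀ i, (H i).IsHomogeneous 1 := fun i =>
    IsHomogeneous.sum _ _ _ fun c _ => isHomogeneous_C_mul_X _ _
  have hHe : ∀ i (u : Fin (n + 1) → Ω), eval u (H i) = ∑ c, h i c * u c := by
    intro i u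
    simp [H]
  have hHv : ∀ i, aeval v (H i) = ∑ c, algebraMap Ω F (h i c) * v c := by
    intro i
    simp [H]
  have hHK : ∀ i, aeval v (H i) ∈ K := by
    intro i
    rw [hHv i]
    exact IntermediateField.subset_adjoin _ _ ⟨i, rfl⟩
  obtain ⟨t, ht⟩ := LFD_pow_mem E H (by
    intro u hu hu2
    by_contra hne
    obtain ⟨i, hi⟩ := hz u hne hu
    exact hi (by rw [← hHe]; exact hu2 i))
  let T₀ := (n + 1) * t
  let V : Submodule K F := Submodule.span K
    (Set.range fun μ : Fin (n + 1) → Fin (T₀ + 1) => ∏ l, v l ^ (μ l : ℕ))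
  have hVc : ∀ (c : Ω) (x : F), x ∈ V → algebraMap Ω F c * x ∈ V := by
    intro c x hx
    have h1 := V.smul_mem (algebraMap Ω K c) hx
    rw [Algebra.smul_def, ← IsScalarTower.algebraMap_apply] at h1
    exact h1
  have hA : ∀ d : ℕ, ∀ p : MvPolynomial (Fin (n + 1)) Ω, p.IsHomogeneous d → aeval v p ∈ V := by
    intro d
    induction d with
    | zero =>
      intro p hp
      rw [aeval_def, eval₂_eq']
      refine V.sum_mem fun s hs => hVc _ _ ?_
      have h1 := FMN.deg_eq hp hs
      refine Submodule.subset_span ⟨fun _ => 0, ?_⟩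
      refine Finset.prod_congr rfl fun l _ => ?_
      have h2 : s l = 0 := by
        have h3 : s l ≤ ∑ i, s i :=
          Finset.single_le_sum (f := fun i => s i) (fun i _ => Nat.zero_le _) (Finset.mem_univ l)
        omega
      rw [h2]
      rfl
    | succ d ih =>
      intro p hp
      rcases Nat.lt_or_ge T₀ (d + 1) with hd | hd
      · obtain ⟨g, hg, hgp⟩ := LFD_decomp E H hE hH1 p (d + 1) hp (by omega)
          (FMN.form_mem _ t ht p (d + 1) hp hd.le) v hv
        rw [hgp]
        refine V.sum_mem fun i _ => ?_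
        have h1 := V.smul_mem (⟨aeval v (H i), hHK i⟩ : K) (ih (g i) (by simpa using hg i))
        rw [Algebra.smul_def, mul_comm] at h1
        exact h1
      · rw [aeval_def, eval₂_eq']
        refine V.sum_mem fun s hs => hVc _ _ ?_
        have h1 := FMN.deg_eq hp hs
        have h2 : ∀ l, s l < T₀ + 1 := by
          intro l
          have h3 : s l ≤ ∑ i, s i :=
            Finset.single_le_sum (f := fun i => s i) (fun i _ => Nat.zero_le _)
              (Finset.mem_univ l)
          omega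
        exact Submodule.subset_span ⟨fun l => ⟨s l, h2 l⟩, rfl⟩
  have hV0 : V ≠ ⊥ := by
    intro hbot
    have h1 : (1 : F) ∈ V := by
      have := hA 0 (C 1) (isHomogeneous_C _ _)
      simpa using this
    rw [hbot, Submodule.mem_bot] at h1
    exact one_ne_zero h1
  have hFG : V.FG := Submodule.fg_span (Set.finite_range _)
  have hstab : ∀ x ∈ V, v j • x ∈ V := by
    intro x hx
    induction hx using Submodule.span_induction with
    | mem x hx =>
      obtain ⟨μ, rfl⟩ := hx
      have h1 : v j • (∏ l, v l ^ (μ l : ℕ)) =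
          aeval v (X j * ∏ l, (X l : MvPolynomial (Fin (n + 1)) Ω) ^ (μ l : ℕ)) := by
        rw [map_mul, map_prod, aeval_X]
        simp
      rw [h1]
      exact hA _ _ ((isHomogeneous_X _ j).mul (IsHomogeneous.prod _ _ (fun l => (μ l : ℕ))
        (fun l _ => isHomogeneous_X_pow l _)))
    | zero => rw [smul_zero]; exact V.zero_mem
    | add x y _ _ hx hy => rw [smul_add]; exact V.add_mem hx hy
    | smul c x _ hx => rw [smul_comm]; exact V.smul_mem c hx
  exact (isIntegral_of_smul_mem_submodule V hV0 hFG (v j) hstab).isAlgebraic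

end Pool.MPE
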