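import Pool.Agent.Work.MP_f82ddf_E.Interface

set_option autoImplicit false

/-! # THEOREM E: block MPE (points of `X` with values in `Mer`) -/

open Pool.Agent.Work.MP_f82ddf_nt.DQ

namespace Pool.MPE

open MvPolynomial
open Pool.ThmP (Mor OnX OnK tm)
open Pool.MPL (RX NC aq ae NPr Spn)
open Pool.MPV (Ful Full)

theorem MPE_nodes {Ω : Type} [Field Ω] {n N w δ : ℕ} {B : ℕ → ℕ}
    {l : Fin (N + 1) → Fin (n + 1) → Ω} {S : Finset (Fin (n + 1) → Ω)}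
    (hS : ∀ u ∈ S, ∃ j, l j = u) (h : NodesW w δ B l) :
    NodesW w δ B (fun u : S => (u : Fin (n + 1) → Ω)) := by
  intro e he E hl hE hh
  choose j hj using hS
  refine le_trans ?_ (h e he E hl hE hh)
  refine Set.ncard_le_ncard_of_injOn (fun u : S => j (u : Fin (n + 1) → Ω) u.2) ?_ ?_
    (Set.toFinite _)
  · intro u hu F hF
    rw [hj]
    exact hu F hF
  · intro u _ v _ huv
    have h1 : l (j (u : Fin (n + 1) → Ω) u.2) = l (j (v : Fin (n + 1) → Ω) v.2) :=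
      congrArg l huv
    rw [hj, hj] at h1
    exact Subtype.ext h1

theorem p_MPE : Stmt_UEE → Pool.MPW.Stmt_IJE → Pool.MPL.Stmt_SLO → Pool.ThmP.Stmt_MPT →
    Pool.MPV.Stmt_ORF → Stmt_MPE := by
  intro hUEE hIJE hSLO hMPT hORF n c B hn
  obtain ⟨N₁, δ, hN₁⟩ := hUEE n c B hn
  refine ⟨c + c * N₁, δ, ?_⟩
  intro Ω _ _ _ N l hN hl w₀ k a q hk ha hwk hnaq hnod
  obtain ⟨S₁, hNPr, hcard, hlj, hSpn⟩ := hSLO Ω n c N N₁ l hn hl (by omega)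
  have hnod' : 2 ≤ w₀ → NodesW w₀ δ B (fun u : S₁ => (u : Fin (n + 1) → Ω)) :=
    fun h => MPE_nodes hlj (hnod h)
  have key : ∀ σ : Fin (a + 1) ↪ Fin (n + 1), ∃ (e : ℕ) (D : MvPolynomial (Fin (a + 1)) Ω),
      D.IsHomogeneous e ∧ D ≠ 0 ∧ ∀ (τ : Ω →+* ℂ) (x : Fin (n + 1) → Mer), NC x →
        (∀ u ∈ S₁, Ful k x (fun i => τ (u i))) →
        eval₂ (tm τ) (fun i => x (σ i)) D = 0 := by
    intro σ
    obtain ⟨ε, hε⟩ := hIJE n a q σ hnaq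
    obtain ⟨e, D, -, hD, hD0, hDx⟩ := hN₁ Ω S₁ hNPr hSpn hcard w₀ k a q ε hk ha hwk hnod'
    refine ⟨e, D, hD, hD0, fun τ x hx hu => ?_⟩
    have h1 := hDx τ x hx hu
    have h2 : (fun i => x (ε (Sum.inl i))) = fun i => x (σ i) := by
      funext i
      rw [hε]
    rw [h2] at h1
    exact h1
  choose e D hD hD0 hDx using key
  refine ⟨D, fun σ => ⟨hD0 σ, e σ, hD σ⟩, ?_⟩
  intro K _ _ m S hS g hful τ x hx hncx s hs σ
  obtain ⟨s₀, hs₀, hNCx⟩ := hncx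
  obtain ⟨M1, M2⟩ := hMPT K Ω Mer m n S g (tm τ) x hx
  obtain ⟨c₀, hc₀⟩ : ∃ c, eval₂ (tm τ) x (s₀ c) ≠ 0 := by
    obtain ⟨c₀, j₁, hc₀, -⟩ := hNCx
    exact ⟨c₀, hc₀⟩
  have hmult : ∀ u ∈ S₁, Ful k (fun c => eval₂ (tm τ) x (s₀ c)) (fun i => τ (u i)) := by
    intro u hu
    obtain ⟨j, hj⟩ := hlj u hu
    have hd : Full g k u := by rw [← hj]; exact hful j
    exact hORF K Ω m n k S g hS τ x hx s₀ hs₀ ⟨c₀, hc₀⟩ u hd
  have hDx' := hDx σ τ _ hNCx hmult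
  -- all the tuples are proportional
  have hprop : (fun i => eval₂ (tm τ) x (s (σ i))) =
      (eval₂ (tm τ) x (s c₀) / eval₂ (tm τ) x (s₀ c₀)) •
        fun i => eval₂ (tm τ) x (s₀ (σ i)) := by
    funext d
    have h1 := M2 s hs s₀ hs₀ (σ d) c₀
    rw [Pi.smul_apply, smul_eq_mul]
    field_simp
    linear_combination h1
  rw [hprop, Pool.Agent.Work.MP_f82ddf_nt.eval₂_smul_hom (hD σ), hDx', mul_zero]

end Pool.MPE
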