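import Pool.Agent.Work.MP_f82ddf_E.Interface
import Pool.Agent.Work.MP_f82ddf_U.B_UIR

set_option autoImplicit false

/-! # Block MVX of THEOREM E (MP_f82ddf_nt): moving factors over a larger field -/

open Pool.Agent.Work.MP_f82ddf_nt.DQ

namespace Pool.MPE

open MvPolynomial
open Pool.MPL (RX inc)
open Pool.MPH (MovR)

/-- A prime factor of the image of a nonzero polynomial divides the image of an irreducible factor. -/
lemma MVX_factor {σ R M : Type} [CommRing R] [IsDomain R] [UniqueFactorizationMonoid R] [Field M]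
    (φ : R →+* M) (P : MvPolynomial σ M) (hP : Irreducible P) (F : MvPolynomial σ R) (hF : F ≠ 0)
    (h : P ∣ map φ F) : ∃ K, Irreducible K ∧ K ∣ F ∧ P ∣ map φ K := by
  classical
  revert hF h
  refine WfDvdMonoid.induction_on_irreducible (motive := fun F : MvPolynomial σ R =>
    F ≠ 0 → P ∣ map φ F → ∃ K, Irreducible K ∧ K ∣ F ∧ P ∣ map φ K) F ?_ ?_ ?_
  · intro h0
    exact absurd rfl h0
  · intro u hu _ hPu
    exact absurd (isUnit_of_dvd_unit hPu (hu.map (map φ))) hP.not_isUnit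
  · intro b i hb hi ih _ hPb
    rw [map_mul] at hPb
    rcases hP.prime.dvd_or_dvd hPb with h1 | h1
    · exact ⟨i, hi, dvd_mul_right i b, h1⟩
    · obtain ⟨K, hK, hKb, hPK⟩ := ih hb h1
      exact ⟨K, hK, hKb.mul_left i, hPK⟩

theorem p_MVX (hDS1 : Pool.MPH.Stmt_DS1) : Stmt_MVX := by
  intro σ _ a H hH hMov M _ _ φ hφ
  classical
  have hφ' : Function.Injective (φ : RX a →+* M) := hφ
  have hnu : ¬ IsUnit (map (φ : RX a →+* M) H) := by
    intro hu
    obtain ⟨c, -, hc⟩ := isUnit_iff_eq_C_of_isReduced.1 hu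
    refine hMov (coeff 0 H) 1 ?_
    rw [map_one, mul_one]
    ext m : 1
    rw [coeff_C]
    by_cases hm : (0 : σ →₀ ℕ) = m
    · rw [if_pos hm, hm]
    · rw [if_neg hm]
      apply hφ'
      rw [map_zero, ← coeff_map, hc, coeff_C, if_neg hm]
  have hn0 : map (φ : RX a →+* M) H ≠ 0 := by
    intro h0
    apply hH.ne_zero
    apply map_injective (φ : RX a →+* M) hφ'
    rw [h0, map_zero]
  obtain ⟨P, hP, hPH⟩ := WfDvdMonoid.exists_irreducible_factor hnu hn0
  refine ⟨P, hP, hPH, ?_⟩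
  intro G hG hPG
  have hmap : map (algebraMap ℂ M) G = map (φ : RX a →+* M) (inc a σ G) := by
    have h0 : algebraMap ℂ M = (φ : RX a →+* M).comp (algebraMap ℂ (RX a)) :=
      RingHom.ext fun z => (φ.commutes z).symm
    rw [inc, map_map, h0]
  have hinc : inc a σ G ≠ 0 := by
    intro h0
    apply hG
    apply map_injective (algebraMap ℂ (RX a)) (C_injective _ _)
    rw [map_zero]
    exact h0
  rw [hmap] at hPG
  obtain ⟨K, hK, hKG, hPK⟩ := MVX_factor (φ : RX a →+* M) P hP (inc a σ G) hinc hPG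
  by_cases hA : Associated H K
  · obtain ⟨G', -, hG'⟩ := Pool.MPL.UIR_fix a σ G H hG (hA.dvd.trans hKG)
    refine hMov 1 G' ?_
    rw [C_1, one_mul]
    exact hG'
  · obtain ⟨D, hD, hDS⟩ := hDS1 σ (RX a) H K hH hK hA
    have h1 := hDS M (φ : RX a →+* M) P hP hPH hPK
    exact hD (hφ' (by rw [h1, map_zero]))

end Pool.MPE
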