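import Pool.Agent.Work.MP_f82ddf_E.Interface

set_option autoImplicit false

/-! # THEOREM E: block NCI (a nonconstant point has a nonconstant image under a finite morphism) -/

open Pool.Agent.Work.MP_f82ddf_nt.DQ

namespace Pool.MPE

open MvPolynomial
open Pool.Agent.Work.MP_f82ddf_nt (PSpace HolomorphicOn complexPoints KobayashiHyperbolic)
open Pool.ThmP (Mor OnX OnK tm)
open Pool.MPL (RX NC aq ae NPr Spn)
open Pool.MPV (Ful Full)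

theorem p_NCI (hMPT : Pool.ThmP.Stmt_MPT) (hFIB : Pool.ThmP.Stmt_FIB)
    (hCST : Pool.ThmM0.Stmt_CST) : Stmt_NCI := by
  intro K Ω _ _ _ _ m n S g hS hg τ x hx hnc
  obtain ⟨i₀, i, hi₀, hi⟩ := hnc
  obtain ⟨M1, -⟩ := hMPT K Ω Mer m n S g (tm τ) x hx
  have hx0 : x ≠ 0 := fun h => hi₀ (congrFun h i₀)
  obtain ⟨s₀, hs₀, c₀, hc₀⟩ := M1 hx0
  -- the image is not constant
  have hNC : ∃ j, ∀ z : ℂ, eval₂ (tm τ) x (s₀ j) ≠
      algebraMap ℂ Mer z * eval₂ (tm τ) x (s₀ c₀) := by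
    by_contra hcon
    push Not at hcon
    have h1 := hFIB K Ω m n S g hS hg τ x hx s₀ hs₀ c₀ hc₀ i i₀ hi₀
    obtain ⟨z, hz⟩ := hCST n (fun c => eval₂ (tm τ) x (s₀ c)) c₀ hc₀ hcon _ h1
    exact hi z ((div_eq_iff hi₀).1 hz)
  obtain ⟨j₁, hj₁⟩ := hNC
  exact ⟨s₀, hs₀, c₀, j₁, hc₀, hj₁⟩

end Pool.MPE
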