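import Pool.Agent.Work.MP_f82ddf_E.Interface

set_option autoImplicit false

/-! # THEOREM E, block NCM: the two universal Chow forms have no common moving factor -/

open Pool.Agent.Work.MP_f82ddf_nt.DQ

namespace Pool.MPE

open MvPolynomial
open Pool.Agent.Work.MP_f82ddf_M5 (lineAt resAt chow at2 comb Data)
open Pool.ThmM (HypData LastMonic)
open Pool.MPL (RX)
open Pool.MPW (pv UG)
open Pool.MPH (MovR)

private lemma NCM_deg {σ : Type} {d : ℕ} {Q : MvPolynomial σ ℂ} (hQ : Irreducible Q)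
    (hd : Q.IsHomogeneous d) : 1 ≤ d := by
  rcases Nat.eq_zero_or_pos d with h | h
  · exfalso
    subst h
    have h0 := hd.totalDegree hQ.ne_zero
    rw [totalDegree_eq_zero_iff_eq_C] at h0
    apply hQ.not_isUnit
    rw [h0]
    have hc : coeff 0 Q ≠ 0 := by
      intro h1
      apply hQ.ne_zero
      rw [h0, h1, map_zero]
    exact (isUnit_iff_ne_zero.mpr hc).map C
  · exact h

private lemma NCM_comb_hom {M : Type} [Field M] [Algebra ℂ M] {N a D : ℕ}
    {B : Fin (a + 1) → MvPolynomial (Fin N) ℂ} (hB : ∀ i, (B i).IsHomogeneous D)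
    (x : Fin (a + 1) → M) : (comb (algebraMap ℂ M) B x).IsHomogeneous D := by
  unfold comb
  refine IsHomogeneous.sum _ _ _ fun i _ => ?_
  have h := (isHomogeneous_C (Fin N) (x i)).mul ((hB i).map (algebraMap ℂ M))
  rwa [zero_add] at h

private lemma NCM_eval {M F : Type} [Field M] [Algebra ℂ M] [Field F] [Algebra M F]
    [Algebra ℂ F] [IsScalarTower ℂ M F] {N : ℕ} (v : Fin N → F) (Q : MvPolynomial (Fin N) ℂ) :
    eval₂ (algebraMap M F) v (map (algebraMap ℂ M) Q) = aeval v Q := by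
  rw [eval₂_map, ← IsScalarTower.algebraMap_eq ℂ M F]
  rfl

private lemma NCM_comb {M F : Type} [Field M] [Algebra ℂ M] [Field F] [Algebra M F]
    [Algebra ℂ F] [IsScalarTower ℂ M F] {N a : ℕ} (v : Fin N → F)
    (B : Fin (a + 1) → MvPolynomial (Fin N) ℂ) (x : Fin (a + 1) → M) :
    eval₂ (algebraMap M F) v (comb (algebraMap ℂ M) B x) =
      ∑ i, algebraMap M F (x i) * aeval v (B i) := by
  unfold comb
  rw [eval₂_sum]
  refine Finset.sum_congr rfl fun i _ => ?_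
  rw [eval₂_mul, eval₂_C, NCM_eval]

private lemma NCM_aux (hCDV : Stmt_CDV) (hGPV : Stmt_GPV) (hOVG : Stmt_OVG) (hDVC : Stmt_DVC)
    (hALI : Stmt_ALI) (hCNT : Stmt_CNT) (hLINE : Pool.Agent.Work.MP_f82ddf_M5.Stmt_LINE)
    (hFUN : Pool.Agent.Work.MP_f82ddf_M5.Stmt_FUN) (w a d D D' : ℕ)
    (Q : MvPolynomial (Fin (w + 2)) ℂ) (B B' : Fin (a + 1) → MvPolynomial (Fin (w + 2)) ℂ)
    (hQ : Irreducible Q) (hQd : Q.IsHomogeneous d) (hLM : LastMonic w d Q)
    (hB : ∀ i, (B i).IsHomogeneous D) (hB' : ∀ i, (B' i).IsHomogeneous D')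
    (hmin : ∃ i j, ¬ Q ∣ B i * B' j - B j * B' i)
    (M : Type) [Field M] [Algebra ℂ M] (x : Fin (a + 1) → M) (hx : AlgebraicIndependent ℂ x)
    (P : MvPolynomial (Fin 2 × Fin (w + 2)) M) (hP : Irreducible P)
    (hmov : ∀ G : MvPolynomial (Fin 2 × Fin (w + 2)) ℂ, G ≠ 0 → ¬ P ∣ map (algebraMap ℂ M) G)
    (h0 : chow d D (map (algebraMap ℂ M) Q) (comb (algebraMap ℂ M) B x) ≠ 0)
    (h1 : P ∣ chow d D (map (algebraMap ℂ M) Q) (comb (algebraMap ℂ M) B x))
    (h2 : P ∣ chow d D' (map (algebraMap ℂ M) Q) (comb (algebraMap ℂ M) B' x)) : False := by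
  have hd := NCM_deg hQ hQd
  have hQM : map (algebraMap ℂ M) Q ≠ 0 := by
    intro h
    exact hQ.ne_zero (map_injective (algebraMap ℂ M) (algebraMap ℂ M).injective
      (h.trans (map_zero _).symm))
  have hG := NCM_comb_hom (M := M) hB x
  have hG' := NCM_comb_hom (M := M) hB' x
  have hnd : ¬ map (algebraMap ℂ M) Q ∣ comb (algebraMap ℂ M) B x := fun h =>
    h0 (hCDV M (w + 2) d D _ _ hd hQM (hQd.map _) hG h)
  obtain ⟨F, iF, iA, b, s, hb, hQv, hGv, hsm, hat⟩ :=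
    hGPV M w d D Q _ P hQ hQd hG hnd h0 hP hmov h1
  have hG'v := hOVG M F (w + 2) d D' Q _ P (pv b s) hQ hQd hG' hQv hsm hat h2
  letI : Algebra ℂ F := ((algebraMap M F).comp (algebraMap ℂ M)).toAlgebra
  haveI : IsScalarTower ℂ M F := IsScalarTower.of_algebraMap_eq (fun _ => rfl)
  obtain ⟨p₀, hp⟩ := hALI M F (Fin 2 × Fin (w + 2)) (a + 1) x P b hx hP hb
  refine hCNT F w a d Q B B' b s (fun i => algebraMap M F (x i)) p₀ hLM ?_ ?_ ?_ ?_ hp
  · rw [← NCM_eval (M := M)]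
    exact hQv
  · rw [← NCM_comb]
    exact hGv
  · rw [← NCM_comb]
    exact hG'v
  · obtain ⟨i, j, hij⟩ := hmin
    refine ⟨i, j, fun h => ?_⟩
    have hh : (B i * B' j - B j * B' i).IsHomogeneous (D + D') :=
      ((hB i).mul (hB' j)).sub ((hB j).mul (hB' i))
    have h3 := hLINE (w + 2) d (D + D') Q _ hQ hQd hh hij
    have h4 := hDVC M F (w + 2) d (D + D') (map (algebraMap ℂ M) Q)
      (map (algebraMap ℂ M) (B i * B' j - B j * B' i)) b s hd (hQd.map _) (hh.map _) hQv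
      (by rw [NCM_eval]; exact h)
    rw [hb, ← hFUN.2.2.2.2.2] at h4
    exact hmov _ h3 h4

theorem p_NCM : Stmt_MVX → Stmt_UGM → Stmt_UGZ → Stmt_CDV → Stmt_GPV → Stmt_OVG → Stmt_DVC →
    Stmt_ALI → Stmt_CNT → Pool.Agent.Work.MP_f82ddf_M5.Stmt_LINE →
    Pool.Agent.Work.MP_f82ddf_M5.Stmt_FUN → Stmt_NCM := by
  intro hMVX hUGM hUGZ hCDV hGPV hOVG hDVC hALI hCNT hLINE hFUN w a d D D' Q B B' hQ hQd hLM
    hB hB' hmin H hH hHmov hHU hHU'
  have hinj : Function.Injective (IsScalarTower.toAlgHom ℂ (RX a) (FractionRing (RX a))) :=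
    IsFractionRing.injective (RX a) (FractionRing (RX a))
  generalize hφ : IsScalarTower.toAlgHom ℂ (RX a) (FractionRing (RX a)) = φ at hinj
  obtain ⟨P, hP, hPH, hmov⟩ := hMVX (Fin 2 × Fin (w + 2)) a H hH hHmov
    (FractionRing (RX a)) φ hinj
  have hcomp : (φ : RX a →+* FractionRing (RX a)).comp (algebraMap ℂ (RX a)) =
      algebraMap ℂ (FractionRing (RX a)) := φ.comp_algebraMap
  have hx : AlgebraicIndependent ℂ (fun i => φ (X i)) := by
    have h : aeval (fun i => φ (X i)) = φ := by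
      apply MvPolynomial.algHom_ext
      intro i
      rw [aeval_X]
    unfold AlgebraicIndependent
    rw [h]
    exact hinj
  have hBi : ∃ i, ¬ Q ∣ B i := by
    by_contra h
    push Not at h
    obtain ⟨i, j, hij⟩ := hmin
    exact hij (dvd_sub ((h i).mul_right _) ((h j).mul_right _))
  have hU0 := hUGZ (w + 2) a d D Q B hQ hQd hB hBi
  have hU0' : map (φ : RX a →+* FractionRing (RX a)) (UG d D Q B) ≠ 0 := by
    intro h
    exact hU0 (map_injective (φ : RX a →+* FractionRing (RX a)) hinj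
      (h.trans (map_zero _).symm))
  have e1 := hUGM (w + 2) a d D Q B (FractionRing (RX a)) (φ : RX a →+* FractionRing (RX a))
  have e2 := hUGM (w + 2) a d D' Q B' (FractionRing (RX a)) (φ : RX a →+* FractionRing (RX a))
  rw [hcomp] at e1 e2
  have d1 : P ∣ map (φ : RX a →+* FractionRing (RX a)) (UG d D Q B) :=
    hPH.trans (map_dvd _ hHU)
  have d2 : P ∣ map (φ : RX a →+* FractionRing (RX a)) (UG d D' Q B') :=
    hPH.trans (map_dvd _ hHU')
  rw [e1] at d1 hU0'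
  rw [e2] at d2
  exact NCM_aux hCDV hGPV hOVG hDVC hALI hCNT hLINE hFUN w a d D D' Q B B' hQ hQd hLM hB hB' hmin
    (FractionRing (RX a)) (fun i => φ (X i)) hx P hP hmov hU0' d1 d2

end Pool.MPE
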