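import Pool.Agent.Work.MP_f82ddf_E.Interface

set_option autoImplicit false

/-! # THEOREM E (MP_f82ddf_nt), block NCT: the condition on the nodes passes to `ℂ` -/

namespace Pool.MPE

open MvPolynomial
open Pool.ThmM (NonProp HypData Pr)

/-- NCT. -/
theorem p_NCT (hNDC : Stmt_NDC) : Stmt_NCT := by
  classical
  intro Ω _ _ τ n w₀ δ B S hW v D hv hvw hD T hT E h hE hh
  obtain ⟨T₀, hT₀, rfl⟩ := Finset.subset_map_iff.1 hT
  rw [Finset.card_map]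
  obtain ⟨E', h', hE', hh'⟩ := hNDC Ω τ n (v + 1) D T₀ E h
    (fun i => ⟨(hE i).1, fun u hu => (hE i).2 _ (Finset.mem_map_of_mem (te τ n) hu)⟩) hh
  obtain ⟨h'', hh''⟩ : ∃ h'' : Fin w₀ → Fin (n + 1) → Ω,
      ∀ (i : Fin (v + 1)) (hi : (i : ℕ) < w₀), h'' ⟨i, hi⟩ = h' i := by
    refine ⟨fun j => if hj : (j : ℕ) < v + 1 then h' ⟨j, hj⟩ else 0, fun i hi => ?_⟩
    exact dif_pos i.2
  have key := hW (by omega) D hD E' h'' (fun F hF => ⟨D, le_rfl, (hE' F hF).1⟩)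
    (fun z hz hzE => by
      obtain ⟨i, hi⟩ := hh' z hz hzE
      refine ⟨⟨i, lt_of_lt_of_le i.2 hvw⟩, ?_⟩
      rw [hh'']
      exact hi)
  refine le_trans ?_ key
  rw [← Set.ncard_coe_finset T₀]
  refine le_trans (Set.ncard_le_ncard (t := Subtype.val ''
    {j : S | ∀ F ∈ E', eval (j : Fin (n + 1) → Ω) F = 0}) ?_ (Set.toFinite _))
    (Set.ncard_image_le (Set.toFinite _))
  intro u hu
  exact ⟨⟨u, hT₀ hu⟩, fun F hF => (hE' F hF).2 u hu, rfl⟩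

end Pool.MPE
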