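import Pool.Agent.Work.MP_f82ddf_E.Nodes

set_option autoImplicit false

/-! # Block NDC (helper21): descent of the equations of the nodes from `ℂ` to `Ω` -/

namespace Pool.MPE

open MvPolynomial
open Pool.ThmM (NonProp HypData Pr)

/-- Step (1): if all forms of degree `D` over `Ω` which vanish on `T` vanish at `z`, then so do the
complex forms of degree `D` which vanish on `T`. -/
theorem NDC_span {Ω : Type} [Field Ω] (τ : Ω →+* ℂ) (n D : ℕ) (T : Finset (Fin (n + 1) → Ω))
    (E : Pr n) (hE : E.IsHomogeneous D) (hT : ∀ u ∈ T, eval (fun c => τ (u c)) E = 0)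
    (z : Fin (n + 1) → ℂ)
    (hz : ∀ F : MvPolynomial (Fin (n + 1)) Ω, F.IsHomogeneous D → (∀ u ∈ T, eval u F = 0) →
      eval z (map τ F) = 0) : eval z E = 0 := by
  classical
  let _ : Algebra Ω ℂ := τ.toAlgebra
  have hτ : ∀ (a : Ω) (b : ℂ), a • b = τ a * b := fun a b => rfl
  let b := Module.Basis.ofVectorSpace Ω ℂ
  -- the components
  let F : Module.Basis.ofVectorSpaceIndex Ω ℂ → MvPolynomial (Fin (n + 1)) Ω := fun μ =>
    ∑ m ∈ E.support, monomial m (b.repr (coeff m E) μ)
  have hFhom : ∀ μ, (F μ).IsHomogeneous D := by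
    intro μ
    refine IsHomogeneous.sum _ _ _ fun m hm => ?_
    refine isHomogeneous_monomial _ ?_
    have h1 := hE (mem_support_iff.1 hm)
    rw [← h1]
    simp [Finsupp.weight_apply, Finsupp.degree_apply, Finsupp.sum]
  have hFev : ∀ μ, ∀ u ∈ T, eval u (F μ) = 0 := by
    intro μ u hu
    have h1 : eval (fun c => τ (u c)) E = ∑ m ∈ E.support, (∏ i, u i ^ m i) • coeff m E := by
      rw [eval_eq']
      refine Finset.sum_congr rfl fun m _ => ?_
      rw [hτ, map_prod, mul_comm]
      simp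
    have h2 : b.repr (∑ m ∈ E.support, (∏ i, u i ^ m i) • coeff m E) μ = 0 := by
      rw [← h1, hT u hu, map_zero, Finsupp.zero_apply]
    rw [map_sum, Finsupp.finsetSum_apply] at h2
    have h3 : eval u (F μ) = ∑ m ∈ E.support, b.repr (coeff m E) μ * ∏ i, u i ^ m i := by
      simp only [F, map_sum]
      refine Finset.sum_congr rfl fun m _ => ?_
      rw [eval_monomial, Finsupp.prod_fintype _ _ (fun i => pow_zero _)]
    rw [h3, ← h2]
    refine Finset.sum_congr rfl fun m _ => ?_
    rw [map_smul, Finsupp.smul_apply, smul_eq_mul, mul_comm]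
  -- the sum
  let S : Finset (Module.Basis.ofVectorSpaceIndex Ω ℂ) :=
    E.support.biUnion fun m => (b.repr (coeff m E)).support
  have hco : ∀ m ∈ E.support, coeff m E = ∑ μ ∈ S, τ (b.repr (coeff m E) μ) * b μ := by
    intro m hm
    conv_lhs => rw [← b.linearCombination_repr (coeff m E)]
    rw [Finsupp.linearCombination_apply, Finsupp.sum_of_support_subset (s := S)]
    · exact Finset.sum_congr rfl fun μ _ => hτ _ _
    · intro μ hμ
      exact Finset.mem_biUnion.2 ⟨m, hm, hμ⟩
    · intro μ _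
      rw [zero_smul]
  have h4 : eval z E = ∑ μ ∈ S, b μ * eval z (map τ (F μ)) := by
    have h5 : ∀ μ, eval z (map τ (F μ)) =
        ∑ m ∈ E.support, τ (b.repr (coeff m E) μ) * ∏ i, z i ^ m i := by
      intro μ
      simp only [F, map_sum, map_monomial]
      refine Finset.sum_congr rfl fun m _ => ?_
      rw [eval_monomial, Finsupp.prod_fintype _ _ (fun i => pow_zero _)]
    simp only [h5, Finset.mul_sum]
    rw [Finset.sum_comm, eval_eq']
    refine Finset.sum_congr rfl fun m hm => ?_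
    conv_lhs => rw [hco m hm]
    rw [Finset.sum_mul]
    refine Finset.sum_congr rfl fun μ _ => ?_
    ring
  rw [h4]
  refine Finset.sum_eq_zero fun μ _ => ?_
  rw [hz (F μ) (hFhom μ) (hFev μ), mul_zero]

/-- Specialization of a finitely generated algebra. -/
theorem NDC_theta (Ω : Type) [Field Ω] [IsAlgClosed Ω] [Algebra Ω ℂ] (s : Finset ℂ) :
    Nonempty (Algebra.adjoin Ω (s : Set ℂ) →ₐ[Ω] Ω) := by
  classical
  set B : Subalgebra Ω ℂ := Algebra.adjoin Ω (s : Set ℂ) with hB
  have hfg : B.FG := Subalgebra.fg_adjoin_finset _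
  have : Algebra.FiniteType Ω B := B.fg_iff_finiteType.1 hfg
  obtain ⟨m, hm⟩ := Ideal.exists_maximal B
  let _ : Field (B ⧸ m) := Ideal.Quotient.field m
  have h2 : Algebra.FiniteType Ω (B ⧸ m) := inferInstance
  have h3 : Module.Finite Ω (B ⧸ m) := finite_of_finite_type_of_isJacobsonRing Ω (B ⧸ m)
  have h4 : Algebra.IsIntegral Ω (B ⧸ m) := inferInstance
  have hbij : Function.Bijective (algebraMap Ω (B ⧸ m)) :=
    IsAlgClosed.algebraMap_bijective_of_isIntegral
  let e : Ω ≃ₐ[Ω] (B ⧸ m) := AlgEquiv.ofBijective (Algebra.ofId Ω (B ⧸ m)) hbij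
  exact ⟨(e.symm : (B ⧸ m) →ₐ[Ω] Ω).comp (Ideal.Quotient.mkₐ Ω m)⟩

theorem p_NDC : Stmt_NDC := by
  classical
  intro Ω _ _ τ n w D T E h hE hno
  let _ : Algebra Ω ℂ := τ.toAlgebra
  have hτ : algebraMap Ω ℂ = τ := rfl
  let E' : Set (MvPolynomial (Fin (n + 1)) Ω) := {F | F.IsHomogeneous D ∧ ∀ u ∈ T, eval u F = 0}
  -- the generators
  let g : E' ⊕ Fin w → MvPolynomial (Fin (n + 1)) ℂ := fun k =>
    match k with
    | Sum.inl F => map τ F.1
    | Sum.inr j => ∑ i, C (h j i) * X i
  have hnull : ∀ i : Fin (n + 1), ∃ M : ℕ, X i ^ M ∈ Ideal.span (Set.range g) := by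
    intro i
    have h1 : (X i : MvPolynomial (Fin (n + 1)) ℂ) ∈
        vanishingIdeal ℂ (zeroLocus ℂ (Ideal.span (Set.range g))) := by
      rw [mem_vanishingIdeal_iff]
      intro z hz
      rw [mem_zeroLocus_iff] at hz
      have hz1 : ∀ k, eval z (g k) = 0 := by
        intro k
        have := hz (g k) (Ideal.subset_span ⟨k, rfl⟩)
        rwa [aeval_eq_eval] at this
      have hz0 : z = 0 := by
        refine hno z (fun i' => ?_) (fun j => ?_)
        · exact NDC_span τ n D T (E i') (hE i').1 (hE i').2 z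
            (fun F hF hFT => hz1 (Sum.inl ⟨F, hF, hFT⟩))
        · have := hz1 (Sum.inr j)
          simpa [g] using this
      rw [aeval_X, hz0, Pi.zero_apply]
    rw [vanishingIdeal_zeroLocus_eq_radical] at h1
    exact h1
  choose M hM using hnull
  have hM2 : ∀ i : Fin (n + 1), ∃ c : (E' ⊕ Fin w) →₀ MvPolynomial (Fin (n + 1)) ℂ,
      (c.sum fun k a => a * g k) = X i ^ M i :=
    fun i => Finsupp.mem_ideal_span_range_iff_exists_finsupp.1 (hM i)
  choose c hc using hM2
  let s : Finset ℂ := (Finset.univ.biUnion fun i => (c i).support.biUnion fun k => (c i k).coeffs) ∪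
    (Finset.univ.image fun p : Fin w × Fin (n + 1) => h p.1 p.2)
  obtain ⟨θ⟩ := NDC_theta Ω s
  set B : Subalgebra Ω ℂ := Algebra.adjoin Ω (s : Set ℂ) with hB
  have hsB : ∀ x ∈ s, x ∈ B := fun x hx => Algebra.subset_adjoin hx
  have hh : ∀ j i, h j i ∈ B := fun j i => hsB _ (Finset.mem_union_right _
    (Finset.mem_image.2 ⟨(j, i), Finset.mem_univ _, rfl⟩))
  have hlift : ∀ i k, ∃ a : MvPolynomial (Fin (n + 1)) B, map B.val.toRingHom a = c i k := by
    intro i k
    by_cases hk : c i k = 0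
    · exact ⟨0, by rw [hk, map_zero]⟩
    have h1 : c i k ∈ Set.range (MvPolynomial.map B.val.toRingHom) := by
      rw [mem_range_map_iff_coeffs_subset]
      intro x hx
      have hxB : x ∈ B := hsB x (Finset.mem_union_left _ (Finset.mem_biUnion.2
        ⟨i, Finset.mem_univ _, Finset.mem_biUnion.2 ⟨k, Finsupp.mem_support_iff.2 hk, hx⟩⟩))
      exact ⟨⟨x, hxB⟩, rfl⟩
    exact h1
  choose a ha using hlift
  let g₀ : E' ⊕ Fin w → MvPolynomial (Fin (n + 1)) B := fun k =>
    match k with
    | Sum.inl F => map (algebraMap Ω B) F.1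
    | Sum.inr j => ∑ i, C (⟨h j i, hh j i⟩ : B) * X i
  have hg₀ : ∀ k, map B.val.toRingHom (g₀ k) = g k := by
    intro k
    rcases k with F | j
    · simp only [g₀, g, map_map]
      rfl
    · simp only [g₀, g, map_sum, map_mul, map_C, map_X]
      rfl
  have hinj : Function.Injective (MvPolynomial.map (σ := Fin (n + 1)) B.val.toRingHom) :=
    map_injective _ Subtype.val_injective
  have hid : ∀ i, (X i ^ M i : MvPolynomial (Fin (n + 1)) B) =
      ∑ k ∈ (c i).support, a i k * g₀ k := by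
    intro i
    apply hinj
    rw [map_sum, map_pow, map_X, ← hc i, Finsupp.sum]
    refine Finset.sum_congr rfl fun k _ => ?_
    rw [map_mul, ha, hg₀]
  refine ⟨E', fun j i => θ ⟨h j i, hh j i⟩, fun F hF => hF, ?_⟩
  intro v hv hvE
  by_contra hcon
  push Not at hcon
  apply hv
  funext i
  have h1 := congrArg (eval₂Hom (θ : B →+* Ω) v) (hid i)
  rw [map_pow, eval₂Hom_X', map_sum] at h1
  have h2 : ∀ k, eval₂Hom (θ : B →+* Ω) v (g₀ k) = 0 := by
    intro k
    rcases k with F | j
    · have h3 : eval₂Hom (θ : B →+* Ω) v (map (algebraMap Ω B) F.1) = eval v F.1 := by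
        rw [coe_eval₂Hom, eval₂_map]
        have : (θ : B →+* Ω).comp (algebraMap Ω B) = RingHom.id Ω := by
          ext x
          simp
        rw [this]
        rfl
      simp only [g₀]
      rw [h3]
      exact hvE F.1 F.2
    · simp only [g₀, map_sum, map_mul, eval₂Hom_C, eval₂Hom_X']
      exact hcon j
  rw [Finset.sum_eq_zero (fun k _ => by rw [map_mul, h2, mul_zero])] at h1
  exact eq_zero_of_pow_eq_zero h1

end Pool.MPE
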