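import Pool.Agent.Work.MP_f82ddf_E.Optimal

set_option autoImplicit false

/-! # THEOREM E (MP_f82ddf_nt), block NSO (helper75) -/

namespace Pool.MPE

theorem NSO_nde {m q n : ℕ} (hmq : m < q) (hq : 2 ≤ q) :
    Function.Injective (fun i : Fin (n + 1) => nde m q (i : ℕ)) := by
  intro i i' h
  have h' : nde m q (i : ℕ) = nde m q (i' : ℕ) := h
  have hbig : ∀ k : ℕ, m < k → m < q ^ (k - m) := by
    intro k hk
    calc m < q := hmq
      _ = q ^ 1 := (pow_one q).symm
      _ ≤ q ^ (k - m) := Nat.pow_le_pow_right (by omega) (by omega)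
  apply Fin.ext
  unfold nde at h'
  split_ifs at h' with h1 h2 h2
  · exact h'
  · have := hbig i' (by omega)
    omega
  · have := hbig i (by omega)
    omega
  · have h3 : (i : ℕ) - m = (i' : ℕ) - m := Nat.pow_right_injective hq h'
    omega

theorem p_NSO (hFEW : Stmt_FEW) : Stmt_NSO := by
  intro Ω _ _ n m q N hm hmq hq v hv
  classical
  by_contra hc
  have hc' : n + 1 ≤ {j : Fin (N + 1) | ∑ i : Fin (n + 1), nod Ω m q j i * v i = 0}.ncard := by
    omega
  rw [Set.ncard_eq_toFinset_card'] at hc'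
  obtain ⟨t, ht, htc⟩ := Finset.exists_subset_card_eq hc'
  obtain ⟨φ⟩ : Nonempty (Fin (n + 1) ≃ t) := ⟨(t.equivFinOfCardEq htc).symm⟩
  refine hv (hFEW Ω (n + 1) (fun i => nde m q (i : ℕ)) (fun k => ((φ k).1 : ℕ) + 1) v
    (NSO_nde hmq hq) ?_ (fun _ => Nat.succ_pos _) ?_)
  · intro k k' hkk
    have h1 : ((φ k).1 : ℕ) + 1 = ((φ k').1 : ℕ) + 1 := hkk
    have h2 : (φ k).1 = (φ k').1 := Fin.ext (by omega)
    exact φ.injective (Subtype.ext h2)
  · intro k
    have h1 := ht (φ k).2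
    rw [Set.mem_toFinset] at h1
    have h2 : ∑ i : Fin (n + 1), nod Ω m q (φ k).1 i * v i = 0 := h1
    rw [← h2]
    exact Finset.sum_congr rfl (fun i _ => mul_comm _ _)

end Pool.MPE
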