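import Pool.Agent.Work.MP_f82ddf_E.Optimal

set_option autoImplicit false

namespace Pool.MPE

open MvPolynomial

/-- The parametrization `(1, t_1, .., t_1 ^ m, t_2, .., t_w)`. -/
noncomputable def NSP_T (Ω : Type) [Field Ω] {n m w : ℕ} (hw : 1 ≤ w) (hn : m + w = n + 1)
    (i : Fin (n + 1)) : MvPolynomial (Fin w) Ω :=
  if h : (i : ℕ) ≤ m then X ⟨0, hw⟩ ^ (i : ℕ) else X ⟨(i : ℕ) - m, by omega⟩

theorem NSP_evalT {Ω : Type} [Field Ω] {n m w : ℕ} (hw : 1 ≤ w) (hn : m + w = n + 1) (q : ℕ)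
    (a : Ω) (i : Fin (n + 1)) :
    eval (fun k : Fin w => a ^ (q ^ (k : ℕ))) (NSP_T Ω hw hn i) = a ^ nde m q i := by
  unfold NSP_T nde
  split_ifs with h
  · rw [map_pow, eval_X]
    simp
  · rw [eval_X]

theorem NSP_degT {Ω : Type} [Field Ω] {n m w : ℕ} (hm : 1 ≤ m) (hw : 1 ≤ w) (hn : m + w = n + 1)
    (i : Fin (n + 1)) : (NSP_T Ω hw hn i).totalDegree ≤ m := by
  unfold NSP_T
  split_ifs with h
  · refine (totalDegree_pow _ _).trans ?_
    rw [totalDegree_X, mul_one]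
    exact h
  · rw [totalDegree_X]
    exact hm

theorem NSP_sum {Ω : Type} [Field Ω] {n e : ℕ} {G : MvPolynomial (Fin (n + 1)) Ω}
    (hG : G.IsHomogeneous e) {μ : Fin (n + 1) →₀ ℕ} (hμ : μ ∈ G.support) : ∑ i, μ i = e := by
  have h := hG (mem_support_iff.mp hμ)
  rw [← h]
  simp [Finsupp.weight_apply, Finsupp.sum_fintype]

theorem NSP_smul {Ω F : Type} [Field Ω] [Field F] [Algebra Ω F] {n e : ℕ}
    {G : MvPolynomial (Fin (n + 1)) Ω} (hG : G.IsHomogeneous e) (x : F) (u : Fin (n + 1) → F) :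
    aeval (fun i => x * u i) G = x ^ e * aeval u G := by
  rw [aeval_def, aeval_def, eval₂_eq', eval₂_eq', Finset.mul_sum]
  refine Finset.sum_congr rfl fun μ hμ => ?_
  have h1 : ∏ i, (x * u i) ^ μ i = x ^ e * ∏ i, u i ^ μ i := by
    rw [← NSP_sum hG hμ, ← Finset.prod_pow_eq_pow_sum, ← Finset.prod_mul_distrib]
    exact Finset.prod_congr rfl fun i _ => mul_pow _ _ _
  rw [h1]
  ring

theorem NSP_deg {Ω : Type} [Field Ω] {n m w e : ℕ} (hm : 1 ≤ m) (hw : 1 ≤ w) (hn : m + w = n + 1)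
    {G : MvPolynomial (Fin (n + 1)) Ω} (hG : G.IsHomogeneous e) :
    (aeval (NSP_T Ω hw hn) G).totalDegree ≤ m * e := by
  rw [aeval_def, eval₂_eq']
  refine (totalDegree_finsetSum _ _).trans (Finset.sup_le fun μ hμ => ?_)
  refine (totalDegree_mul _ _).trans ?_
  rw [algebraMap_eq, totalDegree_C, zero_add]
  refine (totalDegree_finsetProd _ _).trans ?_
  rw [← NSP_sum hG hμ, Finset.mul_sum]
  refine Finset.sum_le_sum fun i _ => ?_
  refine (totalDegree_pow _ _).trans ?_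
  rw [mul_comm m]
  exact Nat.mul_le_mul_left _ (NSP_degT hm hw hn i)

theorem NSP_inj {w q : ℕ} (μ ν : Fin w → ℕ) (hμ : ∀ k, μ k < q) (hν : ∀ k, ν k < q)
    (h : ∑ k, μ k * q ^ (k : ℕ) = ∑ k, ν k * q ^ (k : ℕ)) : μ = ν := by
  have h1 : (fun k => (⟨μ k, hμ k⟩ : Fin q)) = fun k => (⟨ν k, hν k⟩ : Fin q) := by
    apply finFunctionFinEquiv.injective
    apply Fin.ext
    rw [finFunctionFinEquiv_apply, finFunctionFinEquiv_apply]
    exact h
  funext k
  have h2 := congrFun h1 k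
  exact congrArg Fin.val h2

theorem NSP_field' (Ω : Type) [Field Ω] (N : ℕ) (F : Type) [Field F] [Algebra Ω F]
    [Algebra (MvPolynomial (Fin N) Ω) F] [IsScalarTower Ω (MvPolynomial (Fin N) Ω) F]
    [IsFractionRing (MvPolynomial (Fin N) Ω) F] :
    ∃ x : Fin N → F, AlgebraicIndependent Ω x := by
  have h1 : AlgebraicIndependent Ω (X : Fin N → MvPolynomial (Fin N) Ω) :=
    MvPolynomial.algebraicIndependent_X (Fin N) Ω
  have h2 : Function.Injective (IsScalarTower.toAlgHom Ω (MvPolynomial (Fin N) Ω) F) := by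
    rw [IsScalarTower.coe_toAlgHom']
    exact IsFractionRing.injective _ _
  exact ⟨_, AlgebraicIndependent.map' h1 h2⟩

theorem NSP_field (Ω : Type) [Field Ω] (N : ℕ) :
    ∃ (F : Type) (_ : Field F) (_ : Algebra Ω F) (x : Fin N → F), AlgebraicIndependent Ω x := by
  obtain ⟨x, hx⟩ := NSP_field' Ω N (FractionRing (MvPolynomial (Fin N) Ω))
  exact ⟨FractionRing (MvPolynomial (Fin N) Ω), inferInstance, inferInstance, x, hx⟩

/-- Step (1). -/
theorem NSP_step1' (hLFD : Stmt_LFD) (hTRM : Pool.MPW.Stmt_TRM) {Ω F : Type} [Field Ω]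
    [IsAlgClosed Ω] [Field F] [Algebra Ω F] {n m w : ℕ} (hm : 1 ≤ m) (hw : 1 ≤ w)
    (hn : m + w = n + 1) (x : Fin (w + 1) → F) (hx : AlgebraicIndependent Ω x)
    (E : Set (MvPolynomial (Fin (n + 1)) Ω)) (h : Fin w → Fin (n + 1) → Ω)
    (hE : ∀ G ∈ E, ∃ d, G.IsHomogeneous d)
    (hz : ∀ u : Fin (n + 1) → Ω, u ≠ 0 → (∀ G ∈ E, eval u G = 0) → ∃ i, ∑ c, h i c * u c ≠ 0)
    (hcon : ∀ G ∈ E, aeval (NSP_T Ω hw hn) G = 0) : False := by
  have hx0 : x 0 ≠ 0 := hx.ne_zero 0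
  let t : Fin w → F := fun k => x k.succ / x 0
  let v : Fin (n + 1) → F := fun i => x 0 * aeval t (NSP_T Ω hw hn i)
  have hv : ∀ G ∈ E, aeval v G = 0 := by
    intro G hG
    obtain ⟨d, hd⟩ := hE G hG
    have h1 : aeval v G = x 0 ^ d * aeval (fun i => aeval t (NSP_T Ω hw hn i)) G :=
      NSP_smul hd (x 0) _
    have h2 : aeval (fun i => aeval t (NSP_T Ω hw hn i)) G
        = aeval t (aeval (NSP_T Ω hw hn) G) := by
      rw [comp_aeval_apply]
    rw [h1, h2, hcon G hG, map_zero, mul_zero]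
  have halg := hLFD Ω F n w E h v hE hz hv
  have hxv : ∀ k, ∃ i, x k = v i := by
    intro k
    rcases Nat.eq_zero_or_pos (k : ℕ) with hk | hk
    · refine ⟨⟨0, by omega⟩, ?_⟩
      have hk' : k = 0 := Fin.ext hk
      simp only [v, NSP_T, hk']
      simp
    · rcases Nat.lt_or_ge (k : ℕ) 2 with hk2 | hk2
      · refine ⟨⟨1, by omega⟩, ?_⟩
        have hk' : k = Fin.succ ⟨0, hw⟩ := by
          apply Fin.ext
          simp only [Fin.val_succ]
          omega
        simp only [v, NSP_T, hk', t]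
        rw [dif_pos hm, pow_one, aeval_X, mul_div_cancel₀ _ hx0]
      · refine ⟨⟨m + ((k : ℕ) - 1), by omega⟩, ?_⟩
        have hk' : k = Fin.succ ⟨m + ((k : ℕ) - 1) - m, by omega⟩ := by
          apply Fin.ext
          simp only [Fin.val_succ]
          omega
        have h3 : ¬ (m + ((k : ℕ) - 1) ≤ m) := by omega
        simp only [v, NSP_T, t]
        rw [dif_neg h3, aeval_X, mul_div_cancel₀ _ hx0, ← hk']
  have h4 : w + 1 ≤ w := by
    refine hTRM Ω F (w + 1) w x (fun i => ∑ c, algebraMap Ω F (h i c) * v c) hx fun k => ?_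
    obtain ⟨i, hi⟩ := hxv k
    rw [hi]
    exact halg i
  omega

theorem NSP_step1 (hLFD : Stmt_LFD) (hTRM : Pool.MPW.Stmt_TRM) {Ω : Type} [Field Ω]
    [IsAlgClosed Ω] {n m w : ℕ} (hm : 1 ≤ m) (hw : 1 ≤ w) (hn : m + w = n + 1)
    (E : Set (MvPolynomial (Fin (n + 1)) Ω)) (h : Fin w → Fin (n + 1) → Ω)
    (hE : ∀ G ∈ E, ∃ d, G.IsHomogeneous d)
    (hz : ∀ u : Fin (n + 1) → Ω, u ≠ 0 → (∀ G ∈ E, eval u G = 0) → ∃ i, ∑ c, h i c * u c ≠ 0) :
    ∃ G ∈ E, aeval (NSP_T Ω hw hn) G ≠ 0 := by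
  by_contra hcon
  push Not at hcon
  obtain ⟨F, _, _, x, hx⟩ := NSP_field Ω (w + 1)
  exact NSP_step1' hLFD hTRM hm hw hn x hx E h hE hz hcon

theorem NSP_card {Ω : Type} [Field Ω] {w D : ℕ} (f : MvPolynomial (Fin w) Ω)
    (hf : f.totalDegree ≤ D) : f.support.card ≤ (D + 1) ^ w := by
  have h1 : f.support.card ≤ (Fintype.piFinset fun _ : Fin w => Finset.range (D + 1)).card := by
    refine Finset.card_le_card_of_injOn (fun μ k => μ k) ?_ ?_
    · intro μ hμ
      simp only [Finset.mem_coe, Fintype.mem_piFinset, Finset.mem_range]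
      intro k
      have := (monomial_le_degreeOf k hμ).trans ((degreeOf_le_totalDegree f k).trans hf)
      omega
    · intro μ _ ν _ h
      exact DFunLike.coe_injective h
  refine h1.trans ?_
  rw [Fintype.card_piFinset]
  simp

theorem p_NSP (hFEW : Stmt_FEW) (hLFD : Stmt_LFD) (hTRM : Pool.MPW.Stmt_TRM) : Stmt_NSP := by
  intro Ω _ _ _ n m w hm hw hn
  refine ⟨fun e => (m * e + 1) ^ w, fun δ => ⟨m * δ + 2, fun q N hq => ?_⟩⟩
  intro e he E h hE hz
  obtain ⟨G, hG, hG0⟩ := NSP_step1 hLFD hTRM hm hw hn E h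
    (fun G hG => (hE G hG).imp fun _ h => h.2) hz
  obtain ⟨e', he', hhom⟩ := hE G hG
  set f := aeval (NSP_T Ω hw hn) G with hf
  have hdeg : f.totalDegree ≤ m * e' := NSP_deg hm hw hn hhom
  have hcard : f.support.card ≤ (m * e' + 1) ^ w := NSP_card f hdeg
  have hcard2 : f.support.card ≤ (m * e + 1) ^ w :=
    hcard.trans (Nat.pow_le_pow_left (by nlinarith) w)
  by_contra hlt
  push Not at hlt
  set J := {j : Fin (N + 1) | ∀ F ∈ E, eval (nod Ω m q j : Fin (n + 1) → Ω) F = 0} with hJ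
  have hJf : J.Finite := Set.toFinite J
  have h1 : f.support.card ≤ hJf.toFinset.card := by
    rw [← Set.ncard_eq_toFinset_card J hJf]
    exact hcard2.trans hlt.le
  obtain ⟨J', hJ', hJc⟩ := Finset.exists_subset_card_eq h1
  let σ := (J'.equivFinOfCardEq hJc).symm
  let ι := (f.support.equivFin).symm
  have hlt2 : ∀ μ ∈ f.support, ∀ k, μ k < q := by
    intro μ hμ k
    have h2 := (monomial_le_degreeOf k hμ).trans ((degreeOf_le_totalDegree f k).trans hdeg)
    have h3 : m * e' ≤ m * δ := Nat.mul_le_mul_left _ (he'.trans he)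
    omega
  have hy := hFEW Ω f.support.card (fun i => ∑ k, (ι i : Fin w →₀ ℕ) k * q ^ (k : ℕ))
    (fun i => ((σ i : Fin (N + 1)) : ℕ) + 1) (fun i => coeff (ι i : Fin w →₀ ℕ) f)
    (by
      intro i j hij
      have h2 := NSP_inj _ _ (hlt2 _ (ι i).2) (hlt2 _ (ι j).2) hij
      exact ι.injective (Subtype.ext (DFunLike.coe_injective h2)))
    (by
      intro i j hij
      have h2 : ((σ i : Fin (N + 1)) : ℕ) = ((σ j : Fin (N + 1)) : ℕ) := by
        have := hij
        simp only at this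
        omega
      exact σ.injective (Subtype.ext (Fin.ext h2)))
    (fun j => Nat.succ_pos _)
    (by
      intro j
      have hj : (σ j : Fin (N + 1)) ∈ J := hJf.mem_toFinset.mp (hJ' (σ j).2)
      have h2 : eval (nod Ω m q (σ j : Fin (N + 1)) : Fin (n + 1) → Ω) G = 0 := hj G hG
      set a : Ω := ((((σ j : Fin (N + 1)) : ℕ) + 1 : ℕ) : Ω) with ha
      have h3 : eval (fun k : Fin w => a ^ (q ^ (k : ℕ))) f = 0 := by
        refine Eq.trans ?_ h2
        have h4 : (nod Ω m q (σ j : Fin (N + 1)) : Fin (n + 1) → Ω)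
            = fun i => eval (fun k : Fin w => a ^ (q ^ (k : ℕ))) (NSP_T Ω hw hn i) := by
          funext i
          rw [NSP_evalT]
          rfl
        rw [h4]
        have h5 := comp_aeval_apply (NSP_T Ω hw hn)
          (aeval (R := Ω) (fun k : Fin w => a ^ (q ^ (k : ℕ)))) G
        rw [hf]
        simpa [coe_aeval_eq_eval] using h5
      rw [eval_eq'] at h3
      rw [← Finset.sum_coe_sort] at h3
      rw [← h3]
      refine Fintype.sum_equiv ι _ _ fun i => ?_
      congr 1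
      rw [← Finset.prod_pow_eq_pow_sum]
      refine Finset.prod_congr rfl fun k _ => ?_
      rw [← pow_mul, mul_comm])
  have hfs : f.support.Nonempty := support_nonempty.mpr hG0
  obtain ⟨μ, hμ⟩ := hfs
  have h6 := congrFun hy (ι.symm ⟨μ, hμ⟩)
  simp only [Equiv.apply_symm_apply, Pi.zero_apply] at h6
  exact (mem_support_iff.mp hμ) h6

end Pool.MPE
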