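import Pool.Agent.Work.MP_f82ddf_E.Interface

set_option autoImplicit false

/-! # THEOREM E (MP_f82ddf_nt), block OVG -/

open Pool.Agent.Work.MP_f82ddf_nt.DQ

namespace Pool.MPE

open MvPolynomial
open Pool.Agent.Work.MP_f82ddf_M5 (lineAt resAt chow at2 comb Data GoodDer)

/-- OVG -/
theorem p_OVG (hFUN : Pool.Agent.Work.MP_f82ddf_M5.Stmt_FUN)
    (hIDE : Pool.Agent.Work.MP_f82ddf_M5.Stmt_IDE) (hPTK : Pool.MPW.Stmt_PTK)
    (hABS : Pool.MPW.Stmt_ABS) : Stmt_OVG := by
  intro M F _ _ _ _ N d D Q G P v hirr hhom hG hQv hsm hat hdvd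
  obtain ⟨e, rfl⟩ : ∃ e, d = e + 1 := by
    rcases d with _ | e
    · exfalso
      have h0 : Q.totalDegree = 0 := hhom.totalDegree hirr.ne_zero
      rw [totalDegree_eq_zero_iff_eq_C] at h0
      refine hirr.not_isUnit ?_
      rw [h0]
      refine (isUnit_iff_ne_zero.mpr fun hc => hirr.ne_zero ?_).map C
      rw [h0, hc, map_zero]
    · exact ⟨e, rfl⟩
  letI : Algebra ℂ F := ((algebraMap M F).comp (algebraMap ℂ M)).toAlgebra
  have halg : algebraMap ℂ F = (algebraMap M F).comp (algebraMap ℂ M) := rfl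
  haveI : CharZero F := charZero_of_injective_algebraMap (algebraMap ℂ F).injective
  have hmap : ∀ f : MvPolynomial (Fin N) ℂ,
      map (algebraMap ℂ F) f = map (algebraMap M F) (map (algebraMap ℂ M) f) := by
    intro f
    rw [map_map, halg]
  have hQF : Irreducible (map (algebraMap ℂ F) Q) := hABS F N Q hirr
  have hQh : (map (algebraMap ℂ F) Q).IsHomogeneous (e + 1) := hhom.map _
  have hGh : (map (algebraMap M F) G).IsHomogeneous D := hG.map _
  have hQ0 : eval v (map (algebraMap ℂ F) Q) = 0 := by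
    rw [hmap, eval_map]
    exact hQv
  have hsm' : ∃ i, eval v (pderiv i (map (algebraMap ℂ F) Q)) ≠ 0 := by
    obtain ⟨j, hj⟩ := hsm
    refine ⟨j, ?_⟩
    rw [pderiv_map, hmap, eval_map]
    exact hj
  rw [← eval_map]
  by_cases hd : map (algebraMap ℂ F) Q ∣ map (algebraMap M F) G
  · obtain ⟨H, hH⟩ := hd
    rw [hH, map_mul, hQ0, zero_mul]
  · obtain ⟨b', hb'⟩ := hPTK F N e D _ _ v hQF hQh hGh hd hQ0 hsm'
    have h1 : at2 (algebraMap M F) v b' (chow (e + 1) D (map (algebraMap ℂ M) Q) G) = 0 := by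
      obtain ⟨H, hH⟩ := hdvd
      rw [hH, map_mul, hat b', zero_mul]
    rw [hFUN.2.2.2.2.1] at h1
    have h2 := hFUN.2.2.2.1 N (e + 1) D M F F (RingHom.id F) (algebraMap M F)
      (map (algebraMap ℂ M) Q) G v b'
    rw [RingHom.id_comp, h1, ← hmap] at h2
    have h3 := hIDE N e D F F (RingHom.id F) (map (algebraMap ℂ F) Q) (map (algebraMap M F) G) v b'
      hQh hGh (by rw [eval₂_id]; exact hQ0)
    rw [h2, eval₂_id] at h3
    have h4 := mul_eq_zero.mp h3.symm
    rcases h4 with h4 | h4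
    · rcases mul_eq_zero.mp h4 with h5 | h5
      · exfalso
        exact pow_ne_zero D (neg_ne_zero.mpr one_ne_zero) h5
      · exact h5
    · exact absurd h4 hb'

end Pool.MPE
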