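import Pool.Agent.Work.MP_f82ddf_E.Interface

set_option autoImplicit false

/-! # THEOREM E (MP_f82ddf_nt), block PWE: the transfer -/

open Pool.Agent.Work.MP_f82ddf_nt.DQ

namespace Pool.MPE

open MvPolynomial
open Pool.Agent.Work.MP_f82ddf_M5 (lineAt resAt chow at2 comb Data GoodDer)
open Pool.MPW (pv)

theorem PWE_ev {N n : ℕ} {M F : Type} [Field M] [Algebra ℂ M] [Field F] [Algebra M F]
    (v : Fin N → F) (R : Fin (n + 1) → MvPolynomial (Fin N) ℂ) (x : Fin (n + 1) → M) :
    eval₂ (algebraMap M F) v (comb (algebraMap ℂ M) R x) =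
      ∑ i, algebraMap M F (x i) * eval₂ (algebraMap M F) v (map (algebraMap ℂ M) (R i)) := by
  unfold comb
  rw [← coe_eval₂Hom, map_sum]
  refine Finset.sum_congr rfl fun i _ => ?_
  rw [map_mul, coe_eval₂Hom, eval₂_C]

/-- the vectors `R` for which `comb R x` vanishes at `v` -/
def PWE_S {N n : ℕ} {M F : Type} [Field M] [Algebra ℂ M] [Field F] [Algebra M F]
    (v : Fin N → F) (x : Fin (n + 1) → M) :
    Submodule (MvPolynomial (Fin N) ℂ) (Fin (n + 1) → MvPolynomial (Fin N) ℂ) where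
  carrier := {R | eval₂ (algebraMap M F) v (comb (algebraMap ℂ M) R x) = 0}
  add_mem' := by
    intro R R' h h'
    rw [Set.mem_setOf_eq, PWE_ev] at h h' ⊢
    have e : ∀ i, algebraMap M F (x i) * eval₂ (algebraMap M F) v
        (map (algebraMap ℂ M) ((R + R') i)) =
        algebraMap M F (x i) * eval₂ (algebraMap M F) v (map (algebraMap ℂ M) (R i)) +
        algebraMap M F (x i) * eval₂ (algebraMap M F) v (map (algebraMap ℂ M) (R' i)) := by
      intro i
      rw [Pi.add_apply, map_add, eval₂_add, mul_add]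
    rw [Finset.sum_congr rfl fun i _ => e i, Finset.sum_add_distrib, h, h', add_zero]
  zero_mem' := by
    rw [Set.mem_setOf_eq, PWE_ev]
    refine Finset.sum_eq_zero fun i _ => ?_
    rw [Pi.zero_apply, map_zero, eval₂_zero, mul_zero]
  smul_mem' := by
    intro g R h
    rw [Set.mem_setOf_eq, PWE_ev] at h ⊢
    have e : ∀ i, algebraMap M F (x i) * eval₂ (algebraMap M F) v
        (map (algebraMap ℂ M) ((g • R) i)) =
        eval₂ (algebraMap M F) v (map (algebraMap ℂ M) g) *
        (algebraMap M F (x i) * eval₂ (algebraMap M F) v (map (algebraMap ℂ M) (R i))) := by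
      intro i
      rw [Pi.smul_apply, smul_eq_mul, map_mul, eval₂_mul]
      ring
    rw [Finset.sum_congr rfl fun i _ => e i, ← Finset.mul_sum, h, mul_zero]

/-- PWE -/
theorem p_PWE (hVNR : Stmt_VNR) (hDVC : Stmt_DVC) : Stmt_PWE := by
  intro M _ _ w n a q d k Q A ε hdat hk x P hx hP hmov hdvd D₁ D R hDQ hR hRs hRq
  obtain ⟨F, _, _, b, s, hgen, hQ, hrows⟩ := hVNR M w n d k Q A hdat hk x P hx hP hmov hdvd
  have hd : 1 ≤ d := by
    rcases d with _ | e
    · exfalso
      have h0 : Q.totalDegree = 0 := hdat.hom.totalDegree hdat.irr.ne_zero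
      rw [totalDegree_eq_zero_iff_eq_C] at h0
      refine hdat.irr.not_isUnit ?_
      rw [h0]
      refine (isUnit_iff_ne_zero.mpr fun hc => hdat.irr.ne_zero ?_).map C
      rw [h0, hc, map_zero]
    · omega
  have hsub : Submodule.span (MvPolynomial (Fin (w + 2)) ℂ) (Rows k Q D₁ A) ≤
      PWE_S (M := M) (F := F) (pv b s) x := by
    rw [Submodule.span_le]
    rintro r ⟨j, Δ, hj, hΔ, rfl⟩
    exact hrows D₁ Δ hDQ hΔ j hj
  have h1 : eval₂ (algebraMap M F) (pv b s) (comb (algebraMap ℂ M) R x) = 0 := hsub hRs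
  have h2 : eval₂ (algebraMap M F) (pv b s)
      (comb (algebraMap ℂ M) (fun i => R (ε (Sum.inl i))) (fun i => x (ε (Sum.inl i)))) = 0 := by
    rw [PWE_ev, ← Equiv.sum_comp ε, Fintype.sum_sum_type] at h1
    rw [PWE_ev]
    have h3 : ∑ l, algebraMap M F (x (ε (Sum.inr l))) * eval₂ (algebraMap M F) (pv b s)
        (map (algebraMap ℂ M) (R (ε (Sum.inr l)))) = 0 := by
      refine Finset.sum_eq_zero fun l _ => ?_
      obtain ⟨H, hH⟩ := hRq l
      rw [hH, map_mul, eval₂_mul, hQ, zero_mul, mul_zero]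
    rwa [h3, add_zero] at h1
  have hG : (comb (algebraMap ℂ M) (fun i => R (ε (Sum.inl i)))
      (fun i => x (ε (Sum.inl i)))).IsHomogeneous D := by
    unfold comb
    refine IsHomogeneous.sum _ _ _ fun i _ => ?_
    have h := (isHomogeneous_C (Fin (w + 2)) (x (ε (Sum.inl i)))).mul
      ((hR (ε (Sum.inl i))).map (algebraMap ℂ M))
    rwa [zero_add] at h
  exact (hgen _).mp (hDVC M F (w + 2) d D (map (algebraMap ℂ M) Q) _ b s hd (hdat.hom.map _) hG
    hQ h2)

end Pool.MPE
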