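import Pool.Agent.Work.MP_f82ddf_E.Interface

set_option autoImplicit false

/-! # Block QDR (helper72): the derivation of the quotient -/

open Pool.Agent.Work.MP_f82ddf_nt.DQ

namespace Pool.MPE

open MvPolynomial

theorem p_QDR : Stmt_QDR := by
  intro N Q D₁ hQ
  set I : Ideal (MvPolynomial (Fin N) ℂ) := Ideal.span {Q} with hI
  have hstab : ∀ f ∈ I, D₁ f ∈ I := by
    intro f hf
    rw [hI, Ideal.mem_span_singleton] at hf
    obtain ⟨g, rfl⟩ := hf
    rw [Derivation.leibniz, hQ, smul_zero, add_zero, smul_eq_mul, hI, Ideal.mem_span_singleton]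
    exact dvd_mul_right _ _
  have hsurj : ∀ x : MvPolynomial (Fin N) ℂ ⧸ I, ∃ f, Ideal.Quotient.mk I f = x :=
    Ideal.Quotient.mk_surjective
  choose s hs using hsurj
  have key : ∀ f, Ideal.Quotient.mk I (D₁ (s (Ideal.Quotient.mk I f))) =
      Ideal.Quotient.mk I (D₁ f) := by
    intro f
    rw [Ideal.Quotient.eq, ← map_sub]
    apply hstab
    rw [← Ideal.Quotient.eq]
    exact hs _
  let L : (MvPolynomial (Fin N) ℂ ⧸ I) →ₗ[ℂ] (MvPolynomial (Fin N) ℂ ⧸ I) :=
    { toFun := fun x => Ideal.Quotient.mk I (D₁ (s x))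
      map_add' := by
        intro x y
        obtain ⟨f, rfl⟩ := Ideal.Quotient.mk_surjective x
        obtain ⟨g, rfl⟩ := Ideal.Quotient.mk_surjective y
        rw [← map_add, key, key, key, map_add, map_add]
      map_smul' := by
        intro c x
        obtain ⟨f, rfl⟩ := Ideal.Quotient.mk_surjective x
        have h1 : c • (Ideal.Quotient.mk I f) = Ideal.Quotient.mk I (c • f) := rfl
        rw [h1, key, key, Derivation.map_smul]
        rfl }
  have hL : ∀ f, L (Ideal.Quotient.mk I f) = Ideal.Quotient.mk I (D₁ f) := key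
  refine ⟨Derivation.mk' L ?_, hL⟩
  intro x y
  obtain ⟨f, rfl⟩ := Ideal.Quotient.mk_surjective x
  obtain ⟨g, rfl⟩ := Ideal.Quotient.mk_surjective y
  rw [← map_mul, hL, hL, hL, Derivation.leibniz, smul_eq_mul, smul_eq_mul, smul_eq_mul,
    smul_eq_mul, map_add, map_mul, map_mul]

end Pool.MPE
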