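import Pool.Agent.Work.MP_f82ddf_E.Interface

set_option autoImplicit false

/-! # THEOREM E, block RKV (helper52): the rank grows by 1 with every derivative -/

namespace Pool.MPE

section X_RKV

variable {R : Type} [CommRing R] [IsDomain R] {m : ℕ}

/-- the embedding of the vectors over `R` in the vectors over the field of fractions -/
noncomputable def X_RKV_io (R : Type) [CommRing R] [IsDomain R] (m : ℕ) :
    (Fin m → R) →ₗ[R] (Fin m → FractionRing R) :=
  (Algebra.linearMap R (FractionRing R)).compLeft (Fin m)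

theorem X_RKV_io_apply (v : Fin m → R) (i : Fin m) :
    X_RKV_io R m v i = algebraMap R (FractionRing R) (v i) := rfl

theorem X_RKV_inj : Function.Injective (X_RKV_io R m) := by
  intro v w h
  funext i
  exact IsFractionRing.injective R (FractionRing R) (congrFun h i)

theorem X_RKV_li {ι : Type} {b : ι → Fin m → R} :
    LinearIndependent R b ↔ LinearIndependent (FractionRing R) (fun i => X_RKV_io R m (b i)) := by
  rw [← LinearIndependent.iff_fractionRing (R := R) (K := FractionRing R)]
  constructor
  · intro h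
    exact h.map' (X_RKV_io R m) (LinearMap.ker_eq_bot.2 X_RKV_inj)
  · intro h
    exact LinearIndependent.of_comp (X_RKV_io R m) h

/-- a linear form with coefficients in `R` -/
theorem X_RKV_form (c v : Fin m → R) :
    ∑ i, algebraMap R (FractionRing R) (c i) * X_RKV_io R m v i =
      algebraMap R (FractionRing R) (∑ i, c i * v i) := by
  rw [map_sum]
  exact Finset.sum_congr rfl fun i _ => by rw [X_RKV_io_apply, map_mul]

/-- a proper subspace is orthogonal to a nonzero vector over `R` -/
theorem X_RKV_orth (G : Set (Fin m → R))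
    (h : Submodule.span (FractionRing R) (X_RKV_io R m '' G) ≠ ⊤) :
    ∃ c : Fin m → R, c ≠ 0 ∧ ∀ v ∈ G, ∑ i, c i * v i = 0 := by
  classical
  obtain ⟨f, hf0, hf⟩ := Submodule.exists_le_ker_of_lt_top _ (lt_top_iff_ne_top.2 h)
  obtain ⟨b, hb⟩ := IsLocalization.exist_integer_multiples_of_finite (nonZeroDivisors R)
    (fun i : Fin m => f (Pi.single i 1))
  choose c hc using hb
  have hb0 : algebraMap R (FractionRing R) (b : R) ≠ 0 := by
    intro h0
    exact nonZeroDivisors.ne_zero b.2
      (IsFractionRing.injective R (FractionRing R) (h0.trans (map_zero _).symm))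
  have hfx : ∀ x : Fin m → FractionRing R, f x = ∑ i, x i * f (Pi.single i 1) := by
    intro x
    have h1 : x = ∑ i, x i • (Pi.single i 1 : Fin m → FractionRing R) := by
      funext j
      rw [Finset.sum_apply]
      simp [Pi.single_apply]
    conv_lhs => rw [h1]
    rw [map_sum]
    exact Finset.sum_congr rfl fun i _ => by rw [map_smul, smul_eq_mul]
  have hc' : ∀ i, algebraMap R (FractionRing R) (c i) =
      algebraMap R (FractionRing R) (b : R) * f (Pi.single i 1) := by
    intro i
    rw [hc i, Algebra.smul_def]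
  refine ⟨c, ?_, ?_⟩
  · intro h0
    apply hf0
    refine LinearMap.ext fun x => ?_
    rw [hfx, LinearMap.zero_apply]
    refine Finset.sum_eq_zero fun i _ => ?_
    have h2 := hc' i
    rw [h0, Pi.zero_apply, map_zero] at h2
    rw [(mul_eq_zero.1 h2.symm).resolve_left hb0, mul_zero]
  · intro v hv
    have h1 : f (X_RKV_io R m v) = 0 :=
      hf (Submodule.subset_span ⟨v, hv, rfl⟩)
    apply IsFractionRing.injective R (FractionRing R)
    rw [map_zero, ← X_RKV_form]
    have h2 : ∑ i, algebraMap R (FractionRing R) (c i) * X_RKV_io R m v i =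
        algebraMap R (FractionRing R) (b : R) * f (X_RKV_io R m v) := by
      rw [hfx, Finset.mul_sum]
      exact Finset.sum_congr rfl fun i _ => by rw [hc' i]; ring
    rw [h2, h1, mul_zero]

/-- a vector over `R` orthogonal to `G` is orthogonal to everything in the span of `G` -/
theorem X_RKV_span (G : Set (Fin m → R)) (c : Fin m → R) (hc : ∀ v ∈ G, ∑ i, c i * v i = 0)
    (w : Fin m → R) (hw : X_RKV_io R m w ∈ Submodule.span (FractionRing R) (X_RKV_io R m '' G)) :
    ∑ i, c i * w i = 0 := by
  let F : (Fin m → FractionRing R) →ₗ[FractionRing R] FractionRing R :=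
    ∑ i, algebraMap R (FractionRing R) (c i) • LinearMap.proj i
  have hF : ∀ x, F x = ∑ i, algebraMap R (FractionRing R) (c i) * x i := by
    intro x
    simp only [F, LinearMap.sum_apply, LinearMap.smul_apply, LinearMap.proj_apply, smul_eq_mul]
  have h1 : Submodule.span (FractionRing R) (X_RKV_io R m '' G) ≤ LinearMap.ker F := by
    rw [Submodule.span_le]
    rintro _ ⟨v, hv, rfl⟩
    show F (X_RKV_io R m v) = 0
    rw [hF, X_RKV_form, hc v hv, map_zero]
  have h2 : F (X_RKV_io R m w) = 0 := h1 hw
  rw [hF, X_RKV_form] at h2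
  exact IsFractionRing.injective R (FractionRing R) (h2.trans (map_zero _).symm)

end X_RKV

theorem p_RKV (hCLD : Stmt_CLD) : Stmt_RKV := by
  classical
  intro R _ _ _ δ m p t s r hconst hr hy hsm hspt
  let g : ℕ → Fin p → (Fin m → R) := fun i l c => δ^[i] (r l c)
  let G : ℕ → Set (Fin m → R) := fun j => {v | ∃ i ≤ j, ∃ l, v = g i l}
  let V : ℕ → Submodule (FractionRing R) (Fin m → FractionRing R) := fun j =>
    Submodule.span (FractionRing R) (X_RKV_io R m '' G j)
  have hG : ∀ j, G j ⊆ G (j + 1) := by
    rintro j v ⟨i, hi, l, rfl⟩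
    exact ⟨i, by omega, l, rfl⟩
  have hV : ∀ j, V j ≤ V (j + 1) := fun j => Submodule.span_mono (Set.image_mono (hG j))
  -- (a)
  have ha : Module.finrank (FractionRing R) (V 0) = p := by
    have h1 : X_RKV_io R m '' G 0 = Set.range fun l => X_RKV_io R m (r l) := by
      ext v
      constructor
      · rintro ⟨_, ⟨i, hi, l, rfl⟩, rfl⟩
        obtain rfl : i = 0 := Nat.le_zero.1 hi
        exact ⟨l, rfl⟩
      · rintro ⟨l, rfl⟩
        exact ⟨r l, ⟨0, le_rfl, l, rfl⟩, rfl⟩
    show Module.finrank (FractionRing R)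
      (Submodule.span (FractionRing R) (X_RKV_io R m '' G 0)) = p
    rw [h1, finrank_span_eq_card (X_RKV_li.1 hr), Fintype.card_fin]
  -- (b)
  have hb : ∀ j, V (j + 1) = V j → V j = ⊤ := by
    intro j hj
    by_contra hne
    obtain ⟨c, hc0, hc⟩ := X_RKV_orth (G j) hne
    refine hc0 (hCLD R δ m (G j) hconst ?_ ?_ c hc)
    · rintro c' hc' _ ⟨i, hi, l, rfl⟩
      have h1 : X_RKV_io R m (g (i + 1) l) ∈ V (j + 1) :=
        Submodule.subset_span ⟨_, ⟨i + 1, by omega, l, rfl⟩, rfl⟩
      rw [hj] at h1
      have h2 := X_RKV_span (G j) c' hc' _ h1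
      have h3 : ∀ c, g (i + 1) l c = δ (g i l c) := by
        intro c
        show δ^[i + 1] (r l c) = δ (δ^[i] (r l c))
        rw [Function.iterate_succ_apply']
      simp only [h3] at h2
      exact h2
    · intro y hy'
      exact hy y fun l => hy' (r l) ⟨0, Nat.zero_le _, l, rfl⟩
  -- (c)
  have hcd : ∀ j, min m (p + j) ≤ Module.finrank (FractionRing R) (V j) := by
    intro j
    induction j with
    | zero =>
      rw [ha]
      exact min_le_right _ _
    | succ j ih =>
      by_cases h1 : V (j + 1) = V j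
      · rw [h1, hb j h1, finrank_top, Module.finrank_fin_fun]
        exact min_le_left _ _
      · have h2 : V j < V (j + 1) := lt_of_le_of_ne (hV j) (Ne.symm h1)
        have h3 := Submodule.finrank_lt_finrank_of_lt h2
        omega
  have hst : s ≤ Module.finrank (FractionRing R) (V t) :=
    (le_min hsm hspt).trans (hcd t)
  -- (d)
  let w : Fin (t + 1) × Fin p → (Fin m → FractionRing R) := fun q => X_RKV_io R m (g q.1 q.2)
  have hw : X_RKV_io R m '' G t = Set.range w := by
    ext v
    constructor
    · rintro ⟨_, ⟨i, hi, l, rfl⟩, rfl⟩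
      exact ⟨(⟨i, by omega⟩, l), rfl⟩
    · rintro ⟨⟨i, l⟩, rfl⟩
      exact ⟨g i l, ⟨i, by omega, l, rfl⟩, rfl⟩
  obtain ⟨κ, a, ha', hsp, hli⟩ := exists_linearIndependent' (FractionRing R) w
  have hfin : Finite κ := Finite.of_injective a ha'
  have : Fintype κ := Fintype.ofFinite κ
  have hcard : s ≤ Fintype.card κ := by
    have h1 := finrank_span_eq_card hli
    rw [hsp, ← hw] at h1
    rw [← h1]
    exact hst
  let e : Fin s → κ := fun i => (Fintype.equivFin κ).symm (Fin.castLE hcard i)
  have he : Function.Injective e := by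
    intro i j hij
    exact Fin.castLE_injective hcard ((Fintype.equivFin κ).symm.injective hij)
  refine ⟨fun ρ => ((a (e ρ)).1, (a (e ρ)).2), fun ρ => by
    have := (a (e ρ)).1.2
    show ((a (e ρ)).1 : ℕ) ≤ t
    omega, ?_⟩
  rw [X_RKV_li]
  exact hli.comp e he

end Pool.MPE
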