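import Pool.Agent.Work.MP_f82ddf_E.Interface

set_option autoImplicit false

/-! # Block RRE (helper72): the two eliminated rows -/

open Pool.Agent.Work.MP_f82ddf_nt.DQ

namespace Pool.MPE

open MvPolynomial
open Pool.Agent.Work.MP_f82ddf_M5 (lineAt resAt chow at2 comb Data GoodDer)
open Pool.MPW (pv OrdGE UG ExcW)

theorem p_RRE (hHGD : Pool.MPW.Stmt_HGD) (hDLL : Stmt_DLL) (hRKL : Stmt_RKL) (hELM : Stmt_ELM) :
    Stmt_RRE := by
  intro n w d w₀ k a q Q A L ε hD hQm hInv hk ha hw hwk hn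
  obtain ⟨D₁, hgood, hhom⟩ := hHGD (w + 2) d Q hD.irr hD.hom
  have hd : 1 ≤ d := by
    by_contra h
    have hd0 : d = 0 := by omega
    have h1 : Q.totalDegree = 0 := by
      rw [hD.hom.totalDegree hD.irr.ne_zero, hd0]
    rw [totalDegree_eq_zero_iff_eq_C] at h1
    apply hD.irr.not_isUnit
    rw [h1]
    apply IsUnit.map
    rw [isUnit_iff_ne_zero]
    intro h2
    rw [h2, map_zero] at h1
    exact hD.irr.ne_zero h1
  have hrow : ∀ (j : ℕ) (l : Fin (w + 1)) (i : Fin (n + 1)),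
      (row Q D₁ A (j, l) i).IsHomogeneous ((d - 1 + (d - 1)) + j * (d - 1)) := by
    intro j l i
    induction j with
    | zero =>
      have h1 := (hDLL w Q l).2.2.1 d (d - 1) (A i) hD.hom (by
        rw [Nat.sub_add_cancel hd]
        exact hD.homA i)
      rw [zero_mul, add_zero]
      exact h1
    | succ j ih =>
      have h1 := hhom _ _ ih
      have h2 : row Q D₁ A (j + 1, l) i = D₁ (row Q D₁ A (j, l) i) :=
        Function.iterate_succ_apply' _ _ _
      rw [h2]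
      have h3 : (d - 1 + (d - 1)) + (j + 1) * (d - 1) =
          (d - 1 + (d - 1)) + j * (d - 1) + (d - 1) := by ring
      rw [h3]
      exact h1
  obtain ⟨f, hf1, hf2⟩ := hRKL n w d (k - 2) (q + 2) Q A L D₁ hD hQm hInv hgood (by omega)
    (by omega)
  obtain ⟨E, E', R, R', hR, hR', hRh, hRh', hRd, hRd', hmin⟩ :=
    hELM (w + 2) n a q Q ε (fun ρ => row Q D₁ A (f ρ))
      (fun ρ => (d - 1 + (d - 1)) + (f ρ).1 * (d - 1)) hD.irr
      (fun ρ i => hrow (f ρ).1 (f ρ).2 i) hf2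
  have hsub : Set.range (fun ρ => row Q D₁ A (f ρ)) ⊆ Rows k Q D₁ A := by
    rintro _ ⟨ρ, rfl⟩
    refine ⟨(f ρ).1, Dl Q (f ρ).2, ?_, (hDLL w Q (f ρ).2).2.1, rfl⟩
    have := hf1 ρ
    omega
  exact ⟨D₁, E, E', R, R', hgood.1, Submodule.span_mono hsub hR, Submodule.span_mono hsub hR',
    hRh, hRh', hRd, hRd', hmin⟩

end Pool.MPE
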