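import Pool.Agent.Work.MP_f82ddf_E.Optimal
import Pool.Agent.Work.MP_f82ddf_W.B_SF

set_option autoImplicit false

/-! # THEOREM E, block SFE (helper52): optimality of the dimension `n + 2 - w - k` -/

open Pool.Agent.Work.MP_f82ddf_nt.DQ

namespace Pool.MPE

open MvPolynomial
open Pool.Agent.Work.MP_f82ddf_nt (PSpace HolomorphicOn complexPoints points KobayashiHyperbolic)
open Pool.ThmP (Mor OnX OnK tm)
open Pool.MPV (Ful Full)
open Pool.MPW (ExcW)

/-- two indices where `R (j + 1)` does not vanish -/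
theorem X_SFE_two {N d : ℕ} (hN : d + 2 ≤ N) {R : Polynomial ℂ} (hR : R ≠ 0)
    (hd : R.natDegree ≤ d) :
    ∃ i j : Fin (N + 1), i ≠ j ∧ R.eval (((i : ℕ) : ℂ) + 1) ≠ 0 ∧
      R.eval (((j : ℕ) : ℂ) + 1) ≠ 0 := by
  have h1 : Polynomial.taylor 1 R ≠ 0 := by
    intro h
    exact hR (Polynomial.taylor_injective 1 (by rw [h, map_zero]))
  have h2 : (Polynomial.taylor 1 R).natDegree ≤ d := by
    rw [Polynomial.natDegree_taylor]
    exact hd
  obtain ⟨i, j, hij, hi, hj⟩ := MPW.SF_two hN h1 h2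
  rw [Polynomial.taylor_eval] at hi hj
  exact ⟨i, j, hij, hi, hj⟩

theorem p_SFE (hNSP : Stmt_NSP) (hNSO : Stmt_NSO) (hSXG : Stmt_SXG) (hSLG : Stmt_SLG)
    (hSR : MPW.Stmt_SR) : Stmt_SFE := by
  intro n w k d hw hk hwk
  obtain ⟨κ, rfl⟩ : ∃ κ, k = κ + 1 := ⟨k - 1, by omega⟩
  obtain ⟨m, hm⟩ : ∃ m, m = κ + 1 + d := ⟨_, rfl⟩
  have hmn : m ≤ n := by omega
  obtain ⟨B, hB⟩ := hNSP (AlgebraicClosure ℚ) n m w (by omega) hw (by omega)
  refine ⟨B, fun δ N hnN => ?_⟩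
  obtain ⟨q₀, hq₀⟩ := hB δ
  obtain ⟨q, hqd⟩ : ∃ q, q = max q₀ (m + 2) := ⟨_, rfl⟩
  have hq1 : q₀ ≤ q := by rw [hqd]; exact le_max_left _ _
  have hq2 : m + 2 ≤ q := by rw [hqd]; exact le_max_right _ _
  have hspan : ∀ x : Fin (n + 1) → ℚ,
      (∀ j : Fin (N + 1), ∑ i, nod ℚ m q j i * x i = 0) → x = 0 := by
    intro x hx
    by_contra hne
    have h1 := hNSO ℚ n m q N (by omega) (by omega) (by omega) x hne
    have h2 : {j : Fin (N + 1) | ∑ i : Fin (n + 1), nod ℚ m q j i * x i = 0} = Set.univ :=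
      Set.eq_univ_of_forall hx
    rw [h2, Set.ncard_univ, Nat.card_fin] at h1
    omega
  obtain ⟨S, g, hS, hfin, hne, hfull, hpt⟩ :=
    hSXG n (κ + 1) N (fun j i => nod ℚ m q j i) (by omega) hspan
  have hmap : ∀ (j : Fin (N + 1)) (i : Fin (n + 1)),
      algebraMap ℚ (AlgebraicClosure ℚ) (nod ℚ m q j i) = nod (AlgebraicClosure ℚ) m q j i := by
    intro j i
    unfold nod
    rw [map_pow, map_natCast]
  refine ⟨S, g, fun j => nod (AlgebraicClosure ℚ) m q j, hS,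
    hNSO (AlgebraicClosure ℚ) n m q N (by omega) (by omega) (by omega), hq₀ q N hq1, hfin, ?_, ?_⟩
  · intro j
    have h1 := hfull j
    have h2 : (fun i => algebraMap ℚ (AlgebraicClosure ℚ) (nod ℚ m q j i)) =
        (nod (AlgebraicClosure ℚ) m q j : Fin (n + 1) → AlgebraicClosure ℚ) :=
      funext (hmap j)
    rw [h2] at h1
    exact h1
  intro D hD τ
  have hs0 : ∀ i : Fin (d + 2), κ + (i : ℕ) < n + 1 := fun i => by
    have := i.2
    omega
  let s₀ : Fin (d + 2) ↪ Fin (n + 1) := ⟨fun i => ⟨κ + (i : ℕ), hs0 i⟩, by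
    intro i j hij
    have : κ + (i : ℕ) = κ + (j : ℕ) := congrArg Fin.val hij
    exact Fin.ext (by omega)⟩
  obtain ⟨hD0, e, hDe⟩ := hD s₀
  set P := map τ (D s₀) with hP
  have hP0 : P ≠ 0 := by
    intro h
    exact hD0 (map_injective τ τ.injective (by rw [← hP, h, map_zero]))
  have hPe : P.IsHomogeneous e := hDe.map τ
  have hPX : P * X (Fin.last (d + 1)) ≠ 0 := mul_ne_zero hP0 (X_ne_zero _)
  obtain ⟨p, hp⟩ : ∃ p : Fin (d + 2) → ℂ, eval p (P * X (Fin.last (d + 1))) ≠ 0 := by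
    by_contra hcon
    push Not at hcon
    exact hPX (MvPolynomial.funext fun x => by rw [hcon x, map_zero])
  rw [map_mul, eval_X] at hp
  have hp1 : eval p P ≠ 0 := left_ne_zero_of_mul hp
  have hp2 : p (Fin.last (d + 1)) ≠ 0 := right_ne_zero_of_mul hp
  obtain ⟨s, R, hR0, hRd, hRc⟩ := hSR κ d p hp2
  obtain ⟨i₁, i₂, hi, hR1, hR2⟩ := X_SFE_two (N := N) (d := d) (by omega) hR0 hRd
  have hρ : ∀ j : Fin (N + 1), ∃ ρ : ℂ, ρ ^ (κ + 1) = R.eval (((j : ℕ) : ℂ) + 1) := fun j =>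
    IsAlgClosed.exists_pow_nat_eq _ (by omega)
  choose ρ hρ using hρ
  have hρ0 : ∀ j : Fin (N + 1), R.eval (((j : ℕ) : ℂ) + 1) ≠ 0 → ρ j ≠ 0 := by
    intro j hj h
    apply hj
    rw [← hρ j, h, zero_pow (by omega)]
  have hinj : Function.Injective (fun j : Fin (N + 1) => (((j : ℕ) : ℂ) + 1)) := by
    intro i j hij
    have h0 : (((i : ℕ) : ℂ) + 1) = (((j : ℕ) : ℂ) + 1) := hij
    have h1 : ((i : ℕ) : ℂ) = ((j : ℕ) : ℂ) := add_right_cancel h0
    have : (i : ℕ) = (j : ℕ) := by exact_mod_cast h1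
    exact Fin.ext this
  obtain ⟨f, hf, hfc, hfz⟩ := hSLG N _ ρ hinj ⟨i₁, i₂, hi, hρ0 _ hR1, hρ0 _ hR2⟩
  have hkey : ∀ z c : ℂ, (∀ j : Fin (N + 1), (f z).rep j = c * (ρ j * ((((j : ℕ) : ℂ) + 1) - z))) →
      ∀ j : Fin (N + 1), ((f z).rep j) ^ (κ + 1) = ∑ i : Fin (n + 1),
        (c ^ (κ + 1) * (R * (Polynomial.X - Polynomial.C z) ^ (κ + 1)).coeff (i : ℕ)) *
          ((nod ℚ m q j i : ℚ) : ℂ) := by
    intro z c hc j
    have hdeg0 : (R * (Polynomial.X - Polynomial.C z) ^ (κ + 1)).natDegree ≤ m := by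
      refine Polynomial.natDegree_mul_le.trans ?_
      have h1 : ((Polynomial.X - Polynomial.C z) ^ (κ + 1)).natDegree = κ + 1 := by
        rw [Polynomial.natDegree_pow, Polynomial.natDegree_X_sub_C, mul_one]
      rw [h1]
      omega
    have h2 := Polynomial.eval_eq_sum_range' (lt_of_le_of_lt hdeg0 (Nat.lt_succ_of_le hmn))
      (((j : ℕ) : ℂ) + 1)
    rw [Polynomial.eval_mul, Polynomial.eval_pow, Polynomial.eval_sub, Polynomial.eval_X,
      Polynomial.eval_C, Finset.sum_range] at h2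
    rw [hc j, mul_pow, mul_pow, hρ j, h2, Finset.mul_sum]
    refine Finset.sum_congr rfl fun i _ => ?_
    by_cases him : (i : ℕ) ≤ m
    · have h3 : ((nod ℚ m q j i : ℚ) : ℂ) = (((j : ℕ) : ℂ) + 1) ^ (i : ℕ) := by
        unfold nod nde
        rw [if_pos him]
        push_cast
        ring
      rw [h3]
      ring
    · have h3 : (R * (Polynomial.X - Polynomial.C z) ^ (κ + 1)).coeff (i : ℕ) = 0 :=
        Polynomial.coeff_eq_zero_of_natDegree_lt (by omega)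
      rw [h3]
      ring
  refine ⟨f, hf, ?_, hfc, s, ?_⟩
  · intro z
    obtain ⟨c, hc0, hc⟩ := hfz z
    exact (hpt τ _ (f z).rep (hkey z c hc)).1
  · rintro ⟨-, hEx⟩
    obtain ⟨c, hc0, hc⟩ := hfz s
    obtain ⟨t, ht⟩ := hne
    have h1 := hEx t ht s₀
    have h2 := (hpt τ _ (f s).rep (hkey s c hc)).2 t ht
    have h3 : (fun i => eval₂ τ (f s).rep (t (s₀ i))) = fun i => c ^ (κ + 1) * p i := by
      funext i
      rw [h2 (s₀ i), ← hRc i]
      rfl
    rw [h3, eval₂_eq_eval_map, ← hP, MPW.SF_smul hPe] at h1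
    exact mul_ne_zero (pow_ne_zero _ (pow_ne_zero _ hc0)) hp1 h1

end Pool.MPE
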