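import Pool.Agent.Work.MP_f82ddf_E.Interface

set_option autoImplicit false

/-! # Block SPC: conjugation of the rows -/

namespace Pool.MPE

open MvPolynomial
open Pool.MPL (aq)

theorem SPC_iter (α : ℂ ≃+* ℂ) {N : ℕ}
    (D₁ D₂ : Derivation ℂ (MvPolynomial (Fin N) ℂ) (MvPolynomial (Fin N) ℂ))
    (h : ∀ f, D₂ (aq α f) = aq α (D₁ f)) (j : ℕ) (f : MvPolynomial (Fin N) ℂ) :
    aq α (D₁^[j] f) = D₂^[j] (aq α f) := by
  induction j generalizing f with
  | zero => rfl
  | succ j ih =>
    rw [Function.iterate_succ_apply, Function.iterate_succ_apply, ih, h]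

theorem p_SPC : Pool.MPW.Stmt_WRC → Stmt_SPC := by
  intro hWRC α N n k Q D₁ A hD
  obtain ⟨D₂, hD₂, -⟩ := hWRC α N D₁
  refine ⟨D₂, ?_, ?_⟩
  · rw [hD₂, hD]
    simp only [aq, map_zero]
  · intro R hR
    induction hR using Submodule.span_induction with
    | mem r hr =>
      obtain ⟨j, Δ, hj, hΔ, rfl⟩ := hr
      obtain ⟨Δ', hΔ', -⟩ := hWRC α N Δ
      refine Submodule.subset_span ⟨j, Δ', hj, ?_, ?_⟩
      · rw [hΔ', hΔ]
        simp only [aq, map_zero]
      · funext i
        show aq α (D₁^[j] (Δ (A i))) = D₂^[j] (Δ' (aq α (A i)))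
        rw [SPC_iter α D₁ D₂ hD₂, hΔ']
    | zero =>
      have h0 : (fun i : Fin (n + 1) => aq α ((0 : Fin (n + 1) → MvPolynomial (Fin N) ℂ) i)) = 0 := by
        funext i
        simp only [aq, Pi.zero_apply, map_zero]
      rw [h0]
      exact Submodule.zero_mem _
    | add x y _ _ hx hy =>
      have h0 : (fun i : Fin (n + 1) => aq α ((x + y) i)) =
          (fun i => aq α (x i)) + fun i => aq α (y i) := by
        funext i
        simp only [aq, Pi.add_apply, map_add]
      rw [h0]
      exact Submodule.add_mem _ hx hy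
    | smul c x _ hx =>
      have h0 : (fun i : Fin (n + 1) => aq α ((c • x) i)) = aq α c • fun i => aq α (x i) := by
        funext i
        simp only [aq, Pi.smul_apply, smul_eq_mul, map_mul]
      rw [h0]
      exact Submodule.smul_mem _ _ hx

end Pool.MPE
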