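import Pool.Agent.Work.MP_f82ddf_E.Optimal

/-! # Block SXG of THEOREM E (helper67; adapted from block SX of THEOREM W by helper72) -/

set_option autoImplicit false

open Pool.Agent.Work.MP_f82ddf_nt.DQ

namespace Pool.MPE

open MvPolynomial
open Pool.Agent.Work.MP_f82ddf_nt (PSpace HolomorphicOn complexPoints points KobayashiHyperbolic)
open Pool.ThmP (Mor OnX OnK tm)
open Pool.MPV (Ful Full)

/-- A left inverse of the matrix `l`. -/
theorem SXG_b (n N : ℕ) (l : Fin (N + 1) → Fin (n + 1) → ℚ)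
    (hl : ∀ x : Fin (n + 1) → ℚ, (∀ j, ∑ i, l j i * x i = 0) → x = 0) :
    ∃ b : Fin (n + 1) → Fin (N + 1) → ℚ, ∀ c i : Fin (n + 1),
      ∑ j : Fin (N + 1), b c j * l j i = if c = i then 1 else 0 := by
  classical
  set A : Matrix (Fin (N + 1)) (Fin (n + 1)) ℚ := Matrix.of l with hA
  have hker : LinearMap.ker (Matrix.toLin' A) = ⊥ := by
    rw [LinearMap.ker_eq_bot']
    intro x hx
    refine hl x fun j => ?_
    have h := congrFun hx j
    rw [Matrix.toLin'_apply, Matrix.mulVec, dotProduct] at h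
    exact h
  obtain ⟨g, hg⟩ := LinearMap.exists_leftInverse_of_injective (Matrix.toLin' A) hker
  have h := congrArg LinearMap.toMatrix' hg
  rw [LinearMap.toMatrix'_comp, LinearMap.toMatrix'_id, LinearMap.toMatrix'_toLin'] at h
  refine ⟨fun c j => LinearMap.toMatrix' g c j, fun c i => ?_⟩
  have h1 := congrFun (congrFun h c) i
  rw [Matrix.mul_apply, Matrix.one_apply] at h1
  exact h1

theorem SXG_claim {F : Type} [Field F] (φ : ℚ →+* F) (n k N : ℕ)
    (l : Fin (N + 1) → Fin (n + 1) → ℚ) (b : Fin (n + 1) → Fin (N + 1) → ℚ)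
    (hb : ∀ c i : Fin (n + 1), ∑ j : Fin (N + 1), b c j * l j i = if c = i then 1 else 0)
    (v : Fin (N + 1) → F)
    (hv : ∀ a : Fin (N + 1) → ℚ,
      (∀ i : Fin (n + 1), ∑ j : Fin (N + 1), a j * l j i = 0) →
      ∑ j : Fin (N + 1), φ (a j) * v j ^ k = 0) (j : Fin (N + 1)) :
    v j ^ k = ∑ c : Fin (n + 1), φ (l j c) *
      ∑ i : Fin (N + 1), φ (b c i) * v i ^ k := by
  classical
  have h := hv (fun i => (if i = j then 1 else 0) - ∑ c : Fin (n + 1), l j c * b c i) ?_
  · have h1 : ∀ i : Fin (N + 1), φ ((if i = j then 1 else 0) -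
        ∑ c : Fin (n + 1), l j c * b c i) * v i ^ k =
        (if i = j then v i ^ k else 0) - ∑ c : Fin (n + 1), φ (l j c) * (φ (b c i) * v i ^ k) := by
      intro i
      rw [map_sub, map_sum, sub_mul, Finset.sum_mul]
      congr 1
      · by_cases hj : i = j <;> simp [hj]
      · refine Finset.sum_congr rfl fun c _ => ?_
        rw [map_mul]
        ring
    rw [Finset.sum_congr rfl fun i _ => h1 i, Finset.sum_sub_distrib, Finset.sum_comm] at h
    simp only [Finset.sum_ite_eq', Finset.mem_univ, if_true] at h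
    rw [sub_eq_zero] at h
    rw [h]
    refine Finset.sum_congr rfl fun c _ => ?_
    rw [Finset.mul_sum]
  · intro m
    have h1 : ∀ i : Fin (N + 1), ((if i = j then 1 else 0) -
        ∑ c : Fin (n + 1), l j c * b c i) * l i m =
        (if i = j then l i m else 0) - ∑ c : Fin (n + 1), l j c * (b c i * l i m) := by
      intro i
      rw [sub_mul, Finset.sum_mul]
      congr 1
      · by_cases hj : i = j <;> simp [hj]
      · refine Finset.sum_congr rfl fun c _ => ?_
        ring
    rw [Finset.sum_congr rfl fun i _ => h1 i, Finset.sum_sub_distrib, Finset.sum_comm]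
    simp only [Finset.sum_ite_eq', Finset.mem_univ, if_true]
    have h2 : ∑ c : Fin (n + 1), ∑ i : Fin (N + 1), l j c * (b c i * l i m) =
        ∑ c : Fin (n + 1), l j c * (if c = m then 1 else 0) := by
      refine Finset.sum_congr rfl fun c _ => ?_
      rw [← Finset.mul_sum, hb c m]
    rw [h2]
    simp

theorem p_SXG (hFFB : Pool.ThmP.Stmt_FFB) : Stmt_SXG := by
  intro n k N l hk hl
  classical
  obtain ⟨M, hM⟩ := SXG_b n N l hl
  set S : Set (MvPolynomial (Fin (N + 1)) ℚ) := {F | ∃ a : Fin (N + 1) → ℚ,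
    (∀ i : Fin (n + 1), ∑ j : Fin (N + 1), a j * l j i = 0) ∧
      F = ∑ j : Fin (N + 1), C (a j) * X j ^ k} with hS
  set s : Fin (n + 1) → MvPolynomial (Fin (N + 1)) (AlgebraicClosure ℚ) := fun c =>
    ∑ i : Fin (N + 1), C (algebraMap ℚ (AlgebraicClosure ℚ) (M c i)) * X i ^ k with hs
  have hSh : ∀ F ∈ S, ∃ d, F.IsHomogeneous d := by
    rintro F ⟨a, _, rfl⟩
    refine ⟨k, IsHomogeneous.sum _ _ _ fun j _ => ?_⟩
    have := (isHomogeneous_C (Fin (N + 1)) (a j)).mul ((isHomogeneous_X ℚ j).pow k)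
    simpa using this
  have hsh : ∀ c, (s c).IsHomogeneous k := by
    intro c
    refine IsHomogeneous.sum _ _ _ fun i _ => ?_
    have := (isHomogeneous_C (Fin (N + 1)) (algebraMap ℚ (AlgebraicClosure ℚ) (M c i))).mul
      ((isHomogeneous_X (AlgebraicClosure ℚ) i).pow k)
    simpa using this
  have hOn : ∀ v : Fin (N + 1) → AlgebraicClosure ℚ, OnX S v → ∀ a : Fin (N + 1) → ℚ,
      (∀ i : Fin (n + 1), ∑ j : Fin (N + 1), a j * l j i = 0) →
      ∑ j : Fin (N + 1), algebraMap ℚ (AlgebraicClosure ℚ) (a j) * v j ^ k = 0 := by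
    intro v hv a ha
    have h := hv _ ⟨a, ha, rfl⟩
    rw [map_sum] at h
    rw [← h]
    refine Finset.sum_congr rfl fun j _ => ?_
    rw [map_mul, map_pow, aeval_X]
    congr 1
    exact (MvPolynomial.algHom_C _ _).symm
  have hev : ∀ (v : Fin (N + 1) → AlgebraicClosure ℚ) (c : Fin (n + 1)), eval v (s c) =
      ∑ i : Fin (N + 1), algebraMap ℚ (AlgebraicClosure ℚ) (M c i) * v i ^ k := by
    intro v c
    simp only [hs, map_sum, map_mul, map_pow, eval_C, eval_X]
  have hcl : ∀ v : Fin (N + 1) → AlgebraicClosure ℚ, OnX S v → ∀ j : Fin (N + 1),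
      v j ^ k = ∑ c : Fin (n + 1), algebraMap ℚ (AlgebraicClosure ℚ) (l j c) *
        eval v (s c) := by
    intro v hv j
    rw [SXG_claim (algebraMap ℚ (AlgebraicClosure ℚ)) n k N l M hM v (hOn v hv) j]
    simp only [hev]
  have hz : ∀ v : Fin (N + 1) → AlgebraicClosure ℚ, OnX S v → (∀ c, eval v (s c) = 0) → v = 0 := by
    intro v hv h0
    funext j
    have h1 := hcl v hv j
    simp only [h0, mul_zero, Finset.sum_const_zero] at h1
    exact pow_eq_zero_iff (by omega : k ≠ 0) |>.1 h1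
  obtain ⟨g, hg, hgf⟩ := hFFB ℚ (AlgebraicClosure ℚ) N n k S s hSh hk hsh hz
  refine ⟨S, g, hSh, hgf, ?_, ?_, ?_⟩
  · rw [hg]
    exact ⟨s, rfl⟩
  · intro j v hv hvX
    refine ⟨s, by rw [hg]; rfl, ?_, 0, 1, 1, fun _ => X j, fun _ => 1, fun _ => k,
      isHomogeneous_one _ _, fun _ => isHomogeneous_X _ _, fun _ => le_rfl, by simp, ?_⟩
    · by_contra h
      push Not at h
      exact hv (hz v hvX h)
    · intro u hu
      simp only [map_one, one_mul, Finset.univ_unique, Finset.prod_singleton, eval_X]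
      rw [hcl u hu j]
  · intro τ x y hy
    constructor
    · rintro F ⟨a, ha, rfl⟩
      rw [eval₂_sum]
      have h1 : ∀ j : Fin (N + 1), eval₂ (τ.comp (algebraMap ℚ (AlgebraicClosure ℚ))) y
          (C (a j) * X j ^ k) = ∑ i : Fin (n + 1), x i * ((a j : ℂ) * (l j i : ℂ)) := by
        intro j
        rw [eval₂_mul, eval₂_C, eval₂_pow, eval₂_X, hy j, Finset.mul_sum]
        refine Finset.sum_congr rfl fun i _ => ?_
        rw [eq_ratCast (τ.comp (algebraMap ℚ (AlgebraicClosure ℚ))) (a j)]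
        ring
      rw [Finset.sum_congr rfl fun j _ => h1 j, Finset.sum_comm]
      refine Finset.sum_eq_zero fun i _ => ?_
      rw [← Finset.mul_sum]
      have h2 : ∑ j : Fin (N + 1), ((a j : ℂ) * (l j i : ℂ)) =
          ((∑ j : Fin (N + 1), a j * l j i : ℚ) : ℂ) := by
        push_cast
        rfl
      rw [h2, ha i]
      simp
    · intro s' hs' c
      rw [hg, Set.mem_singleton_iff] at hs'
      rw [hs']
      simp only [hs]
      rw [eval₂_sum]
      have h1 : ∀ i : Fin (N + 1), eval₂ τ y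
          (C (algebraMap ℚ (AlgebraicClosure ℚ) (M c i)) * X i ^ k) =
          ∑ m : Fin (n + 1), x m * ((M c i : ℂ) * (l i m : ℂ)) := by
        intro i
        rw [eval₂_mul, eval₂_C, eval₂_pow, eval₂_X, hy _, Finset.mul_sum]
        refine Finset.sum_congr rfl fun m _ => ?_
        rw [show τ (algebraMap ℚ (AlgebraicClosure ℚ) (M c i)) =
          (τ.comp (algebraMap ℚ (AlgebraicClosure ℚ))) (M c i) from rfl,
          eq_ratCast (τ.comp (algebraMap ℚ (AlgebraicClosure ℚ))) (M c i)]
        ring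
      rw [Finset.sum_congr rfl fun i _ => h1 i, Finset.sum_comm]
      have h2 : ∀ m : Fin (n + 1), ∑ i : Fin (N + 1),
          x m * ((M c i : ℂ) * (l i m : ℂ)) = if c = m then x m else 0 := by
        intro m
        rw [← Finset.mul_sum]
        have h3 : ∑ i : Fin (N + 1), ((M c i : ℂ) * (l i m : ℂ)) =
            ((∑ i : Fin (N + 1), M c i * l i m : ℚ) : ℂ) := by
          push_cast
          rfl
        rw [h3, hM c m]
        by_cases hcm : c = m <;> simp [hcm]
      rw [Finset.sum_congr rfl fun m _ => h2 m]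
      simp

end Pool.MPE
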