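import Pool.Agent.Work.MP_f82ddf_E.Nodes
import Pool.Agent.Work.MP_f82ddf_M.T_FIN

set_option autoImplicit false

/-! # THEOREM E, block T3L (helper27): T3 with linear lifts and equations of the nodes -/

namespace Pool.MPE

open MvPolynomial Finset
open Pool.ThmM

/-- the matrix of the lifts -/
noncomputable def T3L_L {r : ℕ} (w : ℕ) (c : Fin (r + 1) → ℂ)
    (g : Matrix (Fin (r + 1)) (Fin (r + 1)) ℂ) : Matrix (Fin (w + 2)) (Fin (r + 1)) ℂ :=
  fun j i => if (j : ℕ) ≤ w then g (Fin.ofNat (r + 1) j) i else ∑ k, c k * g k i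

theorem T3L_mulVec {r : ℕ} (w : ℕ) (c : Fin (r + 1) → ℂ)
    (g : Matrix (Fin (r + 1)) (Fin (r + 1)) ℂ) (u : Fin (r + 1) → ℂ) :
    (T3L_L w c g).mulVec u = subPt w c (g.mulVec u) := by
  funext j
  show ∑ i, T3L_L w c g j i * u i = subPt w c (g.mulVec u) j
  unfold T3L_L subPt
  by_cases hj : (j : ℕ) ≤ w
  · simp only [if_pos hj]
    rfl
  · simp only [if_neg hj]
    show ∑ i, (∑ k, c k * g k i) * u i = ∑ k, c k * ∑ i, g k i * u i
    simp only [Finset.sum_mul, Finset.mul_sum]
    rw [Finset.sum_comm]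
    exact Finset.sum_congr rfl fun k _ => Finset.sum_congr rfl fun i _ => by ring

/-- the linear substitution of a matrix -/
noncomputable def T3L_sub {r : ℕ} (g : Matrix (Fin (r + 1)) (Fin (r + 1)) ℂ) :
    Pr r →ₐ[ℂ] Pr r :=
  aeval fun k => ∑ l, C (g k l) * X l

theorem T3L_eval {r : ℕ} (g : Matrix (Fin (r + 1)) (Fin (r + 1)) ℂ) (u : Fin (r + 1) → ℂ)
    (F : Pr r) : eval u (T3L_sub g F) = eval (g.mulVec u) F := by
  have h : (eval u).comp (T3L_sub g).toRingHom = eval (g.mulVec u) := by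
    apply MvPolynomial.ringHom_ext
    · intro a
      show eval u (T3L_sub g (C a)) = eval (g.mulVec u) (C a)
      unfold T3L_sub
      rw [aeval_C, eval_C]
      show eval u (C a) = a
      rw [eval_C]
    · intro i
      show eval u (T3L_sub g (X i)) = eval (g.mulVec u) (X i)
      unfold T3L_sub
      rw [aeval_X, eval_X, map_sum]
      show _ = ∑ l, g i l * u l
      exact Finset.sum_congr rfl fun l _ => by rw [map_mul, eval_C, eval_X]
  exact congrArg (fun f => f F) h

theorem T3L_hom {r : ℕ} (g : Matrix (Fin (r + 1)) (Fin (r + 1)) ℂ) {F : Pr r} {D : ℕ}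
    (hF : F.IsHomogeneous D) : (T3L_sub g F).IsHomogeneous D := by
  have h := hF.aeval (fun k => ∑ l, C (g k l) * X l) (n := 1) (fun k =>
    IsHomogeneous.sum _ _ _ fun l _ => isHomogeneous_C_mul_X _ _)
  rw [one_mul] at h
  exact h

/-- monic equations are homogeneous -/
theorem T3L_monHom {r w D : ℕ} {i : Fin (r + 1)} {E : Pr r} (h : IsMon w D i E) :
    E.IsHomogeneous D := by
  obtain ⟨c, hc, rfl⟩ := h
  refine IsHomogeneous.add (by simpa using isHomogeneous_X_pow i D) ?_
  refine IsHomogeneous.sum _ _ _ fun j hj => ?_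
  have h1 := ((hc j (mem_range.1 hj)).2).mul (isHomogeneous_X_pow (R := ℂ) i j)
  have h2 := mem_range.1 hj
  have h3 : D - j + j = D := by omega
  rw [h3] at h1
  exact h1

/-- a form of positive degree vanishes if its variables do -/
theorem T3L_low {r w e : ℕ} {f : Pr r} (hf : Low w f) (hh : f.IsHomogeneous e) (he : 0 < e)
    {v : Fin (r + 1) → ℂ} (hv : ∀ i : Fin (r + 1), (i : ℕ) ≤ w → v i = 0) : eval v f = 0 := by
  have h1 : aeval v f = algebraMap ℂ ℂ (constantCoeff f) :=
    aeval_eq_constantCoeff_of_vars fun i hi => hv i (hf i hi)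
  have h2 : constantCoeff f = 0 := by
    show coeff 0 f = 0
    apply hh.coeff_eq_zero
    simp only [map_zero]
    omega
  rw [h2, map_zero] at h1
  rw [← coe_aeval_eq_eval]
  exact h1

theorem T3L_monRoot {r w D : ℕ} {i : Fin (r + 1)} {E : Pr r} (h : IsMon w D i E) (_hD : 1 ≤ D)
    {v : Fin (r + 1) → ℂ} (hv : ∀ i : Fin (r + 1), (i : ℕ) ≤ w → v i = 0)
    (h0 : eval v E = 0) : v i = 0 := by
  obtain ⟨c, hc, rfl⟩ := h
  rw [map_add, map_pow, eval_X, map_sum] at h0
  have h1 : ∑ j ∈ range D, eval v (c j * X i ^ j) = 0 := by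
    refine Finset.sum_eq_zero fun j hj => ?_
    have hj' := mem_range.1 hj
    rw [map_mul, T3L_low (hc j hj').1 (hc j hj').2 (by omega) hv, zero_mul]
  rw [h1, add_zero] at h0
  exact eq_zero_of_pow_eq_zero h0

theorem p_T3L (hTERM : Stmt_TERM) (hPRB : Stmt_PRB) (hSUB : Stmt_SUB) (hELI : Stmt_ELI) :
    Stmt_T3L := by
  classical
  intro r β B
  obtain ⟨N₁, Dmax, hT⟩ := hTERM r fun w D => ∑ d ∈ range (D ^ r + 1), d * (β w d + B D + 1 + d)
  refine ⟨N₁, max (Dmax ^ r) Dmax, fun S hS hcard => ?_⟩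
  obtain ⟨w, D, P, g, T₀, hw, hD, hdat, hg, hT₀, hOn, hNV⟩ := hT S hS hcard
  obtain ⟨d, c, Q, A', hd, hdD, hirr, hhom, hLM, hhA, hQP, hAP⟩ := hPRB r w D P hdat
  have hwr := hdat.le
  have hSub := (hSUB r w c).1
  set QT := pderiv (Fin.last (w + 1)) Q with hQT
  set lift : (Fin (r + 1) → ℂ) → (Fin (w + 2) → ℂ) := fun u => subPt w c (g.mulVec u) with hlift
  have hliftL : (fun u : Fin (r + 1) → ℂ => (T3L_L w c g).mulVec u) = lift := by
    funext u
    exact T3L_mulVec w c g u
  have hliftL' : ∀ u : Fin (r + 1) → ℂ, (T3L_L w c g).mulVec u = lift u := fun u =>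
    T3L_mulVec w c g u
  have hprime : Prime Q := hirr.prime
  have hdr : d ≤ D ^ r := hdD.trans (Nat.pow_le_pow_right hdat.pos (by omega))
  -- facts for all the points of `T₀`
  have hzero : ∀ u ∈ T₀, eval (lift u) Q = 0 := by
    intro u hu
    rw [hlift, ← hSub]
    exact hOn u hu _ hQP
  have hAval : ∀ u ∈ T₀, ∀ i, eval (lift u) (A' i) = eval (lift u) QT * (g.mulVec u) i := by
    intro u hu i
    have h1 := hOn u hu _ (hAP i)
    rw [map_sub, map_mul, eval_X, hSub, hSub] at h1
    exact sub_eq_zero.1 h1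
  set T := T₀.filter fun u => eval (lift u) QT ≠ 0 with hTdef
  have hTT : ∀ u ∈ T, u ∈ T₀ := fun u hu => (mem_filter.1 hu).1
  -- divisibility
  have hdiv : ∀ (e : ℕ) (f : MvPolynomial (Fin (w + 2)) ℂ), e ≤ β w d + B D + 1 →
      f.IsHomogeneous e → (∀ u ∈ T, eval (lift u) f = 0) → Q ∣ f := by
    intro e f he hf hfT
    by_contra hnd
    have hH : ¬ Q ∣ f * QT := by
      intro h
      rcases hprime.dvd_or_dvd h with h | h
      · exact hnd h
      · exact FIN.not_dvd_pderiv hd hLM hhom hprime.ne_zero h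
    obtain ⟨e', h, he', hhh, hh0, hvan⟩ := hELI w d (e + (d - 1)) Q (f * QT) hd hirr hhom hLM
      (hf.mul hhom.pderiv) hH
    let κ : Fin (w + 1) → Fin (r + 1) := fun j => Fin.ofNat (r + 1) j
    have hκv : ∀ j : Fin (w + 1), ((κ j : Fin (r + 1)) : ℕ) = j := by
      intro j
      have := j.2
      simp only [κ, Fin.ofNat]
      exact Nat.mod_eq_of_lt (by omega)
    have hκ : Function.Injective κ := by
      intro i j hij
      apply Fin.ext
      rw [← hκv i, ← hκv j, hij]
    have hbound : e' ≤ ∑ d ∈ range (D ^ r + 1), d * (β w d + B D + 1 + d) := by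
      refine he'.trans ?_
      have h1 : d * (e + (d - 1)) ≤ d * (β w d + B D + 1 + d) :=
        Nat.mul_le_mul_left _ (by omega)
      refine h1.trans ?_
      exact Finset.single_le_sum (f := fun d => d * (β w d + B D + 1 + d))
        (fun _ _ => Nat.zero_le _) (mem_range.2 (by omega))
    obtain ⟨u, hu, hne⟩ := hNV e' (rename κ h) hbound hhh.rename_isHomogeneous (by
      intro i hi
      obtain ⟨j, -, rfl⟩ := mem_vars_rename κ h hi
      have h1 := hκv j
      have h2 := j.2
      omega) (by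
      intro h0
      apply hh0
      apply rename_injective κ hκ
      rw [h0, map_zero])
    apply hne
    rw [eval_rename]
    have h1 : (g.mulVec u) ∘ κ = fun j : Fin (w + 1) => lift u j.castSucc := by
      funext j
      have h2 := j.2
      simp only [hlift, subPt, Function.comp, κ]
      rw [if_pos (by simp; omega)]
      rfl
    rw [h1]
    apply hvan _ (hzero u hu)
    rw [map_mul]
    by_cases h2 : eval (lift u) QT = 0
    · rw [h2, mul_zero]
    · rw [hfT u (mem_filter.2 ⟨hu, h2⟩), zero_mul]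
  -- cardinality
  have hcardT : β w d + B D + 1 ≤ T.card := by
    by_contra hlt
    rw [not_le] at hlt
    choose l hl1 hl2 hl3 using fun u : Fin (r + 1) → ℂ => FIN.linform hw hd hLM (lift u)
    have h1 : (∏ u ∈ T, l u).IsHomogeneous T.card := by
      have := IsHomogeneous.prod T l (fun _ => 1) fun u _ => hl1 u
      simpa using this
    have h2 := hdiv T.card (∏ u ∈ T, l u) hlt.le h1 (by
      intro u hu
      rw [map_prod]
      exact Finset.prod_eq_zero hu (hl2 u))
    rw [Prime.dvd_finsetProd_iff hprime] at h2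
    obtain ⟨u, -, hu⟩ := h2
    exact hl3 u hu
  -- the equations
  have hmon : ∀ i : Fin (r + 1), ∃ F : Pr r, F.IsHomogeneous D ∧ F ∈ P ∧
      (w < (i : ℕ) → IsMon w D i F) := by
    intro i
    by_cases hi : w < (i : ℕ)
    · obtain ⟨F, hF, hm⟩ := hdat.mon i hi
      exact ⟨F, T3L_monHom hm, hF, fun _ => hm⟩
    · exact ⟨0, isHomogeneous_zero _ _ _, P.zero_mem, fun h => absurd h hi⟩
  choose F hF1 hF2 hF3 using hmon
  refine ⟨w, d, D, Q, fun i => ∑ j, C (g⁻¹ i j) * A' j, T, T3L_L w c g, fun i => T3L_sub g (F i),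
    fun j i => g (Fin.ofNat (r + 1) j) i, ?_, ?_, ?_, ?_, ?_, ?_, ?_, ?_, ?_⟩
  · rw [hliftL]
    refine ⟨hw, hwr, hd, hirr, hhom, hLM, ?_, ?_, ?_, ?_⟩
    · intro i
      exact IsHomogeneous.sum _ _ _ fun j _ => (hhA j).C_mul _
    · exact fun u hu => hzero u (hTT u hu)
    · exact fun u hu => (mem_filter.1 hu).2
    · intro u hu
      refine ⟨eval (lift u) QT, (mem_filter.1 hu).2, fun i => ?_⟩
      rw [map_sum]
      simp only [map_mul, eval_C, hAval u (hTT u hu)]
      have h1 : (g⁻¹).mulVec (g.mulVec u) = u := by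
        rw [Matrix.mulVec_mulVec, Matrix.nonsing_inv_mul _ hg, Matrix.one_mulVec]
      have h2 : ∑ j, g⁻¹ i j * (g.mulVec u) j = u i := by
        conv_rhs => rw [← h1]
        rfl
      rw [← h2, Finset.mul_sum]
      exact Finset.sum_congr rfl fun j _ => by ring
  · exact (hdr.trans (Nat.pow_le_pow_left hD r)).trans (le_max_left _ _)
  · exact fun u hu => hT₀ (hTT u hu)
  · omega
  · intro e f he hf hfT
    refine hdiv e f (by omega) hf fun u hu => ?_
    rw [← hliftL']
    exact hfT u hu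
  · exact hD.trans (le_max_right _ _)
  · omega
  · intro i
    refine ⟨T3L_hom g (hF1 i), fun u hu => ?_⟩
    rw [T3L_eval]
    exact hOn u (hTT u hu) _ (hF2 i)
  · intro u hE hh
    have hv : ∀ i : Fin (r + 1), (i : ℕ) ≤ w → (g.mulVec u) i = 0 := by
      intro i hi
      have h1 : ∑ k, g (Fin.ofNat (r + 1) (i : ℕ)) k * u k = 0 := hh ⟨i, by omega⟩
      have h2 : Fin.ofNat (r + 1) (i : ℕ) = i := by
        apply Fin.ext
        simp only [Fin.ofNat]
        exact Nat.mod_eq_of_lt i.2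
      rw [h2] at h1
      exact h1
    have hv0 : g.mulVec u = 0 := by
      funext i
      by_cases hi : (i : ℕ) ≤ w
      · exact hv i hi
      · have h1 := hE i
        rw [T3L_eval] at h1
        exact T3L_monRoot (hF3 i (by omega)) hdat.pos hv h1
    have h1 : (g⁻¹).mulVec (g.mulVec u) = u := by
      rw [Matrix.mulVec_mulVec, Matrix.nonsing_inv_mul _ hg, Matrix.one_mulVec]
    rw [← h1, hv0, Matrix.mulVec_zero]

end Pool.MPE
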