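import Pool.Agent.Work.MP_f82ddf_E.Interface

set_option autoImplicit false

/-!
# Block UGM (helper63)
-/

namespace Pool.MPE

open MvPolynomial
open Pool.Agent.Work.MP_f82ddf_M5 (chow comb)
open Pool.MPL (RX)
open Pool.MPW (UG)

theorem p_UGM : Pool.Agent.Work.MP_f82ddf_M5.Stmt_FUN → Stmt_UGM := by
  intro hFUN N a d D Q B K _ φ
  unfold UG
  rw [hFUN.2.2.2.2.2, map_map]
  congr 1
  unfold comb
  rw [map_sum]
  refine Finset.sum_congr rfl fun i _ => ?_
  rw [map_mul, map_C, map_map]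

end Pool.MPE
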