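import Pool.Agent.Work.MP_f82ddf_E.Interface

set_option autoImplicit false

/-! # Block UNE (helper21): the two universal Chow forms under a specialization -/

open Pool.Agent.Work.MP_f82ddf_nt.DQ

namespace Pool.MPE

open MvPolynomial
open Pool.Agent.Work.MP_f82ddf_M5 (lineAt resAt chow at2 comb Data GoodDer)
open Pool.ThmM.Chow (ppt Phi Mov subC PluF)
open Pool.MPL (RX NC aq ae NPr Spn)
open Pool.MPW (pv OrdGE UG ExcW)
open Pool.MPH (MovR InFibre)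

/-- `φ = (aeval x) ∘ (map α)` -/
private noncomputable def UNE_phi {a : ℕ} (α : ℂ ≃+* ℂ) (x : Fin (a + 1) → Mer) : RX a →+* Mer :=
  ((aeval x : RX a →ₐ[ℂ] Mer) : RX a →+* Mer).comp (map (α : ℂ →+* ℂ))

private lemma UNE_phi_alg {a : ℕ} (α : ℂ ≃+* ℂ) (x : Fin (a + 1) → Mer) :
    (UNE_phi α x).comp (algebraMap ℂ (RX a)) = (algebraMap ℂ Mer).comp (α : ℂ →+* ℂ) := by
  ext z
  simp [UNE_phi, algebraMap_eq]

private lemma UNE_phi_X {a : ℕ} (α : ℂ ≃+* ℂ) (x : Fin (a + 1) → Mer) (i : Fin (a + 1)) :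
    UNE_phi α x (X i) = x i := by
  simp [UNE_phi]

private lemma UNE_phi_C {a : ℕ} (α : ℂ ≃+* ℂ) (x : Fin (a + 1) → Mer) (z : ℂ) :
    UNE_phi α x (C z) = algebraMap ℂ Mer (α z) := by
  simp [UNE_phi]

private lemma UNE_UG {N a : ℕ} (hUGM : Stmt_UGM) (d D : ℕ)
    (Q : MvPolynomial (Fin N) ℂ) (B : Fin (a + 1) → MvPolynomial (Fin N) ℂ) (α : ℂ ≃+* ℂ)
    (x : Fin (a + 1) → Mer) :
    map (UNE_phi α x) (UG d D Q B) = chow d D (map (algebraMap ℂ Mer) (aq α Q))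
      (comb (algebraMap ℂ Mer) (fun i => aq α (B i)) x) := by
  have h1 := hUGM N a d D Q B Mer (UNE_phi α x)
  rw [UNE_phi_alg] at h1
  rw [h1]
  have h2 : map ((algebraMap ℂ Mer).comp (α : ℂ →+* ℂ)) Q = map (algebraMap ℂ Mer) (aq α Q) := by
    rw [aq, map_map]
  have h3 : comb ((algebraMap ℂ Mer).comp (α : ℂ →+* ℂ)) B (fun i => UNE_phi α x (X i)) =
      comb (algebraMap ℂ Mer) (fun i => aq α (B i)) x := by
    unfold comb
    refine Finset.sum_congr rfl fun i _ => ?_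
    have h4 : map ((algebraMap ℂ Mer).comp (α : ℂ →+* ℂ)) (B i) =
        map (algebraMap ℂ Mer) (aq α (B i)) := by
      rw [aq, map_map]
    change C (UNE_phi α x (X i)) * map ((algebraMap ℂ Mer).comp (α : ℂ →+* ℂ)) (B i) =
      C (x i) * map (algebraMap ℂ Mer) (aq α (B i))
    rw [UNE_phi_X, h4]
  rw [h2, h3]

theorem p_UNE : Stmt_UGM → Stmt_UGZ → Stmt_NCM → Stmt_DS3 → Stmt_UNE := by
  intro hUGM hUGZ hNCM hDS3 w a d D D' Q B B' hQ hQd hLM hB hB' hmin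
  have hBi : ∃ i, ¬ Q ∣ B i := by
    by_contra hcon
    push Not at hcon
    obtain ⟨i, j, hij⟩ := hmin
    exact hij (dvd_sub (Dvd.dvd.mul_right (hcon i) _) (Dvd.dvd.mul_right (hcon j) _))
  have hBi' : ∃ i, ¬ Q ∣ B' i := by
    by_contra hcon
    push Not at hcon
    obtain ⟨i, j, hij⟩ := hmin
    exact hij (dvd_sub (Dvd.dvd.mul_left (hcon j) _) (Dvd.dvd.mul_left (hcon i) _))
  have hU := hUGZ (w + 2) a d D Q B hQ hQd hB hBi
  have hU' := hUGZ (w + 2) a d D' Q B' hQ hQd hB' hBi'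
  obtain ⟨D₀, hD0, hD⟩ := hDS3 (Fin 2 × Fin (w + 2)) a (UG d D Q B) (UG d D' Q B') hU hU'
    (hNCM w a d D D' Q B B' hQ hQd hLM hB hB' hmin)
  refine ⟨D₀, hD0, fun α x P hPirr hPmov h1 h2 => ?_⟩
  rw [← UNE_UG hUGM] at h1 h2
  exact hD α (UNE_phi α x) (UNE_phi_C α x) P hPirr hPmov h1 h2

end Pool.MPE
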