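import Pool.Agent.Work.MP_f82ddf_E.Interface

set_option autoImplicit false

/-! # Block VNR (helper29): all the rows vanish at the generic point

Adapted from `MP_f82ddf_W/B_PWT.lean`. -/

open Pool.Agent.Work.MP_f82ddf_nt.DQ

namespace Pool.MPE

open MvPolynomial
open Pool.Agent.Work.MP_f82ddf_M5 (lineAt resAt chow at2 comb Data GoodDer)
open Pool.MPW (pv OrdGE)

theorem VNR_comb_map {N n : ℕ} {M F : Type} [Field M] [Field F] (ψ : ℂ →+* M) (φ : M →+* F)
    (A : Fin (n + 1) → MvPolynomial (Fin N) ℂ) (x : Fin (n + 1) → M) :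
    comb (φ.comp ψ) A (fun i => φ (x i)) = map φ (comb ψ A x) := by
  unfold comb
  rw [map_sum]
  refine Finset.sum_congr rfl fun i _ => ?_
  rw [map_mul, map_C, map_map]

theorem VNR_comb_hom {N n D : ℕ} {M : Type} [Field M] (ψ : ℂ →+* M)
    (A : Fin (n + 1) → MvPolynomial (Fin N) ℂ) (hA : ∀ i, (A i).IsHomogeneous D)
    (x : Fin (n + 1) → M) : (comb ψ A x).IsHomogeneous D := by
  unfold comb
  refine IsHomogeneous.sum _ _ _ fun i _ => ?_
  have h := (isHomogeneous_C (Fin N) (x i)).mul ((hA i).map ψ)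
  rwa [zero_add] at h

/-- an element of order at least `1` vanishes at the point -/
theorem VNR_eval {N : ℕ} {F : Type} [Field F] (Q : MvPolynomial (Fin N) F) (v : Fin N → F)
    (hQ : eval v Q = 0) (g : MvPolynomial (Fin N) F) (hg : OrdGE Q v 1 g) : eval v g = 0 := by
  obtain ⟨h, hh, hmem⟩ := hg
  have hle : (RingHom.ker (eval v : MvPolynomial (Fin N) F →+* F)) ^ 1 ⊔ Ideal.span {Q} ≤
      RingHom.ker (eval v : MvPolynomial (Fin N) F →+* F) := by
    rw [pow_one]
    refine sup_le le_rfl ?_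
    rw [Ideal.span_singleton_le_iff_mem, RingHom.mem_ker]
    exact hQ
  have h1 := RingHom.mem_ker.1 (hle hmem)
  rw [map_mul] at h1
  exact (mul_eq_zero.1 h1).resolve_left hh

/-- VNR (helper29) -/
theorem p_VNR (hGPV : Stmt_GPV) (hNDX : Pool.MPW.Stmt_NDX) (hCNZ : Pool.MPW.Stmt_CNZ)
    (hOVF : Pool.MPW.Stmt_OVF) (hOWR : Pool.MPW.Stmt_OWR) (hDEX : Stmt_DEX)
    (hFUN : Pool.Agent.Work.MP_f82ddf_M5.Stmt_FUN) : Stmt_VNR := by
  intro M _ _ w n d k Q A hdat hk x P hx hP hmov hdvd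
  obtain ⟨_, _, _, _, _, hF6⟩ := hFUN
  obtain ⟨e, rfl⟩ : ∃ e, d = e + 1 := by
    rcases d with _ | e
    · exfalso
      have h0 : Q.totalDegree = 0 := hdat.hom.totalDegree hdat.irr.ne_zero
      rw [totalDegree_eq_zero_iff_eq_C] at h0
      refine hdat.irr.not_isUnit ?_
      rw [h0]
      refine (isUnit_iff_ne_zero.mpr fun hc => hdat.irr.ne_zero ?_).map C
      rw [h0, hc, map_zero]
    · exact ⟨e, rfl⟩
  have h3 : (comb (algebraMap ℂ M) A x).IsHomogeneous (e + 1) := VNR_comb_hom _ A hdat.homA x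
  have h4 : ¬ map (algebraMap ℂ M) Q ∣ comb (algebraMap ℂ M) A x := fun h =>
    hx (hNDX _ _ _ _ Q A hdat M x h)
  have h5 : chow (e + 1) (e + 1) (map (algebraMap ℂ M) Q) (comb (algebraMap ℂ M) A x) ≠ 0 :=
    hCNZ _ _ _ _ Q A hdat M x hx
  have h7 : P ∣ chow (e + 1) (e + 1) (map (algebraMap ℂ M) Q) (comb (algebraMap ℂ M) A x) :=
    (dvd_pow_self P (by omega)).trans hdvd
  obtain ⟨F, iF, iA, b, s, hgen, hQ, _, hsm, hvan⟩ := hGPV M w (e + 1) (e + 1) Q _ P hdat.irr
    hdat.hom h3 h4 h5 hP hmov h7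
  let _ : Algebra ℂ F := ((algebraMap M F).comp (algebraMap ℂ M)).toAlgebra
  have halg : algebraMap ℂ F = (algebraMap M F).comp (algebraMap ℂ M) := rfl
  have hmap : ∀ f : MvPolynomial (Fin (w + 2)) ℂ,
      map (algebraMap ℂ F) f = map (algebraMap M F) (map (algebraMap ℂ M) f) := by
    intro f
    rw [map_map, halg]
  have hcomb : ∀ (n' : ℕ) (A' : Fin (n' + 1) → MvPolynomial (Fin (w + 2)) ℂ)
      (x' : Fin (n' + 1) → M), comb (algebraMap ℂ F) A' (fun i => algebraMap M F (x' i)) =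
        map (algebraMap M F) (comb (algebraMap ℂ M) A' x') := by
    intro n' A' x'
    rw [halg]
    exact VNR_comb_map _ _ A' x'
  have hxF : (fun i => algebraMap M F (x i)) ≠ 0 := by
    intro h
    apply hx
    funext i
    exact (map_eq_zero_iff _ (algebraMap M F).injective).mp (congrFun h i)
  have hQv : eval (pv b s) (map (algebraMap ℂ F) Q) = 0 := by
    rw [hmap, eval_map]
    exact hQ
  have hsm1 : ∃ i, eval (pv b s) (pderiv i (map (algebraMap ℂ F) Q)) ≠ 0 := by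
    obtain ⟨j, hj⟩ := hsm
    refine ⟨j, ?_⟩
    rw [pderiv_map, hmap, eval_map]
    exact hj
  have hord := hOVF F (w + 2) n e (e + 1) k Q A hdat (fun i => algebraMap M F (x i))
    (pv b s) hxF hQv hsm1 (map (algebraMap M F) P)
    (by
      rw [hcomb, hmap, ← hF6, ← map_pow]
      exact map_dvd (map (algebraMap M F)) hdvd)
    (by
      intro b'
      have h := hvan b'
      unfold at2 at h ⊢
      rw [coe_eval₂Hom] at h ⊢
      rw [eval₂_map]
      exact h)
  refine ⟨F, iF, iA, b, s, hgen, hQ, ?_⟩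
  intro D₁ Δ hD₁ hΔ j hj
  obtain ⟨ΔF, hΔ1, hΔ2⟩ := hDEX F (w + 2) Δ
  obtain ⟨δ, hδ1, hδ2⟩ := hDEX F (w + 2) D₁
  obtain ⟨p1, _, _, _⟩ := hOWR F (w + 2) (map (algebraMap ℂ F) Q) (pv b s) ΔF
    (by rw [hΔ1, hΔ, map_zero])
  obtain ⟨o1, _, _, o4⟩ := hOWR F (w + 2) (map (algebraMap ℂ F) Q) (pv b s) δ
    (by rw [hδ1, hD₁, map_zero])
  have hstart : OrdGE (map (algebraMap ℂ F) Q) (pv b s) (k - 1)
      (comb (algebraMap ℂ F) (fun i => Δ (A i)) (fun i => algebraMap M F (x i))) := by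
    rw [← hΔ2]
    refine p1 _ _ ?_
    rwa [show k - 1 + 1 = k by omega]
  have hjs : ∀ j : ℕ, j + 2 ≤ k → OrdGE (map (algebraMap ℂ F) Q) (pv b s) (k - 1 - j)
      (comb (algebraMap ℂ F) (fun i => D₁^[j] (Δ (A i))) (fun i => algebraMap M F (x i))) := by
    intro j
    induction j with
    | zero => intro _; exact hstart
    | succ j ih =>
      intro hj
      have h := ih (by omega)
      have h8 : comb (algebraMap ℂ F) (fun i => D₁^[j + 1] (Δ (A i)))
          (fun i => algebraMap M F (x i)) =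
          δ (comb (algebraMap ℂ F) (fun i => D₁^[j] (Δ (A i))) (fun i => algebraMap M F (x i))) := by
        rw [hδ2]
        congr 1
        funext i
        exact Function.iterate_succ_apply' _ _ _
      rw [h8]
      refine o1 _ _ ?_
      rwa [show k - 1 - j = k - 1 - (j + 1) + 1 by omega] at h
  have h9 := VNR_eval _ _ hQv _ (o4 1 (k - 1 - j) _ (by omega) (hjs j hj))
  rw [hcomb n (fun i => D₁^[j] (Δ (A i))) x, eval_map] at h9
  exact h9

end Pool.MPE
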