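import Pool.Agent.Work.MP_f82ddf_W.All2
import Pool.Agent.Work.MP_f82ddf_H.All
import Pool.Agent.Work.MP_f82ddf_E.B_T3L
import Pool.Agent.Work.MP_f82ddf_E.B_BIR
import Pool.Agent.Work.MP_f82ddf_E.B_DLL
import Pool.Agent.Work.MP_f82ddf_E.B_JAC
import Pool.Agent.Work.MP_f82ddf_E.B_ERN
import Pool.Agent.Work.MP_f82ddf_E.B_QDR
import Pool.Agent.Work.MP_f82ddf_E.B_CLD
import Pool.Agent.Work.MP_f82ddf_E.B_RKV
import Pool.Agent.Work.MP_f82ddf_E.B_RKL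
import Pool.Agent.Work.MP_f82ddf_E.B_ELM
import Pool.Agent.Work.MP_f82ddf_E.B_RRE
import Pool.Agent.Work.MP_f82ddf_E.B_SPC
import Pool.Agent.Work.MP_f82ddf_E.B_DVC
import Pool.Agent.Work.MP_f82ddf_E.B_GPV
import Pool.Agent.Work.MP_f82ddf_E.B_OVG
import Pool.Agent.Work.MP_f82ddf_E.B_DEX
import Pool.Agent.Work.MP_f82ddf_E.B_VNR
import Pool.Agent.Work.MP_f82ddf_E.B_PWE
import Pool.Agent.Work.MP_f82ddf_E.B_UGM
import Pool.Agent.Work.MP_f82ddf_E.B_UGZ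
import Pool.Agent.Work.MP_f82ddf_E.B_CDV
import Pool.Agent.Work.MP_f82ddf_E.B_MVX
import Pool.Agent.Work.MP_f82ddf_E.B_ALI
import Pool.Agent.Work.MP_f82ddf_E.B_CNT
import Pool.Agent.Work.MP_f82ddf_E.B_NCM
import Pool.Agent.Work.MP_f82ddf_E.B_DS3
import Pool.Agent.Work.MP_f82ddf_E.B_UNE
import Pool.Agent.Work.MP_f82ddf_E.B_PTE
import Pool.Agent.Work.MP_f82ddf_E.B_NDC
import Pool.Agent.Work.MP_f82ddf_E.B_NCT
import Pool.Agent.Work.MP_f82ddf_E.B_UEE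
import Pool.Agent.Work.MP_f82ddf_E.B_MPE
import Pool.Agent.Work.MP_f82ddf_E.B_NCI
import Pool.Agent.Work.MP_f82ddf_E.B_DIE
import Pool.Agent.Work.MP_f82ddf_E.B_FE1
import Pool.Agent.Work.MP_f82ddf_E.B_FE2
import Pool.Agent.Work.MP_f82ddf_E.B_FEW
import Pool.Agent.Work.MP_f82ddf_E.B_LFD
import Pool.Agent.Work.MP_f82ddf_E.B_NSP
import Pool.Agent.Work.MP_f82ddf_E.B_NSO
import Pool.Agent.Work.MP_f82ddf_E.B_SXG
import Pool.Agent.Work.MP_f82ddf_E.B_SLG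
import Pool.Agent.Work.MP_f82ddf_E.B_SFE

/-!
# THEOREM E: assembly
-/

set_option autoImplicit false

namespace Pool.MPE

open Pool.Agent.Work.MP_f82ddf_M5 (stmt_FUN stmt_DEG stmt_RES all_LINE all_IDE)

theorem all_T3L : Stmt_T3L := p_T3L
    (Pool.ThmM.stmt_TER
      (Pool.ThmM.stmt_STE Pool.ThmM.stmt_SHP (Pool.ThmM.stmt_SHL Pool.ThmM.stmt_SHP)
        (Pool.ThmM.stmt_SHR Pool.ThmM.stmt_SHP (Pool.ThmM.stmt_SHL Pool.ThmM.stmt_SHP))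
        Pool.ThmM.stmt_RAI Pool.ThmM.stmt_RES Pool.ThmM.stmt_PRM)
      Pool.ThmM.stmt_ZRO)
    (Pool.ThmM.stmt_PRB (Pool.ThmM.stmt_PRA Pool.ThmM.stmt_PEL) Pool.ThmM.stmt_SUB)
    Pool.ThmM.stmt_SUB Pool.ThmM.stmt_ELI
theorem all_JAC : Stmt_JAC := p_JAC p_DLL
theorem all_ERN : Stmt_ERN := p_ERN p_DLL
theorem all_RKV : Stmt_RKV := p_RKV p_CLD
theorem all_RKL : Stmt_RKL := p_RKL p_QDR all_RKV all_JAC all_ERN
theorem all_RRE : Stmt_RRE := p_RRE Pool.MPW.all_HGD p_DLL all_RKL p_ELM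
theorem all_SPC : Stmt_SPC := p_SPC Pool.MPW.all_WRC
theorem all_DVC : Stmt_DVC := p_DVC stmt_FUN stmt_DEG
theorem all_GPV : Stmt_GPV := p_GPV Pool.MPW.all_GPA Pool.MPW.all_GPB Pool.MPW.all_GPC
    Pool.ThmM.Chow.q_CHP Pool.ThmM.Chow.q_PFA Pool.MPW.all_ABS
theorem all_OVG : Stmt_OVG := p_OVG stmt_FUN all_IDE Pool.MPW.all_PTK Pool.MPW.all_ABS
theorem all_VNR : Stmt_VNR := p_VNR all_GPV Pool.MPW.all_NDX Pool.MPW.all_CNZ Pool.MPW.all_OVF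
    Pool.MPW.all_OWR p_DEX stmt_FUN
theorem all_PWE : Stmt_PWE := p_PWE all_VNR all_DVC
theorem all_UGM : Stmt_UGM := p_UGM stmt_FUN
theorem all_UGZ : Stmt_UGZ := p_UGZ all_UGM all_LINE
theorem all_CDV : Stmt_CDV := p_CDV stmt_DEG
theorem all_MVX : Stmt_MVX := p_MVX Pool.MPH.all_DS1
theorem all_CNT : Stmt_CNT := p_CNT Pool.MPW.all_TRM
theorem all_NCM : Stmt_NCM := p_NCM all_MVX all_UGM all_UGZ all_CDV all_GPV all_OVG all_DVC p_ALI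
    all_CNT all_LINE stmt_FUN
theorem all_DS3 : Stmt_DS3 := p_DS3 Pool.MPH.all_DS1 Pool.MPL.all_MIR
theorem all_UNE : Stmt_UNE := p_UNE all_UGM all_UGZ all_NCM all_DS3
theorem all_PTE : Stmt_PTE := p_PTE all_T3L Pool.MPV.all_DRF p_BIR all_RRE all_SPC all_PWE all_UNE
    Pool.MPL.all_TRP Pool.MPV.all_EXF Pool.MPL.all_MVP Pool.MPL.all_MIR
theorem all_NCT : Stmt_NCT := p_NCT p_NDC
theorem all_UEE : Stmt_UEE := p_UEE all_PTE all_NCT Pool.MPL.all_AUT Pool.MPL.all_DSE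
    Pool.MPL.all_RKT
theorem all_MPE : Stmt_MPE := p_MPE all_UEE Pool.MPW.p_IJE Pool.MPL.all_SLO Pool.ThmP.all_MPT
    Pool.MPV.all_ORF
theorem all_NCI : Stmt_NCI := p_NCI Pool.ThmP.all_MPT Pool.ThmP.all_FIB Pool.ThmM0.stmt_CST
theorem all_DIE : Stmt_DIE := p_DIE all_MPE all_NCI Pool.ThmP.all_MPT Pool.ThmP.all_FIB
    Pool.ThmP.p_TRX Pool.ThmM0.stmt_HOMR
/-- THEOREM E, first part. -/
theorem all_E1 : Stmt_E1 := p_FE1 all_MPE all_NCI Pool.ThmM0.stmt_MREL Pool.ThmP.all_MPT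
/-- THEOREM E, second part. -/
theorem all_E2 : Stmt_E2 := p_FE2 all_DIE (Pool.ThmM0.stmt_IMG Pool.ThmM0.stmt_MREL)
  (Pool.ThmM0.stmt_PAI Pool.ThmM0.stmt_DHO) Pool.MCL.all_P6C Pool.ThmM0.stmt_DHO
theorem all_NSO : Stmt_NSO := p_NSO p_FEW
theorem all_NSP : Stmt_NSP := p_NSP p_FEW p_LFD Pool.MPW.all_TRM
/-- The dimension in THEOREM E is optimal. -/
theorem all_ES : Stmt_ES := p_SFE all_NSP all_NSO (p_SXG Pool.ThmP.all_FFB) p_SLG Pool.MPW.p_SR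

end Pool.MPE
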