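import Pool.Agent.Work.MP_f82ddf_E.Interface

set_option autoImplicit false

/-! # Block RKL: the rank of the rows modulo `Q` -/

namespace Pool.MPE

open MvPolynomial
open Pool.Agent.Work.MP_f82ddf_M5 (lineAt resAt chow at2 comb Data GoodDer)

theorem p_RKL (hQDR : Stmt_QDR) (hRKV : Stmt_RKV) (hJAC : Stmt_JAC) (hERN : Stmt_ERN) :
    Stmt_RKL := by
  intro n w d t s Q A L D₁ hD hQ hInv hG hs1 hs2
  obtain ⟨δ, hδ⟩ := hQDR (w + 2) Q D₁ hG.1
  have hprime : Prime Q := hD.irr.prime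
  have hIp : (Ideal.span {Q} : Ideal (MvPolynomial (Fin (w + 2)) ℂ)).IsPrime :=
    (Ideal.span_singleton_prime hprime.ne_zero).2 hprime
  have hDom : IsDomain (MvPolynomial (Fin (w + 2)) ℂ ⧸ Ideal.span {Q}) :=
    Ideal.Quotient.isDomain _
  have hmk : ∀ f : MvPolynomial (Fin (w + 2)) ℂ,
      Ideal.Quotient.mk (Ideal.span {Q}) f = 0 ↔ Q ∣ f := fun f => by
    rw [Ideal.Quotient.eq_zero_iff_mem, Ideal.mem_span_singleton]
  have hiter : ∀ (j : ℕ) (f : MvPolynomial (Fin (w + 2)) ℂ),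
      δ^[j] (Ideal.Quotient.mk (Ideal.span {Q}) f) =
        Ideal.Quotient.mk (Ideal.span {Q}) (D₁^[j] f) := by
    intro j
    induction j with
    | zero => intro f; rfl
    | succ j ih =>
      intro f
      rw [Function.iterate_succ_apply, Function.iterate_succ_apply, hδ, ih]
  have halg : ∀ z : ℂ, algebraMap ℂ (MvPolynomial (Fin (w + 2)) ℂ ⧸ Ideal.span {Q}) z =
      Ideal.Quotient.mk (Ideal.span {Q}) (C z) := fun z => rfl
  have h1 : ∀ a b : MvPolynomial (Fin (w + 2)) ℂ ⧸ Ideal.span {Q}, b ≠ 0 →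
      a * δ b = b * δ a → ∃ z : ℂ, a = algebraMap ℂ _ z * b := by
    intro a b hb hab
    obtain ⟨a', rfl⟩ := Ideal.Quotient.mk_surjective a
    obtain ⟨b', rfl⟩ := Ideal.Quotient.mk_surjective b
    have hb' : ¬ Q ∣ b' := fun h => hb ((hmk b').2 h)
    rw [hδ, hδ] at hab
    have hq : Q ∣ a' * D₁ b' - b' * D₁ a' := by
      rw [← hmk, map_sub, map_mul, map_mul, hab, sub_self]
    obtain ⟨z, hz⟩ := hG.2 a' b' hb' hq
    refine ⟨z, ?_⟩
    rw [halg, ← map_mul, ← sub_eq_zero, ← map_sub, hmk]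
    exact hz
  have h2 : LinearIndependent (MvPolynomial (Fin (w + 2)) ℂ ⧸ Ideal.span {Q})
      (fun (l : Fin (w + 1)) (i : Fin (n + 1)) =>
        Ideal.Quotient.mk (Ideal.span {Q}) (Dl Q l (A i))) := by
    rw [Fintype.linearIndependent_iff]
    intro g hg l
    have hsur : ∀ l, ∃ f, Ideal.Quotient.mk (Ideal.span {Q}) f = g l := fun l =>
      Ideal.Quotient.mk_surjective (g l)
    choose f hf using hsur
    rw [← hf l, hmk]
    refine hJAC n w d Q A L hD hQ hInv f (fun i => ?_) l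
    have := congrFun hg i
    simp only [Finset.sum_apply, Pi.smul_apply, smul_eq_mul, Pi.zero_apply] at this
    rw [← hmk, map_sum, ← this]
    refine Finset.sum_congr rfl fun l _ => ?_
    rw [map_mul, hf]
  have h3 : ∀ y : Fin (n + 1) → ℂ, (∀ l : Fin (w + 1),
      ∑ i, algebraMap ℂ (MvPolynomial (Fin (w + 2)) ℂ ⧸ Ideal.span {Q}) (y i) *
        Ideal.Quotient.mk (Ideal.span {Q}) (Dl Q l (A i)) = 0) → y = 0 := by
    intro y hy
    refine hERN n w d Q A hD hQ y fun l => ?_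
    rw [← hmk, map_sum, ← hy l]
    refine Finset.sum_congr rfl fun i _ => ?_
    rw [map_mul, halg]
  obtain ⟨f, hf1, hf2⟩ := hRKV (MvPolynomial (Fin (w + 2)) ℂ ⧸ Ideal.span {Q}) δ (n + 1) (w + 1) t s
    (fun l i => Ideal.Quotient.mk (Ideal.span {Q}) (Dl Q l (A i))) h1 h2 h3 hs1 hs2
  refine ⟨f, hf1, fun c hc ρ => ?_⟩
  have hlin := Fintype.linearIndependent_iff.1 hf2
    (fun ρ => Ideal.Quotient.mk (Ideal.span {Q}) (c ρ)) ?_ ρ
  · exact (hmk _).1 hlin
  · funext i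
    simp only [Finset.sum_apply, Pi.smul_apply, smul_eq_mul, Pi.zero_apply]
    have := (hmk _).2 (hc i)
    rw [map_sum] at this
    rw [← this]
    refine Finset.sum_congr rfl fun ρ _ => ?_
    rw [map_mul, hiter]
    rfl

end Pool.MPE
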