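import Pool.Agent.Work.MP_f82ddf_E.Optimal

set_option autoImplicit false

/-! # Block SLG: a line as an entire curve, general parameters -/

namespace Pool.MPE

open MvPolynomial
open Pool.Agent.Work.MP_f82ddf_nt (PSpace HolomorphicOn)

theorem p_SLG : Stmt_SLG := by
  intro N a ρ ha hρ
  obtain ⟨i, j, hij, hi, hj⟩ := hρ
  have hij' : a i ≠ a j := fun h => hij (ha h)
  let g : ℂ → Fin (N + 1) → ℂ := fun z k => ρ k * (a k - z)
  have hg : ∀ z, g z ≠ 0 := by
    intro z h
    have h1 : ρ i * (a i - z) = 0 := congrFun h i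
    have h2 : ρ j * (a j - z) = 0 := congrFun h j
    have h3 := (mul_eq_zero.1 h1).resolve_left hi
    have h4 := (mul_eq_zero.1 h2).resolve_left hj
    exact hij' ((sub_eq_zero.1 h3).trans (sub_eq_zero.1 h4).symm)
  have hga : ∀ z₀, AnalyticAt ℂ g z₀ := by
    intro z₀
    refine analyticAt_pi_iff.2 fun k => ?_
    exact analyticAt_const.mul (analyticAt_const.sub analyticAt_id)
  refine ⟨fun z => Projectivization.mk ℂ (g z) (hg z), ?_, ?_, ?_⟩
  · intro z₀ _
    exact ⟨g, hga z₀, Filter.Eventually.of_forall fun z => ⟨hg z, rfl⟩⟩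
  · refine ⟨a i, a j, ?_⟩
    intro h
    rw [Projectivization.mk_eq_mk_iff'] at h
    obtain ⟨b, hb⟩ := h
    have h1 := congrFun hb i
    have h2 : b * (ρ i * (a i - a j)) = ρ i * (a i - a i) := h1
    rw [sub_self, mul_zero] at h2
    have h3 : b = 0 := by
      rcases mul_eq_zero.1 h2 with h | h
      · exact h
      · exact absurd h (mul_ne_zero hi (sub_ne_zero.2 hij'))
    have h4 := congrFun hb j
    have h5 : b * (ρ j * (a j - a j)) = ρ j * (a j - a i) := h4
    rw [h3, zero_mul] at h5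
    exact mul_ne_zero hj (sub_ne_zero.2 hij'.symm) h5.symm
  · intro z
    obtain ⟨d, hd⟩ := Projectivization.exists_smul_eq_mk_rep ℂ (g z) (hg z)
    refine ⟨(d : ℂ), d.ne_zero, fun k => ?_⟩
    have h1 := congrFun hd k
    exact h1.symm

end Pool.MPE
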