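import Pool.Agent.Work.MP_f82ddf_E.Interface

set_option autoImplicit false

/-! # THEOREM E: block UGZ (the universal Chow form is not zero) -/

namespace Pool.MPE

open MvPolynomial
open Pool.Agent.Work.MP_f82ddf_M5 (chow comb)
open Pool.MPL (RX)
open Pool.MPW (UG)

theorem p_UGZ : Stmt_UGM → Pool.Agent.Work.MP_f82ddf_M5.Stmt_LINE → Stmt_UGZ := by
  intro hUGM hLINE N a d D Q B hQ hQd hB hex h0
  obtain ⟨i, hi⟩ := hex
  have h1 := hUGM N a d D Q B ℂ (eval (Pi.single i (1 : ℂ)))
  rw [h0, map_zero] at h1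
  have hc : (eval (Pi.single i (1 : ℂ))).comp (algebraMap ℂ (RX a)) = RingHom.id ℂ := by
    ext z
    simp [algebraMap_eq]
  rw [hc, map_id] at h1
  have hcomb : comb (RingHom.id ℂ) B (fun j => eval (Pi.single i (1 : ℂ)) (X j)) = B i := by
    unfold comb
    rw [Finset.sum_eq_single i]
    · simp only [eval_X, Pi.single_eq_same, C_1, one_mul, map_id]
    · intro j _ hj
      simp only [eval_X, Pi.single_eq_of_ne hj, C_0, zero_mul]
    · intro h
      exact absurd (Finset.mem_univ i) h
  rw [hcomb] at h1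
  exact hLINE N d D Q (B i) hQ hQd (hB i) hi h1.symm

end Pool.MPE
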