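import Pool.Agent.Work.MP_f82ddf_U.Interface2

set_option autoImplicit false

/-! # THEOREM E (MP_f82ddf_nt): the nodes

Namespace `Pool.MPE`, block file `B_X.lean` in this folder, final theorem `p_X` with the statements of
the column `uses` as hypotheses, in that order.  In the column `uses` `M2.X` means
`Pool.ThmM.Stmt_X` of `MP_f82ddf_M/Terminal.lean`, `Terminal2.lean`. -/

namespace Pool.MPE

open MvPolynomial
open Pool.ThmM (NonProp HypData Pr)

/-- Every closed subset of dimension less than `w` of projective space (this means: some `w` linear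
forms `h i` have no common zero on it) which is given by forms of degree at most `e`, `e ≤ δ`, contains
at most `B e` of the points `l j`. -/
def NodesW {n : ℕ} {ι Ω : Type} [Field Ω] (w δ : ℕ) (B : ℕ → ℕ) (l : ι → Fin (n + 1) → Ω) : Prop :=
  ∀ e : ℕ, e ≤ δ → ∀ (E : Set (MvPolynomial (Fin (n + 1)) Ω)) (h : Fin w → Fin (n + 1) → Ω),
    (∀ F ∈ E, ∃ e' ≤ e, F.IsHomogeneous e') →
    (∀ v : Fin (n + 1) → Ω, v ≠ 0 → (∀ F ∈ E, eval v F = 0) → ∃ i, ∑ c, h i c * v c ≠ 0) →
    {j | ∀ F ∈ E, eval (l j) F = 0}.ncard ≤ B e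

/-- T3L (200 lines, a copy of `MP_f82ddf_M/T_FIN.lean` with additions), uses M2.TERM M2.PRB M2.SUB M2.ELI
(`Pool.ThmM.Stmt_TERM` and so on; `stmt_FIN` in `T_FIN.lean` uses `Stmt_TER`, which is the same as
`Stmt_TERM`).  `Stmt_T3` of `MP_f82ddf_M/Terminal2.lean` with three more outputs: the lifts are given by
a matrix `L`; the nodes of `T` satisfy forms `E i` of one degree `D ≤ dmax` which have no common zero
with `w + 1` linear forms; and `T` has more than `B D` elements.  PROOF.  Copy `T_FIN.lean` (its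
auxiliary lemmas can be cited: `Pool.ThmM.FIN.linform` and so on).  CHANGES.  (1) Apply TERM with the
function `fun w D => ∑ d ∈ range (D ^ r + 1), d * (β w d + B D + 1 + d)`; the divisibility is proved for
all `e ≤ β w d + B D + 1` (for the final statement only `e ≤ β w d` is needed) and the last part of the
proof gives `β w d + B D + 1 ≤ T.card`.  (2) `lift u = subPt w c (g.mulVec u)` is linear in `u`: the
matrix `L j i = if (j : ℕ) ≤ w then g (Fin.ofNat (r + 1) j) i else ∑ k, c k * g k i`; prove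
`subPt w c (g.mulVec u) = L.mulVec u` (`Matrix.mulVec`, `dotProduct`, `Finset.sum_comm`) and rewrite at
the start.  (3) For `i > w` let `F i ∈ P` be the monic equation of degree `D` (`Datum.mon`, `choose`) and
`E i = aeval (fun k => ∑ l, C (g k l) * X l) (F i)`, `E i = 0` for `i ≤ w`.  `E i` is homogeneous of
degree `D` (`IsMon`: a sum of forms of degree `D`; `IsHomogeneous.aeval` or `IsHomogeneous.eval₂`, the
substituted elements are linear forms) and `eval u (E i) = eval (g.mulVec u) (F i) = 0` for `u ∈ T₀` (`On`).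
`h j i = g (Fin.ofNat (r + 1) j) i` for `j ≤ w`.  NO COMMON ZERO: let all `E i` and all `h j` vanish at
`u`, and `v = g.mulVec u`.  Then `v_j = 0` for `j ≤ w`.  For `i > w`: `0 = v_i ^ D + ∑_(j < D) c_j(v) v_i ^ j`,
and `c_j(v) = 0` because `c_j` is a form of degree `D - j > 0` in `X_0, .., X_w` (`Low`): its value at
`v` is its value at `0` (`eval_eq` or `MvPolynomial.eval₂_congr`: only the variables in `vars` matter).
So `v_i ^ D = 0`, `v_i = 0` (`D ≥ 1`, `Datum.pos`).  So `v = 0` and `u = 0` (`g` is invertible: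
`Matrix.eq_zero_of_mulVec_eq_zero`).  `dmax = max (Dmax ^ r) Dmax`. -/
def Stmt_T3L : Prop :=
  ∀ (r : ℕ) (β : ℕ → ℕ → ℕ) (B : ℕ → ℕ), ∃ N₁ dmax : ℕ, ∀ S : Finset (Fin (r + 1) → ℂ),
    (∀ u ∈ S, ∀ v ∈ S, u ≠ v → NonProp u v) → N₁ ≤ S.card →
    ∃ (w d D : ℕ) (Q : MvPolynomial (Fin (w + 2)) ℂ)
      (A : Fin (r + 1) → MvPolynomial (Fin (w + 2)) ℂ) (T : Finset (Fin (r + 1) → ℂ))
      (L : Matrix (Fin (w + 2)) (Fin (r + 1)) ℂ) (E : Fin (r + 1) → Pr r)
      (h : Fin (w + 1) → Fin (r + 1) → ℂ),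
      HypData r w d Q A T (fun u => L.mulVec u) ∧ d ≤ dmax ∧ T ⊆ S ∧ β w d ≤ T.card ∧
      (∀ (e : ℕ) (f : MvPolynomial (Fin (w + 2)) ℂ), e ≤ β w d → f.IsHomogeneous e →
        (∀ u ∈ T, eval (L.mulVec u) f = 0) → Q ∣ f) ∧
      D ≤ dmax ∧ B D < T.card ∧
      (∀ i, (E i).IsHomogeneous D ∧ ∀ u ∈ T, eval u (E i) = 0) ∧
      ∀ u : Fin (r + 1) → ℂ, (∀ i, eval u (E i) = 0) → (∀ j, ∑ i, h j i * u i = 0) → u = 0

/-- NDC (200 lines).  Descent of the equations of the nodes from `ℂ` to `Ω`.  PROOF.  `E'` = the set of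
all forms of degree `D` over `Ω` which vanish at all `u ∈ T`.  (1) `E i` is a complex linear combination
of the `map τ F`, `F ∈ E'`: the forms of degree `D` which vanish at the points `τ ∘ u`, `u ∈ T`, are the
solutions of a finite system of linear equations with coefficients in `τ(Ω)` (unknowns: the
coefficients), and the solutions over `ℂ` are spanned by the solutions over `Ω` (choose a basis of
`ℂ` over `Ω`, via `τ`: every coefficient of `E i` is a finite combination of basis elements `b_μ` with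
coefficients in `Ω`, `E i = ∑ b_μ • map τ F_μ`, and `0 = E i (τ ∘ u) = ∑ b_μ τ (F_μ(u))` gives
`F_μ(u) = 0`; see `Pool.MPL.Stmt_DSE` and its file for the same argument).  So the `map τ F`, `F ∈ E'`, and
the linear forms `h j` have no common zero in `ℂ^(n+1)` but `0`.  (2) NULLSTELLENSATZ: the ideal `I` of
`ℂ[X_0, .., X_n]` generated by the `map τ F`, `F ∈ E'`, and the `∑ C (h j i) * X i` contains `X_i ^ M` for
some `M` and all `i` (`MvPolynomial.vanishingIdeal_zeroLocus_eq_radical`; or cite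
`Pool.ThmM0.Stmt_NUL`, `MP_f82ddf_P` NUL if convenient).  Write `X_i ^ M` as a finite sum
`∑ a * map τ F + ∑ b_j * h_j`.  (3) Let `Ω` act on `ℂ` through `τ` (`letI := τ.toAlgebra`), and let `R₀`
be the subalgebra `Algebra.adjoin Ω s`, `s` the finite set of all the coefficients of the `a`, `b_j` and
of all the `h j i`.  There is a homomorphism of `Ω`-algebras `θ : R₀ → Ω`: the quotient of `R₀` by a
maximal ideal is a field of finite type over the algebraically closed field `Ω`, so it is `Ω`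
(Zariski's lemma: `finite_of_finite_type_of_isJacobsonRing`, `IsAlgClosed.algebraMap_bijective_of_isIntegral`;
see `MP_f82ddf_M5/B_NUL.lean` for the same argument over `ℂ`).  Apply `θ` to the coefficients of the
identities: `X_i ^ M = ∑ θ(a) * F + ∑ θ(b_j) * θ(h_j)` over `Ω`.  So `h' j i = θ (h j i)`: a common zero
`v` of `E'` and the `h' j` has `v_i ^ M = 0` for all `i`. -/
def Stmt_NDC : Prop :=
  ∀ (Ω : Type) [Field Ω] [IsAlgClosed Ω] (τ : Ω →+* ℂ) (n w D : ℕ) (T : Finset (Fin (n + 1) → Ω))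
    (E : Fin (n + 1) → Pr n) (h : Fin w → Fin (n + 1) → ℂ),
    (∀ i, (E i).IsHomogeneous D ∧ ∀ u ∈ T, eval (fun c => τ (u c)) (E i) = 0) →
    (∀ u : Fin (n + 1) → ℂ, (∀ i, eval u (E i) = 0) → (∀ j, ∑ i, h j i * u i = 0) → u = 0) →
    ∃ (E' : Set (MvPolynomial (Fin (n + 1)) Ω)) (h' : Fin w → Fin (n + 1) → Ω),
      (∀ F ∈ E', F.IsHomogeneous D ∧ ∀ u ∈ T, eval u F = 0) ∧
      ∀ v : Fin (n + 1) → Ω, v ≠ 0 → (∀ F ∈ E', eval v F = 0) → ∃ i, ∑ c, h' i c * v c ≠ 0

end Pool.MPE
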