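import Pool.Agent.Work.MP_f82ddf_W.Interface
import Pool.Agent.Work.MP_f82ddf_H.Interface2
import Pool.Agent.Work.MP_f82ddf_E.Nodes

set_option autoImplicit false

/-! # THEOREM E (MP_f82ddf_nt): hyperplanes which do not concentrate dually

Folder `Pool/Agent/Work/MP_f82ddf_E`, table `mpe_blocks`.  Block file `B_X.lean`: import this file
(and other block files for auxiliary lemmas), namespace `Pool.MPE`, final theorem
`p_X : Stmt_A → Stmt_B → .. → Stmt_X` with the blocks of the column `uses` as hypotheses, in that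
order; all other lemmas with the prefix `X_`.  In the column `uses` a prefix means another project:
`W.` = `Pool.MPW.Stmt_`, `V.` = `Pool.MPV.Stmt_`, `U.` = `Pool.MPL.Stmt_`, `H.` = `Pool.MPH.Stmt_`,
`P.` = `Pool.ThmP.Stmt_`, `M0.` = `Pool.ThmM0.Stmt_`, `M1.`, `M2.` = `Pool.ThmM.Stmt_`,
`M3.` = `Pool.ThmM.Chow.Stmt_`, `M5.` = `Pool.Agent.Work.MP_f82ddf_M5.Stmt_`, `P6C` =
`Pool.MCL.stmt_P6C`; no prefix: a block of this file.

RESULT.  `N + 1` hyperplanes `l_j` of projective `n`-space over the algebraic closure of a number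
field, at most `c` through a point, `N` large, such that every closed subset of dimension less than
`w₀` of the dual space, given by forms of degree at most `e ≤ δ`, contains at most `B e` of the points
`l_j` (`NodesW` of `Nodes.lean`; no condition if `w₀ = 1`).  If `w₀ + k + d = n + 2` there are nonzero forms `D_s`
in any `d + 2` of the coordinates, such that for all `X` and `g : X → P^n` with only multiplicities at
least `k` over the `l_j` all entire curves in `X` are in the inverse image of `D_s = 0` (dimension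
`≤ d`) or in a fibre of `g`.  THEOREM W is the case `w₀ = 1`.

IDEA.  The hypersurface model `(Q, A)` of the set of the nodes has dimension `w ≥ w₀`.  `CORF` gives a
moving irreducible factor `P` of the Chow form of `G = ∑ x_i A_i` with `P ^ k` dividing it.  `P` is the
Chow form of a component; `v` its generic point: `G` has order `≥ k` at `v` on `Q = 0`.  So
`D₁^j (Δ G)` vanishes at `v` for all `j ≤ k - 2` and all derivations `Δ` of the hypersurface: a system of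
linear equations for `x` with the matrix `(D₁^j (D_l A_i))_((j,l), i)`, `D_0, .., D_w` the derivations in
the directions of the coordinates.  The rank of this matrix modulo `Q` is at least
`min (n + 1, w + 1 + (k - 2))`: the `w + 1` rows for `j = 0` are independent because `A` is inverse to a
linear projection (`Inv`), and each further `j` gives at least one more row because the constants of
`D₁` are the complex numbers.  Elimination of `q` coordinates leaves two equations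
`∑ x_i B_i(v) = 0 = ∑ x_i B'_i(v)` for the other `a + 1` coordinates, so `P` divides the Chow forms of
`∑ x_i B_i` and of `∑ x_i B'_i`.  For generic `x` these two Chow forms have no common moving factor
(count of parameters), so this is a nontrivial condition on `x`, uniform in `x` and `P`. -/

open Pool.Agent.Work.MP_f82ddf_nt.DQ

namespace Pool.MPE

open MvPolynomial
open Pool.Agent.Work.MP_f82ddf_nt (PSpace HolomorphicOn complexPoints points KobayashiHyperbolic)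
open Pool.Agent.Work.MP_f82ddf_M5 (lineAt resAt chow at2 comb Data GoodDer)
open Pool.ThmM (NonProp HypData IsRat om dv vP LastMonic Pr)
open Pool.ThmM0 (Per ImageDimLE)
open Pool.ThmM.Chow (ppt Phi Mov subC PluF)
open Pool.ThmP (Mor OnX OnK tm NoRel RelP)
open Pool.MPL (RX NC aq ae NPr Spn)
open Pool.MPV (Ful Full)
open Pool.MPW (pv OrdGE UG ExcW)
open Pool.MPH (MovR InFibre)

/-! ## Definitions -/

/-- The condition on the nodes which is used over `ℂ`, for a finite set `S`: for `1 ≤ v < w₀` and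
`D ≤ δ`, a subset `T` of `S` on which `n + 1` forms of degree `D` vanish, which have no common zero with
some `v + 1` linear forms, has at most `B D` elements. -/
def NodesC {n : ℕ} (w₀ δ : ℕ) (B : ℕ → ℕ) (S : Finset (Fin (n + 1) → ℂ)) : Prop :=
  ∀ v D : ℕ, 1 ≤ v → v < w₀ → D ≤ δ → ∀ T ⊆ S, ∀ (E : Fin (n + 1) → Pr n)
    (h : Fin (v + 1) → Fin (n + 1) → ℂ),
    (∀ i, (E i).IsHomogeneous D ∧ ∀ u ∈ T, eval u (E i) = 0) →
    (∀ u : Fin (n + 1) → ℂ, (∀ i, eval u (E i) = 0) → (∀ j, ∑ i, h j i * u i = 0) → u = 0) →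
    T.card ≤ B D

/-- The embedding `u ↦ τ ∘ u`. -/
def te {Ω : Type} [Field Ω] (τ : Ω →+* ℂ) (n : ℕ) : (Fin (n + 1) → Ω) ↪ (Fin (n + 1) → ℂ) where
  toFun u i := τ (u i)
  inj' _ _ h := funext fun i => τ.injective (congrFun h i)

/-- The derivation `X_l ↦ ∂_m Q`, `X_m ↦ - ∂_l Q`, `m` the last index, `0` on the other variables. -/
noncomputable def Dl {w : ℕ} (Q : MvPolynomial (Fin (w + 2)) ℂ) (l : Fin (w + 1)) :
    Derivation ℂ (MvPolynomial (Fin (w + 2)) ℂ) (MvPolynomial (Fin (w + 2)) ℂ) :=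
  mkDerivation ℂ fun i => if i = l.castSucc then pderiv (Fin.last (w + 1)) Q
    else if i = Fin.last (w + 1) then -pderiv l.castSucc Q else 0

/-- `A` is inverse to a linear projection: there are complex combinations `L_j` of the `A_i` such that
`(L_j)` is proportional to `(X_j)` modulo `Q`, and not `0` modulo `Q`. -/
def Inv {w n : ℕ} (Q : MvPolynomial (Fin (w + 2)) ℂ)
    (A : Fin (n + 1) → MvPolynomial (Fin (w + 2)) ℂ)
    (L : Fin (w + 2) → MvPolynomial (Fin (w + 2)) ℂ) : Prop :=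
  (∀ j, ∃ c : Fin (n + 1) → ℂ, L j = ∑ i, C (c i) * A i) ∧
    (∀ i j, Q ∣ L j * X i - L i * X j) ∧ ∃ j, ¬ Q ∣ L j

/-- The row `(D₁^j (D_l A_i))_i`, `p = (j, l)`. -/
noncomputable def row {w n : ℕ} (Q : MvPolynomial (Fin (w + 2)) ℂ)
    (D₁ : Derivation ℂ (MvPolynomial (Fin (w + 2)) ℂ) (MvPolynomial (Fin (w + 2)) ℂ))
    (A : Fin (n + 1) → MvPolynomial (Fin (w + 2)) ℂ) (p : ℕ × Fin (w + 1)) :
    Fin (n + 1) → MvPolynomial (Fin (w + 2)) ℂ :=
  fun i => D₁^[p.1] (Dl Q p.2 (A i))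

/-- The rows `(D₁^j (Δ A_i))_i` for `j + 2 ≤ k` and all the derivations `Δ` with `Δ Q = 0`. -/
def Rows {N n : ℕ} (k : ℕ) (Q : MvPolynomial (Fin N) ℂ)
    (D₁ : Derivation ℂ (MvPolynomial (Fin N) ℂ) (MvPolynomial (Fin N) ℂ))
    (A : Fin (n + 1) → MvPolynomial (Fin N) ℂ) : Set (Fin (n + 1) → MvPolynomial (Fin N) ℂ) :=
  {r | ∃ (j : ℕ) (Δ : Derivation ℂ (MvPolynomial (Fin N) ℂ) (MvPolynomial (Fin N) ℂ)),
    j + 2 ≤ k ∧ Δ Q = 0 ∧ r = fun i => D₁^[j] (Δ (A i))}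

/-! ## A. The hypersurface model is inverse to a linear projection -/

/-! `T3L` is in `Nodes.lean`. -/

/-- BIR (80 lines).  PROOF.  `lift u = Lm.mulVec u`.  `L_i = ∑_j C (Lm i j) * A_j`.  For `u ∈ T`,
`A_j(lift u) = c_u u_j`, `c_u ≠ 0` (`HypData.prop`), so `L_i(lift u) = c_u (lift u)_i`, and the form
`L_j X_i - L_i X_j` of degree `d + 1 ≤ β'` vanishes at all the `lift u`: `Q` divides it.  Some `u ∈ T` is
not `0` (otherwise every `y` is orthogonal to `T`), so some `A_j(lift u) ≠ 0`, `lift u ≠ 0` (the `A_j` are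
forms of degree `d ≥ 1`), `(lift u)_i ≠ 0` for some `i`, so `L_i(lift u) ≠ 0`, `Q(lift u) = 0`,
`Q ∤ L_i`. -/
def Stmt_BIR : Prop :=
  ∀ (n w d β' : ℕ) (Q : MvPolynomial (Fin (w + 2)) ℂ)
    (A : Fin (n + 1) → MvPolynomial (Fin (w + 2)) ℂ) (T : Finset (Fin (n + 1) → ℂ))
    (Lm : Matrix (Fin (w + 2)) (Fin (n + 1)) ℂ),
    HypData n w d Q A T (fun u => Lm.mulVec u) → d + 1 ≤ β' →
    (∀ (e : ℕ) (f : MvPolynomial (Fin (w + 2)) ℂ), e ≤ β' → f.IsHomogeneous e →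
      (∀ u ∈ T, eval (Lm.mulVec u) f = 0) → Q ∣ f) →
    (∀ y : Fin (n + 1) → ℂ, (∀ u ∈ T, ∑ i, u i * y i = 0) → y = 0) →
    ∃ L : Fin (w + 2) → MvPolynomial (Fin (w + 2)) ℂ, Inv Q A L

/-! ## B. The rows -/

/-- DLL (60 lines).  PROOF.  (1) `D f = ∑ ∂_i f * D X_i` (`mkDerivation_apply`, or compare two
derivations on the variables: `MvPolynomial.derivation_ext`).  (2) from (1).  (3) from (1):
`(e + 1 - 1) + (d - 1)`.  (4) definition. -/
def Stmt_DLL : Prop :=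
  ∀ (w : ℕ) (Q : MvPolynomial (Fin (w + 2)) ℂ) (l : Fin (w + 1)),
    (∀ f, Dl Q l f = pderiv l.castSucc f * pderiv (Fin.last (w + 1)) Q -
      pderiv (Fin.last (w + 1)) f * pderiv l.castSucc Q) ∧
    Dl Q l Q = 0 ∧
    (∀ (d e : ℕ) (f : MvPolynomial (Fin (w + 2)) ℂ), Q.IsHomogeneous d → f.IsHomogeneous (e + 1) →
      (Dl Q l f).IsHomogeneous (e + (d - 1))) ∧
    ∀ l' : Fin (w + 1), Dl Q l (X l'.castSucc) = if l' = l then pderiv (Fin.last (w + 1)) Q else 0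

/-- JAC (120 lines), uses DLL.  The rows for `j = 0` are independent.  PROOF.  All congruences are
modulo `Q` (prime).  `Δ = ∑ f_l D_l`, a derivation with `Δ Q = 0`, so `Δ` maps multiples of `Q` to
multiples of `Q`; `Δ A_i ≡ 0` for all `i`, so `Δ L_j ≡ 0`.  Let `L_(i₀)` be not divisible by `Q`.  Apply `Δ`
to `L_j X_i ≡ L_i X_j`: `L_j ΔX_i ≡ L_i ΔX_j`.  So
`L_(i₀) X_(i₀) ΔX_j ≡ X_(i₀) L_j ΔX_(i₀) ≡ L_(i₀) X_j ΔX_(i₀)`, hence (*) `X_(i₀) ΔX_j ≡ X_j ΔX_(i₀)`.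
`ΔA = ∑_j ∂_j A ΔX_j`, so by (*) and Euler (`∑ X_j ∂_j A = d A`)
`0 ≡ X_(i₀) ΔA_i ≡ d A_i ΔX_(i₀)` for all `i`; some `A_i` is not divisible by `Q` (else `Q ∣ L_(i₀)`) and
`d ≠ 0` (`Q` is not a constant), so `ΔX_(i₀) ≡ 0`.  `Q ∤ X_(i₀)`: otherwise `L_(i₀) X_j ≡ L_j X_(i₀) ≡ 0`,
so `Q` divides all the `X_j`, in particular `X_0` and `X_1`, which are primes not associated
(`w + 2 ≥ 2`); so `Q` would be a unit.  By (*) `ΔX_j ≡ 0` for all `j`; `ΔX_(castSucc l) = f_l ∂_m Q`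
(DLL), so `Q ∣ f_l`. -/
def Stmt_JAC : Prop :=
  ∀ (n w d : ℕ) (Q : MvPolynomial (Fin (w + 2)) ℂ)
    (A : Fin (n + 1) → MvPolynomial (Fin (w + 2)) ℂ)
    (L : Fin (w + 2) → MvPolynomial (Fin (w + 2)) ℂ), Data (w + 2) n d d Q A →
    ¬ Q ∣ pderiv (Fin.last (w + 1)) Q → Inv Q A L →
    ∀ f : Fin (w + 1) → MvPolynomial (Fin (w + 2)) ℂ,
      (∀ i, Q ∣ ∑ l, f l * Dl Q l (A i)) → ∀ l, Q ∣ f l

/-- ERN (60 lines), uses DLL.  No constant vector is orthogonal to the rows for `j = 0`.  PROOF.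
`G = ∑ C (y_i) A_i = comb id A y`, a form of degree `d`; `D_l G ≡ 0` modulo `Q` for all `l`.  By DLL and
Euler for `G` and `Q`: `∑_l X_l D_l G = ∂_m Q (d G - X_m ∂_m G) - ∂_m G (d Q - X_m ∂_m Q)
= d G ∂_m Q - d Q ∂_m G`.  So `Q ∣ d G ∂_m Q`, `Q ∣ G`, `y = 0` by `Data.nd`. -/
def Stmt_ERN : Prop :=
  ∀ (n w d : ℕ) (Q : MvPolynomial (Fin (w + 2)) ℂ)
    (A : Fin (n + 1) → MvPolynomial (Fin (w + 2)) ℂ), Data (w + 2) n d d Q A →
    ¬ Q ∣ pderiv (Fin.last (w + 1)) Q →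
    ∀ y : Fin (n + 1) → ℂ, (∀ l, Q ∣ ∑ i, C (y i) * Dl Q l (A i)) → y = 0

/-- QDR (60 lines).  PROOF.  `D₁` maps the ideal `(Q)` to itself (`D₁ (Q g) = Q D₁ g`), so it induces a
linear map of the quotient (`Submodule.mapQ` or `Ideal.Quotient.lift` of the additive map), which
satisfies the Leibniz rule (`Derivation.mk'`; check on representatives). -/
def Stmt_QDR : Prop :=
  ∀ (N : ℕ) (Q : MvPolynomial (Fin N) ℂ)
    (D₁ : Derivation ℂ (MvPolynomial (Fin N) ℂ) (MvPolynomial (Fin N) ℂ)), D₁ Q = 0 →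
    ∃ δ : Derivation ℂ (MvPolynomial (Fin N) ℂ ⧸ Ideal.span {Q})
        (MvPolynomial (Fin N) ℂ ⧸ Ideal.span {Q}),
      ∀ f : MvPolynomial (Fin N) ℂ, δ (Ideal.Quotient.mk (Ideal.span {Q}) f) =
        Ideal.Quotient.mk (Ideal.span {Q}) (D₁ f)

/-- CLD (80 lines).  A family of vectors stable under a derivation with constants `ℂ`.  PROOF.  Suppose
that some `c ≠ 0` is orthogonal to `G`; choose one with the smallest number of nonzero coordinates,
`c i₀ ≠ 0`.  For `v ∈ G` apply `δ` to `∑ c_i v_i = 0`; by the second hypothesis `∑ c_i δ(v_i) = 0`, so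
`∑ δ(c_i) v_i = 0`.  So `c' = (c_(i₀) δ(c_i) - δ(c_(i₀)) c_i)_i` is orthogonal to `G`, with
`c'_(i₀) = 0` and `c'_i = 0` where `c_i = 0`: `c' = 0`.  First hypothesis (`b = c_(i₀)`): `c_i = z_i c_(i₀)`,
`z_i ∈ ℂ`, `z_(i₀) ≠ 0`, and `c_(i₀) ∑ z_i v_i = 0`, so `z` is orthogonal to `G`, `z = 0`: a
contradiction. -/
def Stmt_CLD : Prop :=
  ∀ (R : Type) [CommRing R] [IsDomain R] [Algebra ℂ R] (δ : Derivation ℂ R R) (m : ℕ)
    (G : Set (Fin m → R)),
    (∀ a b : R, b ≠ 0 → a * δ b = b * δ a → ∃ z : ℂ, a = algebraMap ℂ R z * b) →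
    (∀ c : Fin m → R, (∀ v ∈ G, ∑ i, c i * v i = 0) → ∀ v ∈ G, ∑ i, c i * δ (v i) = 0) →
    (∀ y : Fin m → ℂ, (∀ v ∈ G, ∑ i, algebraMap ℂ R (y i) * v i = 0) → y = 0) →
    ∀ c : Fin m → R, (∀ v ∈ G, ∑ i, c i * v i = 0) → c = 0

/-- RKV (200 lines), uses CLD.  The rank grows by 1 with every derivative.  PROOF.
`K = FractionRing R`.  Let `V_j` be the `K`-span in `K^m` of the images of the vectors
`δ^i r_l = (δ^[i] (r_l c))_c`, `i ≤ j`, `l < p`.  (a) `finrank V_0 = p` (`LinearIndependent R r` gives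
independence over `K`: `LinearIndependent.iff_fractionRing` or clear denominators).  (b) If
`V_(j+1) = V_j` then `V_j = ⊤`: otherwise a nonzero linear form on `K^m` vanishes on `V_j`
(`Submodule.exists_dual_map_eq_bot_of_lt_top` or similar), after clearing denominators it is given by
`0 ≠ c ∈ R^m`.  CLD for `G = {δ^i r_l | i ≤ j}`: if `c'` is orthogonal to `G` it is orthogonal to
`V_j = V_(j+1)`, hence to `δ^(i+1) r_l`; constants by the hypothesis on the `r_l ∈ G`.  So `c = 0`, a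
contradiction.  (c) So `min m (p + j) ≤ finrank V_j` by induction on `j` (`V_j ≤ V_(j+1)`,
`Submodule.finrank_lt_finrank_of_lt`), and `s ≤ finrank V_t`.  (d) The finite set of the vectors
`δ^i r_l`, `i ≤ t`, spans `V_t`, so it contains a basis of `V_t` (`exists_linearIndependent`), of at least
`s` elements; choose `s` of them.  Independence over `K` implies independence over `R`. -/
def Stmt_RKV : Prop :=
  ∀ (R : Type) [CommRing R] [IsDomain R] [Algebra ℂ R] (δ : Derivation ℂ R R) (m p t s : ℕ)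
    (r : Fin p → Fin m → R),
    (∀ a b : R, b ≠ 0 → a * δ b = b * δ a → ∃ z : ℂ, a = algebraMap ℂ R z * b) →
    LinearIndependent R r →
    (∀ y : Fin m → ℂ, (∀ l, ∑ i, algebraMap ℂ R (y i) * r l i = 0) → y = 0) →
    s ≤ m → s ≤ p + t →
    ∃ f : Fin s → ℕ × Fin p, (∀ ρ, (f ρ).1 ≤ t) ∧
      LinearIndependent R (fun (ρ : Fin s) (i : Fin m) => δ^[(f ρ).1] (r (f ρ).2 i))

/-- RKL (120 lines), uses QDR RKV JAC ERN.  The rank of the rows modulo `Q`.  PROOF.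
`R = ℂ[X] / (Q)`, a domain, `mk : ℂ[X] → R`, `δ` from QDR; `δ^[j] (mk f) = mk (D₁^[j] f)`.
`mk f = 0 ↔ Q ∣ f`.  The first hypothesis of RKV is `GoodDer`; `r l i = mk (D_l A_i)`: independent by
JAC; constants by ERN.  RKV with `m = n + 1`, `p = w + 1`; its conclusion for the elements `mk (c ρ)` is
the claim (`Fintype.linearIndependent_iff`). -/
def Stmt_RKL : Prop :=
  ∀ (n w d t s : ℕ) (Q : MvPolynomial (Fin (w + 2)) ℂ)
    (A : Fin (n + 1) → MvPolynomial (Fin (w + 2)) ℂ)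
    (L : Fin (w + 2) → MvPolynomial (Fin (w + 2)) ℂ)
    (D₁ : Derivation ℂ (MvPolynomial (Fin (w + 2)) ℂ) (MvPolynomial (Fin (w + 2)) ℂ)),
    Data (w + 2) n d d Q A → ¬ Q ∣ pderiv (Fin.last (w + 1)) Q → Inv Q A L → GoodDer Q D₁ →
    s ≤ n + 1 → s ≤ w + 1 + t →
    ∃ f : Fin s → ℕ × Fin (w + 1), (∀ ρ, (f ρ).1 ≤ t) ∧
      ∀ c : Fin s → MvPolynomial (Fin (w + 2)) ℂ,
        (∀ i, Q ∣ ∑ ρ, c ρ * row Q D₁ A (f ρ) i) → ∀ ρ, Q ∣ c ρ

/-- ELM (150 lines).  Elimination of the columns `ε (inr l)`.  PROOF.  All congruences are modulo `Q`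
(prime).  CLAIM for `h = 0, .., q` by induction: there are `q + 2 - h` rows in the span of the `r ρ`,
each with entries homogeneous of one degree, independent modulo `Q` (if a combination with
polynomial coefficients is `≡ 0` then all the coefficients are), with the entries at `ε (inr l)`,
`l < h`, divisible by `Q`.  STEP (the next column `l`): if the entries of all the rows in this column are
divisible by `Q`, leave out a row.  Otherwise let `ρ₀` be a row whose entry `g` (of degree `e₀`) is not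
divisible by `Q`; the new rows are `g r_ρ - r_(ρ l) r_(ρ₀)` for `ρ ≠ ρ₀`, of degree `e₀ + e_ρ`, with entry
`0` in this column; if `∑_(ρ ≠ ρ₀) c_ρ (..) ≡ 0` then `c_ρ g ≡ 0` for `ρ ≠ ρ₀` (independence of the old
rows), so `c_ρ ≡ 0`.  END: `h = q` gives two rows `R`, `R'`.  Some `R_(i₀)` is not divisible by `Q`
(coefficients `1`, `0`), `i₀ = ε (inl i)`.  If all the minors in the claim were divisible by `Q`, then
`R'_(i₀) R - R_(i₀) R' ≡ 0` in all the columns, so `Q ∣ R_(i₀)`, a contradiction. -/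
def Stmt_ELM : Prop :=
  ∀ (N n a q : ℕ) (Q : MvPolynomial (Fin N) ℂ) (ε : Fin (a + 1) ⊕ Fin q ≃ Fin (n + 1))
    (r : Fin (q + 2) → Fin (n + 1) → MvPolynomial (Fin N) ℂ) (e : Fin (q + 2) → ℕ),
    Irreducible Q → (∀ ρ i, (r ρ i).IsHomogeneous (e ρ)) →
    (∀ c : Fin (q + 2) → MvPolynomial (Fin N) ℂ, (∀ i, Q ∣ ∑ ρ, c ρ * r ρ i) → ∀ ρ, Q ∣ c ρ) →
    ∃ (D D' : ℕ) (R R' : Fin (n + 1) → MvPolynomial (Fin N) ℂ),
      R ∈ Submodule.span (MvPolynomial (Fin N) ℂ) (Set.range r) ∧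
      R' ∈ Submodule.span (MvPolynomial (Fin N) ℂ) (Set.range r) ∧
      (∀ i, (R i).IsHomogeneous D) ∧ (∀ i, (R' i).IsHomogeneous D') ∧
      (∀ l, Q ∣ R (ε (Sum.inr l))) ∧ (∀ l, Q ∣ R' (ε (Sum.inr l))) ∧
      ∃ i j, ¬ Q ∣ R (ε (Sum.inl i)) * R' (ε (Sum.inl j)) -
        R (ε (Sum.inl j)) * R' (ε (Sum.inl i))

/-- RRE (100 lines), uses W.HGD DLL RKL ELM.  PROOF.  HGD: `D₁`, good and homogeneous.  RKL with
`t = k - 2`, `s = q + 2 = w₀ + k - 1 ≤ w + 1 + t`, `q + 2 ≤ n + 1`: `f`.  ELM for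
`r ρ = row Q D₁ A (f ρ)`; all the entries of `row Q D₁ A (j, l)` are forms of degree
`(d - 1 + (d - 1)) + j (d - 1)` (`d ≥ 1`; DLL and HGD, induction on `j`).  The rows are in `Rows k Q D₁ A`
(`j ≤ k - 2`; DLL: `D_l Q = 0`), `Submodule.span_mono`. -/
def Stmt_RRE : Prop :=
  ∀ (n w d w₀ k a q : ℕ) (Q : MvPolynomial (Fin (w + 2)) ℂ)
    (A : Fin (n + 1) → MvPolynomial (Fin (w + 2)) ℂ)
    (L : Fin (w + 2) → MvPolynomial (Fin (w + 2)) ℂ) (ε : Fin (a + 1) ⊕ Fin q ≃ Fin (n + 1)),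
    Data (w + 2) n d d Q A → ¬ Q ∣ pderiv (Fin.last (w + 1)) Q → Inv Q A L → 2 ≤ k → 1 ≤ a →
    w₀ ≤ w → w₀ + k = q + 3 → n = a + q →
    ∃ (D₁ : Derivation ℂ (MvPolynomial (Fin (w + 2)) ℂ) (MvPolynomial (Fin (w + 2)) ℂ))
      (D D' : ℕ) (R R' : Fin (n + 1) → MvPolynomial (Fin (w + 2)) ℂ), D₁ Q = 0 ∧
      R ∈ Submodule.span (MvPolynomial (Fin (w + 2)) ℂ) (Rows k Q D₁ A) ∧
      R' ∈ Submodule.span (MvPolynomial (Fin (w + 2)) ℂ) (Rows k Q D₁ A) ∧
      (∀ i, (R i).IsHomogeneous D) ∧ (∀ i, (R' i).IsHomogeneous D') ∧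
      (∀ l, Q ∣ R (ε (Sum.inr l))) ∧ (∀ l, Q ∣ R' (ε (Sum.inr l))) ∧
      ∃ i j, ¬ Q ∣ R (ε (Sum.inl i)) * R' (ε (Sum.inl j)) -
        R (ε (Sum.inl j)) * R' (ε (Sum.inl i))

/-- SPC (60 lines), uses W.WRC.  Conjugation of the rows.  PROOF.  W.WRC (first property, for every
derivation): `D₂ (aq α f) = aq α (D₁ f)`, and for `Δ` a derivation `Δ'` with
`Δ' (aq α f) = aq α (Δ f)`, so `Δ' (aq α Q) = 0`, and `aq α (D₁^[j] (Δ (A i))) = D₂^[j] (Δ' (aq α (A i)))`.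
`Submodule.span_induction` (`aq α` is a ring homomorphism). -/
def Stmt_SPC : Prop :=
  ∀ (α : ℂ ≃+* ℂ) (N n k : ℕ) (Q : MvPolynomial (Fin N) ℂ)
    (D₁ : Derivation ℂ (MvPolynomial (Fin N) ℂ) (MvPolynomial (Fin N) ℂ))
    (A : Fin (n + 1) → MvPolynomial (Fin N) ℂ), D₁ Q = 0 →
    ∃ D₂ : Derivation ℂ (MvPolynomial (Fin N) ℂ) (MvPolynomial (Fin N) ℂ), D₂ (aq α Q) = 0 ∧
      ∀ R ∈ Submodule.span (MvPolynomial (Fin N) ℂ) (Rows k Q D₁ A), (fun i => aq α (R i)) ∈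
        Submodule.span (MvPolynomial (Fin N) ℂ) (Rows k (aq α Q) D₂ (fun i => aq α (A i)))

/-! ## C. The generic point of a component -/

/-- DVC (50 lines), uses M5.FUN M5.DEG.  If `Q` and `G` vanish at the point `v` of the line through
`b₁`, `b₂` then the Chow form vanishes at `b`.  PROOF.  By M5.FUN (5) the value is the resultant of
`f = lineAt Q b₁ b₂`, `g = lineAt G b₁ b₂` with formal degrees `d ≥ 1`, `D` (at least the true degrees,
M5.DEG), which is `p f + p' g` (`Polynomial.exists_mul_add_mul_eq_C_resultant`); its value at `s` is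
`0` because `f(s) = Q(v) = 0`, `g(s) = G(v) = 0`. -/
def Stmt_DVC : Prop :=
  ∀ (M F : Type) [Field M] [Field F] [Algebra M F] (N d D : ℕ) (Q G : MvPolynomial (Fin N) M)
    (b : Fin 2 × Fin N → F) (s : F), 1 ≤ d → Q.IsHomogeneous d → G.IsHomogeneous D →
    eval₂ (algebraMap M F) (pv b s) Q = 0 → eval₂ (algebraMap M F) (pv b s) G = 0 →
    eval₂ (algebraMap M F) b (chow d D Q G) = 0

/-- GPV (120 lines), uses W.GPA W.GPB W.GPC M3.CHP M3.PFA W.ABS.  The generic point of a component of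
`G = 0` on `Q = 0`.  PROOF.  The first half of `MP_f82ddf_W/B_PWT.lean`: `Q_M = map Q` is irreducible
(ABS), CHP and PFA: `PluF ρ P`; GPA: `F, b, s`; GPB for `Q_M`, `G`; GPC. -/
def Stmt_GPV : Prop :=
  ∀ (M : Type) [Field M] [Algebra ℂ M] (w d D : ℕ) (Q : MvPolynomial (Fin (w + 2)) ℂ)
    (G : MvPolynomial (Fin (w + 2)) M) (P : MvPolynomial (Fin 2 × Fin (w + 2)) M), Irreducible Q →
    Q.IsHomogeneous d → G.IsHomogeneous D → ¬ map (algebraMap ℂ M) Q ∣ G →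
    chow d D (map (algebraMap ℂ M) Q) G ≠ 0 → Irreducible P →
    (∀ H : MvPolynomial (Fin 2 × Fin (w + 2)) ℂ, H ≠ 0 → ¬ P ∣ map (algebraMap ℂ M) H) →
    P ∣ chow d D (map (algebraMap ℂ M) Q) G →
    ∃ (F : Type) (_ : Field F) (_ : Algebra M F) (b : Fin 2 × Fin (w + 2) → F) (s : F),
      (∀ H : MvPolynomial (Fin 2 × Fin (w + 2)) M, eval₂ (algebraMap M F) b H = 0 ↔ P ∣ H) ∧
      eval₂ (algebraMap M F) (pv b s) (map (algebraMap ℂ M) Q) = 0 ∧
      eval₂ (algebraMap M F) (pv b s) G = 0 ∧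
      (∃ j, eval₂ (algebraMap M F) (pv b s) (map (algebraMap ℂ M) (pderiv j Q)) ≠ 0) ∧
      ∀ b' : Fin (w + 2) → F, at2 (algebraMap M F) (pv b s) b' P = 0

/-- OVG (100 lines), uses M5.FUN M5.IDE W.PTK W.ABS.  If `P(v, b') = 0` for all `b'` and `P` divides the
Chow form of `(Q, G)` then `G(v) = 0`.  PROOF.  `d = e + 1` (`Q` is not a constant).  `F` is a
`ℂ`-algebra through `M`; `Q_F = map Q` is irreducible (ABS), `G_F` the image of `G`.  If `Q_F ∣ G_F` then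
`G(v) = 0`, as `Q(v) = 0`.  Otherwise PTK (`Q_F(v) = 0`, `v` smooth): `b'` with
`resAt id Q_F G_F v b' e D ≠ 0`.  The Chow form over `F` (M5.FUN (6)) is divisible by the image of `P`, so
its value `resAt id Q_F G_F v b' (e + 1) D` at `(v, b')` (M5.FUN (5)) is `0`; M5.IDE: it is
`(-1) ^ D * G_F(v) * resAt id Q_F G_F v b' e D`. -/
def Stmt_OVG : Prop :=
  ∀ (M F : Type) [Field M] [Algebra ℂ M] [Field F] [Algebra M F] (N d D : ℕ)
    (Q : MvPolynomial (Fin N) ℂ) (G : MvPolynomial (Fin N) M)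
    (P : MvPolynomial (Fin 2 × Fin N) M) (v : Fin N → F), Irreducible Q → Q.IsHomogeneous d →
    G.IsHomogeneous D → eval₂ (algebraMap M F) v (map (algebraMap ℂ M) Q) = 0 →
    (∃ j, eval₂ (algebraMap M F) v (map (algebraMap ℂ M) (pderiv j Q)) ≠ 0) →
    (∀ b' : Fin N → F, at2 (algebraMap M F) v b' P = 0) →
    P ∣ chow d D (map (algebraMap ℂ M) Q) G → eval₂ (algebraMap M F) v G = 0

/-- DEX (50 lines).  PROOF.  `δ = mkDerivation F (fun i => map (D₁ (X i)))`; the beginning of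
`MP_f82ddf_W/B_WRX.lean`. -/
def Stmt_DEX : Prop :=
  ∀ (F : Type) [Field F] [Algebra ℂ F] (N : ℕ)
    (D₁ : Derivation ℂ (MvPolynomial (Fin N) ℂ) (MvPolynomial (Fin N) ℂ)),
    ∃ δ : Derivation F (MvPolynomial (Fin N) F) (MvPolynomial (Fin N) F),
      (∀ f : MvPolynomial (Fin N) ℂ, δ (map (algebraMap ℂ F) f) = map (algebraMap ℂ F) (D₁ f)) ∧
      ∀ (n : ℕ) (A : Fin (n + 1) → MvPolynomial (Fin N) ℂ) (x : Fin (n + 1) → F),
        δ (comb (algebraMap ℂ F) A x) = comb (algebraMap ℂ F) (fun i => D₁ (A i)) x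

/-- VNR (150 lines), uses GPV W.NDX W.CNZ W.OVF W.OWR DEX M5.FUN.  All the rows vanish at the point
`v`.  PROOF.  As `MP_f82ddf_W/B_PWT.lean`.  `G = comb A x` is not divisible by `Q_M` (NDX), its Chow form is
not `0` (CNZ), `P` divides it (`k ≥ 1`).  GPV: `F, b, s`, `v = pv b s`.  `F` is a `ℂ`-algebra through `M`.
OVF (`Ψ` = the image of `P`): `OrdGE Q_F v k (comb A x_F)`, `x_F i = algebraMap M F (x i)`.  DEX for `Δ` and
for `D₁`: `Δ_F`, `δ`, which kill `Q_F`; by OWR (1) `Δ_F (comb A x_F) = comb (Δ A) x_F` has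
`OrdGE .. (k - 1)` and `δ^[j]` of it, which is `comb (fun i => D₁^[j] (Δ (A i))) x_F`, has
`OrdGE .. (k - 1 - j)`, `k - 1 - j ≥ 1`; so it vanishes at `v` (`h g ∈ ker (eval v) ⊔ (Q_F)`, both
vanish at `v`, `h(v) ≠ 0`). -/
def Stmt_VNR : Prop :=
  ∀ (M : Type) [Field M] [Algebra ℂ M] (w n d k : ℕ) (Q : MvPolynomial (Fin (w + 2)) ℂ)
    (A : Fin (n + 1) → MvPolynomial (Fin (w + 2)) ℂ), Data (w + 2) n d d Q A → 1 ≤ k →
    ∀ (x : Fin (n + 1) → M) (P : MvPolynomial (Fin 2 × Fin (w + 2)) M), x ≠ 0 → Irreducible P →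
      (∀ H : MvPolynomial (Fin 2 × Fin (w + 2)) ℂ, H ≠ 0 → ¬ P ∣ map (algebraMap ℂ M) H) →
      P ^ k ∣ chow d d (map (algebraMap ℂ M) Q) (comb (algebraMap ℂ M) A x) →
      ∃ (F : Type) (_ : Field F) (_ : Algebra M F) (b : Fin 2 × Fin (w + 2) → F) (s : F),
        (∀ H : MvPolynomial (Fin 2 × Fin (w + 2)) M, eval₂ (algebraMap M F) b H = 0 ↔ P ∣ H) ∧
        eval₂ (algebraMap M F) (pv b s) (map (algebraMap ℂ M) Q) = 0 ∧
        ∀ D₁ Δ : Derivation ℂ (MvPolynomial (Fin (w + 2)) ℂ) (MvPolynomial (Fin (w + 2)) ℂ),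
          D₁ Q = 0 → Δ Q = 0 → ∀ j : ℕ, j + 2 ≤ k →
            eval₂ (algebraMap M F) (pv b s)
              (comb (algebraMap ℂ M) (fun i => D₁^[j] (Δ (A i))) x) = 0

/-- PWE (100 lines), uses VNR DVC.  The transfer.  PROOF.  VNR: `F, b, s`, `v = pv b s`.  The vectors
`R ∈ ℂ[X]^(n+1)` with `comb R x` zero at `v` are a submodule (multiplication by `g ∈ ℂ[X]` multiplies the
value by `g(v)`), which contains `Rows k Q D₁ A`, so it contains `R`.  The terms of `comb R x` with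
`i = ε (inr l)` vanish at `v` because `Q(v) = 0`; so `G = comb (R ∘ ε ∘ inl) (x ∘ ε ∘ inl)` vanishes at `v`.
DVC (`1 ≤ d`: `Q` is not a constant): the Chow form of `(Q_M, G)` vanishes at `b`, so `P` divides it. -/
def Stmt_PWE : Prop :=
  ∀ (M : Type) [Field M] [Algebra ℂ M] (w n a q d k : ℕ) (Q : MvPolynomial (Fin (w + 2)) ℂ)
    (A : Fin (n + 1) → MvPolynomial (Fin (w + 2)) ℂ) (ε : Fin (a + 1) ⊕ Fin q ≃ Fin (n + 1)),
    Data (w + 2) n d d Q A → 1 ≤ k →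
    ∀ (x : Fin (n + 1) → M) (P : MvPolynomial (Fin 2 × Fin (w + 2)) M), x ≠ 0 → Irreducible P →
      (∀ H : MvPolynomial (Fin 2 × Fin (w + 2)) ℂ, H ≠ 0 → ¬ P ∣ map (algebraMap ℂ M) H) →
      P ^ k ∣ chow d d (map (algebraMap ℂ M) Q) (comb (algebraMap ℂ M) A x) →
      ∀ (D₁ : Derivation ℂ (MvPolynomial (Fin (w + 2)) ℂ) (MvPolynomial (Fin (w + 2)) ℂ)) (D : ℕ)
        (R : Fin (n + 1) → MvPolynomial (Fin (w + 2)) ℂ), D₁ Q = 0 → (∀ i, (R i).IsHomogeneous D) →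
        R ∈ Submodule.span (MvPolynomial (Fin (w + 2)) ℂ) (Rows k Q D₁ A) →
        (∀ l, Q ∣ R (ε (Sum.inr l))) →
        P ∣ chow d D (map (algebraMap ℂ M) Q)
          (comb (algebraMap ℂ M) (fun i => R (ε (Sum.inl i))) (fun i => x (ε (Sum.inl i))))

/-! ## D. The two universal Chow forms have no common moving factor -/

/-- UGM (50 lines), uses M5.FUN.  PROOF.  M5.FUN (6), `map_map`, `comb` is a sum; see `GNB_UG` in
`MP_f82ddf_W/B_GNB.lean`. -/
def Stmt_UGM : Prop :=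
  ∀ (N a d D : ℕ) (Q : MvPolynomial (Fin N) ℂ) (B : Fin (a + 1) → MvPolynomial (Fin N) ℂ)
    (K : Type) [CommRing K] (φ : RX a →+* K),
    map φ (UG d D Q B) = chow d D (map (φ.comp (algebraMap ℂ (RX a))) Q)
      (comb (φ.comp (algebraMap ℂ (RX a))) B (fun i => φ (X i)))

/-- UGZ (50 lines), uses UGM M5.LINE.  PROOF.  UGM for `φ = eval (e_i)` (the `i`-th unit vector,
`φ.comp C = id`): the image of `UG d D Q B` is `chow d D Q (B i)`, not `0` by LINE. -/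
def Stmt_UGZ : Prop :=
  ∀ (N a d D : ℕ) (Q : MvPolynomial (Fin N) ℂ) (B : Fin (a + 1) → MvPolynomial (Fin N) ℂ),
    Irreducible Q → Q.IsHomogeneous d → (∀ i, (B i).IsHomogeneous D) → (∃ i, ¬ Q ∣ B i) →
    UG d D Q B ≠ 0

/-- CDV (70 lines), uses M5.DEG.  PROOF.  `G = Q h`.  `lineAt C` is a ring homomorphism, so
`g = lineAt C G = f * h'`, `f = lineAt C Q`.  The resultant `ρ` (formal degrees `d ≥ 1`, `D`, at least the
true degrees: M5.DEG) satisfies `C ρ = p f + p' g` (`Polynomial.exists_mul_add_mul_eq_C_resultant`), so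
`f ∣ C ρ`; `f` has the coefficient `Q(b₁) ≠ 0` at `s ^ d` (M5.DEG; `Q(X (0, ·))` is `rename` of `Q`), so
it has positive degree, and `ρ = 0` (the ring is a domain). -/
def Stmt_CDV : Prop :=
  ∀ (F : Type) [Field F] (N d D : ℕ) (Q G : MvPolynomial (Fin N) F), 1 ≤ d → Q ≠ 0 →
    Q.IsHomogeneous d → G.IsHomogeneous D → Q ∣ G → chow d D Q G = 0

/-- MVX (100 lines), uses H.DS1.  A moving irreducible polynomial over `ℂ[X]` has over a larger field an
irreducible factor which divides no nonzero complex polynomial.  PROOF.  `H` is not of total degree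
`0`, otherwise `H = C c * map 1`.  `map φ H` has the same total degree (`φ` is injective), so it is not
`0` and not a unit: it has an irreducible factor `P` (`WfDvdMonoid.exists_irreducible_factor`).  Let
`G ≠ 0` and `P ∣ map (algebraMap ℂ M) G = map φ (map (algebraMap ℂ (RX a)) G)`.  In the factorial
ring `MvPolynomial σ (RX a)` the polynomial `map (algebraMap ℂ (RX a)) G` is a unit times a product of
irreducible elements `H_j` (units are mapped to units), so `P ∣ map φ H_j` for some `j`.  If `H`, `H_j`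
are not associated, DS1 gives `D ≠ 0` with `φ D = 0`, a contradiction.  So `H` divides
`map (algebraMap ℂ (RX a)) G`, and `UIR_fix` (`MP_f82ddf_U/B_UIR.lean`) shows that `H` has complex
coefficients, `H = C 1 * map Fix`: not moving. -/
def Stmt_MVX : Prop :=
  ∀ (σ : Type) [Finite σ] (a : ℕ) (H : MvPolynomial σ (RX a)), Irreducible H → MovR H →
    ∀ (M : Type) [Field M] [Algebra ℂ M] (φ : RX a →ₐ[ℂ] M), Function.Injective φ →
      ∃ P : MvPolynomial σ M, Irreducible P ∧ P ∣ map (φ : RX a →+* M) H ∧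
        ∀ G : MvPolynomial σ ℂ, G ≠ 0 → ¬ P ∣ map (algebraMap ℂ M) G

/-- ALI (100 lines).  PROOF.  `P` is not a constant, so some variable `p₀` occurs in it
(`degreeOf p₀ P ≥ 1`).  The `b p`, `p ≠ p₀`, are algebraically independent over `M`: a relation
`H(b) = 0`, `H ≠ 0` a polynomial without the variable `p₀`, gives `P ∣ H`, but
`degreeOf p₀ P ≤ degreeOf p₀ H = 0` (as in `MP_f82ddf_W/B_GPC.lean`).  So they are algebraically
independent over the subalgebra generated by the `ξ_i`, and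
`algebraicIndependent_sumElim_iff` / `AlgebraicIndependent.sumElim` (or a similar lemma of
Mathlib) gives the claim. -/
def Stmt_ALI : Prop :=
  ∀ (M F : Type) [Field M] [Field F] [Algebra ℂ M] [Algebra ℂ F] [Algebra M F]
    [IsScalarTower ℂ M F] (σ : Type) [Finite σ] (t : ℕ) (ξ : Fin t → M) (P : MvPolynomial σ M)
    (b : σ → F), AlgebraicIndependent ℂ ξ → Irreducible P →
    (∀ H : MvPolynomial σ M, eval₂ (algebraMap M F) b H = 0 ↔ P ∣ H) →
    ∃ p₀ : σ, AlgebraicIndependent ℂ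
      (Sum.elim (fun i => algebraMap M F (ξ i)) (fun p : {p : σ // p ≠ p₀} => b p))

/-- CNT (150 lines), uses W.TRM.  The count.  PROOF.  Let `v = pv b s` and let the minor for `i₁`, `i₂`
be nonzero; `i₁ ≠ i₂`, so `a ≥ 1`.  Let `E` be the field generated over `ℂ` by the
`(w + 1) + 1 + (w + 2) + (a - 1) = 2 w + a + 3` elements `v_j` (`j ≤ w`), `s`, `b (0, j)`, `ξ_i`
(`i ≠ i₁, i₂`).  `v_(w+1)` is a root of a monic polynomial with coefficients in `ℂ[v_0, .., v_w]`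
(`LastMonic`, `Q(v) = 0`), so it is algebraic over `E`; `b (1, j) = v_j - s b (0, j)` is algebraic over
`E`; `ξ_(i₁)`, `ξ_(i₂)` are the solution of two linear equations with coefficients algebraic over `E` and
nonzero determinant (Cramer: `ξ_(i₁) * minor` = a combination of the other `ξ_i`).  If the family were
algebraically independent, TRM would give `(a + 1) + (2 (w + 2) - 1) ≤ 2 w + a + 3`: a
contradiction.  (For TRM index the family by `Fin m` through an equivalence, `m` the cardinality.) -/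
def Stmt_CNT : Prop :=
  ∀ (F : Type) [Field F] [Algebra ℂ F] (w a d : ℕ) (Q : MvPolynomial (Fin (w + 2)) ℂ)
    (B B' : Fin (a + 1) → MvPolynomial (Fin (w + 2)) ℂ) (b : Fin 2 × Fin (w + 2) → F) (s : F)
    (ξ : Fin (a + 1) → F) (p₀ : Fin 2 × Fin (w + 2)), LastMonic w d Q → aeval (pv b s) Q = 0 →
    ∑ i, ξ i * aeval (pv b s) (B i) = 0 → ∑ i, ξ i * aeval (pv b s) (B' i) = 0 →
    (∃ i j, aeval (pv b s) (B i * B' j - B j * B' i) ≠ 0) →
    ¬ AlgebraicIndependent ℂ (Sum.elim ξ (fun p : {p : Fin 2 × Fin (w + 2) // p ≠ p₀} => b p))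

/-- NCM (150 lines), uses MVX UGM UGZ CDV GPV OVG DVC ALI CNT M5.LINE M5.FUN.  PROOF.
`M = FractionRing (RX a)`, `φ : RX a →ₐ[ℂ] M` the inclusion.  Suppose that `H` divides `U = UG d D Q B`
and `U' = UG d D' Q B'`.  MVX: `P`.  UGM: `P` divides `map φ U = chow d D Q_M G` and
`map φ U' = chow d D' Q_M G'`, `G = comb B (φ ∘ X)`, `G' = comb B' (φ ∘ X)`, `Q_M = map Q`.  Some `B_i` is
not divisible by `Q` (otherwise the minors are), so `U ≠ 0` (UGZ), `map φ U ≠ 0` (`φ` is injective), and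
`Q_M ∤ G` (CDV).  GPV: `F, b, s`, `v = pv b s`; `G(v) = 0`; OVG: `G'(v) = 0`.  `F` is a `ℂ`-algebra
through `M`.  Let `h = B_i B'_j - B_j B'_i` be the minor, a form of degree `D + D'` not divisible by `Q`.
`h(v) ≠ 0`: otherwise by DVC `P` divides `chow d (D + D') Q_M (map h) = map (chow d (D + D') Q h)`
(M5.FUN (6)), and `chow d (D + D') Q h ≠ 0` by LINE, against MVX.  ALI for `ξ = φ ∘ X` and CNT. -/
def Stmt_NCM : Prop :=
  ∀ (w a d D D' : ℕ) (Q : MvPolynomial (Fin (w + 2)) ℂ)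
    (B B' : Fin (a + 1) → MvPolynomial (Fin (w + 2)) ℂ), Irreducible Q → Q.IsHomogeneous d →
    LastMonic w d Q → (∀ i, (B i).IsHomogeneous D) → (∀ i, (B' i).IsHomogeneous D') →
    (∃ i j, ¬ Q ∣ B i * B' j - B j * B' i) →
    ∀ H : MvPolynomial (Fin 2 × Fin (w + 2)) (RX a), Irreducible H → MovR H →
      H ∣ UG d D Q B → ¬ H ∣ UG d D' Q B'

/-- DS3 (120 lines), uses H.DS1 U.MIR.  PROOF.  As `MP_f82ddf_H/B_DS2.lean`, simpler.  `U` is a unit times
a product of irreducible `H_i`, `U'` a unit times a product of irreducible `H'_j`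
(`UniqueFactorizationMonoid`); units are mapped to units, `P` is prime: `P ∣ map φ H_i`,
`P ∣ map φ H'_j` for some `i`, `j`.  For every pair `(i, j)` there is `D_(ij) ≠ 0` with `φ D_(ij) = 0` in
this case: if `H_i` (or `H'_j`) is not moving, `H_i = C c * map G` with `c ≠ 0`, `G ≠ 0`, take
`D_(ij) = c`: for `φ c ≠ 0` the polynomial `map φ H_i = C (φ c) * map (algebraMap ℂ Mer) (map α G)` is
not divisible by `P` (MIR).  If both are moving they are not associated (otherwise `H_i` divides `U`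
and `U'`), take `D` from DS1.  `D` = the product of all the `D_(ij)`. -/
def Stmt_DS3 : Prop :=
  ∀ (σ : Type) [Finite σ] (b : ℕ) (U U' : MvPolynomial σ (RX b)), U ≠ 0 → U' ≠ 0 →
    (∀ H : MvPolynomial σ (RX b), Irreducible H → MovR H → H ∣ U → ¬ H ∣ U') →
    ∃ D : RX b, D ≠ 0 ∧ ∀ (α : ℂ ≃+* ℂ) (φ : RX b →+* Mer),
      (∀ z : ℂ, φ (C z) = algebraMap ℂ Mer (α z)) →
      ∀ P : MvPolynomial σ Mer, Irreducible P → Mov P → P ∣ map φ U → P ∣ map φ U' → φ D = 0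

/-- UNE (80 lines), uses UGM UGZ NCM DS3.  PROOF.  `U`, `U' ≠ 0` by UGZ (some `B_i`, and some `B'_i`, is
not divisible by `Q`).  NCM, DS3: `D₀`.  For `α`, `x` let
`φ = (aeval x : RX a →ₐ[ℂ] Mer).toRingHom.comp (map α)`; `φ (X i) = x i`,
`φ.comp (algebraMap ℂ (RX a)) = (algebraMap ℂ Mer).comp α`, so by UGM `map φ U` and `map φ U'` are the
two Chow forms (as in `MP_f82ddf_W/B_GNB.lean`), and `φ D₀ = aeval x (aq α D₀)`. -/
def Stmt_UNE : Prop :=
  ∀ (w a d D D' : ℕ) (Q : MvPolynomial (Fin (w + 2)) ℂ)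
    (B B' : Fin (a + 1) → MvPolynomial (Fin (w + 2)) ℂ), Irreducible Q → Q.IsHomogeneous d →
    LastMonic w d Q → (∀ i, (B i).IsHomogeneous D) → (∀ i, (B' i).IsHomogeneous D') →
    (∃ i j, ¬ Q ∣ B i * B' j - B j * B' i) →
    ∃ D₀ : RX a, D₀ ≠ 0 ∧ ∀ (α : ℂ ≃+* ℂ) (x : Fin (a + 1) → Mer)
      (P : MvPolynomial (Fin 2 × Fin (w + 2)) Mer), Irreducible P → Mov P →
      P ∣ chow d D (map (algebraMap ℂ Mer) (aq α Q))
        (comb (algebraMap ℂ Mer) (fun i => aq α (B i)) x) →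
      P ∣ chow d D' (map (algebraMap ℂ Mer) (aq α Q))
        (comb (algebraMap ℂ Mer) (fun i => aq α (B' i)) x) → aeval x (aq α D₀) = 0

/-! ## E. Assembly -/

/-- PTE (250 lines, a copy of `MP_f82ddf_W/B_PTW.lean` with changes), uses T3L V.DRF BIR RRE SPC PWE UNE
U.TRP V.EXF U.MVP U.MIR.  PROOF.  `β' w d = β w d + (d + 1)`, `β` from DRF for `n`, `c`; T3L for `β'` and
`B`: `N₁`, `δ = dmax`.  For `S`: `w, d, D, Q, A, T, L, E, h`; `β w d ≤ β' w d ≤ T.card`, so `T` spans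
(`Spn c S`), `Data (w + 2) n d d Q A` (`CORE_data`).  Let `w₀, k, a, q, ε` be given.  `w₀ ≤ w`: otherwise
`NodesC` for `v = w` (`1 ≤ w`: `HypData.hw`), `T ⊆ S`, `E`, `h` gives `T.card ≤ B D < T.card`.
`Q ∤ ∂_m Q`: `Pool.ThmM.FIN.not_dvd_pderiv` (`MP_f82ddf_M/T_FIN.lean`).  BIR: `Inv Q A L`.  `n = a + q` by
cardinality.  RRE: `D₁, D', D'', R, R'`.  UNE for `B = R ∘ ε ∘ inl`, `B' = R' ∘ ε ∘ inl`: `D₀`.  `D` = a
nonzero homogeneous component of `D₀ * X 0`.  For `α`, `x`: everything as in B_PTW.lean with `Ful k` in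
the place of `Ful (q + 2)` (DRF for the transported datum and `β w d`), which gives `P` with `P ^ k`
dividing the Chow form of `(aq α Q, aq α ∘ A)`; SPC: `D₂`; PWE for `(aq α Q, aq α ∘ A, D₂)` and
`aq α ∘ R`, `aq α ∘ R'` (forms of the same degrees, `aq α Q ∣ aq α (R (ε (inr l)))`); UNE:
`aeval (x' ∘ ε ∘ inl) (aq α D₀) = 0`.  End as in B_PTW.lean. -/
def Stmt_PTE : Prop :=
  ∀ (n c : ℕ) (B : ℕ → ℕ), 1 ≤ n → ∃ N₁ δ : ℕ, ∀ S : Finset (Fin (n + 1) → ℂ),
    (∀ u ∈ S, ∀ v ∈ S, u ≠ v → NonProp u v) → Spn c S → N₁ ≤ S.card →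
    ∀ (w₀ k a q : ℕ) (ε : Fin (a + 1) ⊕ Fin q ≃ Fin (n + 1)), 2 ≤ k → 1 ≤ a → w₀ + k = q + 3 →
    NodesC w₀ δ B S →
    ∃ (e : ℕ) (D : RX a), 1 ≤ e ∧ D.IsHomogeneous e ∧ D ≠ 0 ∧
      ∀ (α : ℂ ≃+* ℂ) (x : Fin (n + 1) → Mer), NC x →
        (∀ u ∈ S, Ful k x (fun i => α (u i))) →
        aeval (fun i => x (ε (Sum.inl i))) (aq α D) = 0

/-- NCT (70 lines), uses NDC (`Nodes.lean`).  The condition on the nodes passes to `ℂ`.  PROOF.  Let
`1 ≤ v < w₀`, `D ≤ δ`, `T ⊆ τ ∘ S`, `E`, `h` be as in `NodesC`; `T = τ ∘ T₀`, `T₀ ⊆ S`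
(`Finset.subset_map_iff`).  NDC for `T₀` with `w = v + 1`: `E'`, `h'` over `Ω`.  Extend `h'` to `Fin w₀`
(`v + 1 ≤ w₀`; by zero or by `h' 0`).  `NodesW w₀ δ B` (`2 ≤ w₀`) with `e = D`, `E'`: the elements of `S`
at which all `F ∈ E'` vanish, among them those of `T₀`, are at most `B D`. -/
def Stmt_NCT : Prop :=
  ∀ (Ω : Type) [Field Ω] [IsAlgClosed Ω] (τ : Ω →+* ℂ) (n w₀ δ : ℕ) (B : ℕ → ℕ)
    (S : Finset (Fin (n + 1) → Ω)), (2 ≤ w₀ → NodesW w₀ δ B (fun u : S => (u : Fin (n + 1) → Ω))) →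
    NodesC w₀ δ B (S.map (te τ n))

/-- UEE (100 lines, a copy of `MP_f82ddf_W/B_UEW.lean`), uses PTE NCT U.AUT U.DSE U.RKT. -/
def Stmt_UEE : Prop :=
  ∀ (n c : ℕ) (B : ℕ → ℕ), 1 ≤ n → ∃ N₁ δ : ℕ, ∀ (Ω : Type) [Field Ω] [IsAlgClosed Ω]
    [Countable Ω] (S : Finset (Fin (n + 1) → Ω)), (∀ u ∈ S, ∀ v ∈ S, u ≠ v → NPr u v) →
    Spn c S → N₁ ≤ S.card →
    ∀ (w₀ k a q : ℕ) (ε : Fin (a + 1) ⊕ Fin q ≃ Fin (n + 1)), 2 ≤ k → 1 ≤ a → w₀ + k = q + 3 →
    (2 ≤ w₀ → NodesW w₀ δ B (fun u : S => (u : Fin (n + 1) → Ω))) →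
    ∃ (e : ℕ) (D : MvPolynomial (Fin (a + 1)) Ω), 1 ≤ e ∧ D.IsHomogeneous e ∧ D ≠ 0 ∧
      ∀ (τ : Ω →+* ℂ) (x : Fin (n + 1) → Mer), NC x →
        (∀ u ∈ S, Ful k x (fun i => τ (u i))) →
        eval₂ (tm τ) (fun i => x (ε (Sum.inl i))) D = 0

/-- MPE (120 lines), uses UEE W.IJE U.SLO P.MPT V.ORF.  For any morphism `g`.  PROOF.  As
`MP_f82ddf_W/B_MPX.lean` (without FIB and CST).  `N₀ = c + c * N₁`, the same `δ`.  SLO: `S₁`, every
`u ∈ S₁` is some `l j`, so `NodesW` for `l` implies it for `S₁` (the map `u ↦ j` is injective).  Let `s₁ ∈ g.tuples` with `NC y`, `y_c = s₁_c(x)`.  ORF: `Ful k y (τ ∘ u)` for `u ∈ S₁`; UEE: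
`D_σ(y ∘ σ) = 0`.  For any `s ∈ g.tuples` the vector `s(x)` is a multiple of `y` (MPT (2)). -/
def Stmt_MPE : Prop :=
  ∀ (n c : ℕ) (B : ℕ → ℕ), 1 ≤ n → ∃ N₀ δ : ℕ, ∀ (Ω : Type) [Field Ω] [IsAlgClosed Ω]
    [Countable Ω] (N : ℕ) (l : Fin (N + 1) → Fin (n + 1) → Ω), N₀ ≤ N →
    (∀ v : Fin (n + 1) → Ω, v ≠ 0 → {j | ∑ i, l j i * v i = 0}.ncard ≤ c) →
    ∀ w₀ k a q : ℕ, 2 ≤ k → 1 ≤ a → w₀ + k = q + 3 → n = a + q →
      (2 ≤ w₀ → NodesW w₀ δ B l) →
    ∃ D : (Fin (a + 1) ↪ Fin (n + 1)) → MvPolynomial (Fin (a + 1)) Ω,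
      (∀ σ, D σ ≠ 0 ∧ ∃ e, (D σ).IsHomogeneous e) ∧
      ∀ (K : Type) [Field K] [Algebra K Ω] (m : ℕ)
        (S : Set (MvPolynomial (Fin (m + 1)) K)), (∀ F ∈ S, ∃ d, F.IsHomogeneous d) →
        ∀ (g : Mor K Ω m n S), (∀ j, Full g k (l j)) →
        ∀ (τ : Ω →+* ℂ) (x : Fin (m + 1) → Mer), OnK (tm τ) S x →
          (∃ s ∈ g.tuples, NC (fun c => eval₂ (tm τ) x (s c))) →
          ∀ s ∈ g.tuples, ∀ σ, eval₂ (tm τ) (fun i => eval₂ (tm τ) x (s (σ i))) (D σ) = 0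

/-- NCI (50 lines), uses P.MPT P.FIB M0.CST.  PROOF.  The second paragraph of the proof in
`MP_f82ddf_W/B_MPX.lean`. -/
def Stmt_NCI : Prop :=
  ∀ (K Ω : Type) [Field K] [Field Ω] [Algebra K Ω] [IsAlgClosed Ω] (m n : ℕ)
    (S : Set (MvPolynomial (Fin (m + 1)) K)) (g : Mor K Ω m n S),
    (∀ F ∈ S, ∃ d, F.IsHomogeneous d) → g.Finite →
    ∀ (τ : Ω →+* ℂ) (x : Fin (m + 1) → Mer), OnK (tm τ) S x →
      (∃ i₀ i, x i₀ ≠ 0 ∧ ∀ a : ℂ, x i ≠ algebraMap ℂ Mer a * x i₀) →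
      ∃ s ∈ g.tuples, NC (fun c => eval₂ (tm τ) x (s c))

/-- DIE (160 lines, a copy of `MP_f82ddf_W/B_DIX.lean`), uses MPE NCI P.MPT P.FIB P.TRX M0.HOMR. -/
def Stmt_DIE : Prop :=
  ∀ (n c : ℕ) (B : ℕ → ℕ), 1 ≤ n → ∃ N₀ δ : ℕ, ∀ N : ℕ, N₀ ≤ N →
    ∀ (K : Type) [Field K] [NumberField K]
      (l : Fin (N + 1) → Fin (n + 1) → AlgebraicClosure K),
      (∀ v : Fin (n + 1) → AlgebraicClosure K, v ≠ 0 → {j | ∑ i, l j i * v i = 0}.ncard ≤ c) →
      ∀ w₀ k a q : ℕ, 2 ≤ k → 1 ≤ a → w₀ + k = q + 3 → n = a + q →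
      (2 ≤ w₀ → NodesW w₀ δ B l) →
      ∀ (m : ℕ) (S : Set (MvPolynomial (Fin (m + 1)) K)), (∀ F ∈ S, ∃ d, F.IsHomogeneous d) →
        ∀ (g : Mor K (AlgebraicClosure K) m n S), g.Finite → (∀ j, Full g k (l j)) →
          Pool.ThmM0.DimMer S (a - 1)

/-- THEOREM E, first part: the exceptional set, of dimension at most `a - 1 = n + 2 - k - w₀`. -/
def Stmt_E1 : Prop :=
  ∀ (n c : ℕ) (B : ℕ → ℕ), 1 ≤ n → ∃ N₀ δ : ℕ, ∀ N : ℕ, N₀ ≤ N →
    ∀ (K : Type) [Field K] [NumberField K]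
      (l : Fin (N + 1) → Fin (n + 1) → AlgebraicClosure K),
      (∀ v : Fin (n + 1) → AlgebraicClosure K, v ≠ 0 → {j | ∑ i, l j i * v i = 0}.ncard ≤ c) →
      ∀ w₀ k a q : ℕ, 2 ≤ k → 1 ≤ a → w₀ + k = q + 3 → n = a + q →
      (2 ≤ w₀ → NodesW w₀ δ B l) →
      ∃ D : (Fin (a + 1) ↪ Fin (n + 1)) → MvPolynomial (Fin (a + 1)) (AlgebraicClosure K),
        (∀ σ, D σ ≠ 0 ∧ ∃ e, (D σ).IsHomogeneous e) ∧
        ∀ (m : ℕ) (S : Set (MvPolynomial (Fin (m + 1)) K)),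
          (∀ F ∈ S, ∃ d, F.IsHomogeneous d) →
          ∀ (g : Mor K (AlgebraicClosure K) m n S),
          (∀ j, Full g k (l j)) → ∀ (τ : AlgebraicClosure K →+* ℂ),
            (∀ f : ℂ → PSpace ℂ m, HolomorphicOn f Set.univ →
              (∀ z, f z ∈ complexPoints S (τ.comp (algebraMap K (AlgebraicClosure K)))) →
              (∀ z, f z ∈ ExcW g D τ) ∨ InFibre g τ f) ∧
            (g.Finite → (∀ f : ℂ → PSpace ℂ m, HolomorphicOn f Set.univ →
                (∀ z, f z ∈ complexPoints S (τ.comp (algebraMap K (AlgebraicClosure K)))) →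
                (∃ z₁ z₂, f z₁ ≠ f z₂) → ∀ z, f z ∈ ExcW g D τ) ∧
              (KobayashiHyperbolic
                  (complexPoints S (τ.comp (algebraMap K (AlgebraicClosure K)))) ↔
                KobayashiHyperbolic (ExcW g D τ)))

/-- FE1 (180 lines), uses MPE NCI M0.MREL P.MPT.  PROOF of `Stmt_E1`.  As `MP_f82ddf_W/B_FW1.lean` (with
NCI, for `g.Finite`); for the clause with `InFibre` as in `MP_f82ddf_H/B_FHG.lean`:
`exists_mer_of_curve` gives `x` with `x i₀ = 1`, MPT (1): `s₀ ∈ g.tuples` with `y = s₀(x) ≠ 0`; if `NC y`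
use MPE, otherwise `y_c = a_c y_(c₀)`, `a_c ∈ ℂ`, and `InFibre` with `w = a`. -/
def Stmt_FE1 : Prop := Stmt_E1

/-- THEOREM E, second part: dimension of the entire curves; hyperbolicity for `w₀ + k = n + 2`
(`a = 1`), rational points for `w₀ + k ≥ n + 1` (`a ≤ 2`). -/
def Stmt_E2 : Prop :=
  ∀ (n c : ℕ) (B : ℕ → ℕ), 1 ≤ n → ∃ N₀ δ : ℕ, ∀ N : ℕ, N₀ ≤ N →
    ∀ (K : Type) [Field K] [NumberField K]
      (l : Fin (N + 1) → Fin (n + 1) → AlgebraicClosure K),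
      (∀ v : Fin (n + 1) → AlgebraicClosure K, v ≠ 0 → {j | ∑ i, l j i * v i = 0}.ncard ≤ c) →
      ∀ w₀ k a q : ℕ, 2 ≤ k → 1 ≤ a → w₀ + k = q + 3 → n = a + q →
      (2 ≤ w₀ → NodesW w₀ δ B l) →
      ∀ (m : ℕ) (S : Set (MvPolynomial (Fin (m + 1)) K)), (∀ F ∈ S, ∃ d, F.IsHomogeneous d) →
        ∀ (g : Mor K (AlgebraicClosure K) m n S), g.Finite → (∀ j, Full g k (l j)) →
          (∀ (σ : K →+* ℂ) (f : ℂ → PSpace ℂ m), HolomorphicOn f Set.univ →
            (∀ z, f z ∈ complexPoints S σ) → ImageDimLE f (a - 1)) ∧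
          (a = 1 → ∀ σ : K →+* ℂ, KobayashiHyperbolic (complexPoints S σ)) ∧
          (a ≤ 2 → (∀ σ : K →+* ℂ, KobayashiHyperbolic (complexPoints S σ) ↔
              ¬ Pool.MCL.CubicImage S (AlgebraicClosure K)
                (algebraMap K (AlgebraicClosure K))) ∧
            (Pool.MCL.CubicImage S (AlgebraicClosure K) (algebraMap K (AlgebraicClosure K)) →
              ∃ (L : Type) (_ : Field L) (_ : Algebra K L) (_ : FiniteDimensional K L),
                (points S L).Infinite))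

/-- FE2 (60 lines, a copy of `MP_f82ddf_W/B_FW2.lean`; import it for `FW2_hyp`), uses DIE M0.IMG M0.PAI
P6C M0.DHO.  PROOF of `Stmt_E2`. -/
def Stmt_FE2 : Prop := Stmt_E2

end Pool.MPE
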