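import Pool.Agent.Work.MP_f82ddf_W.Interface2
import Pool.Agent.Work.MP_f82ddf_E.Nodes

set_option autoImplicit false

/-! # THEOREM E (MP_f82ddf_nt), optimality of the dimension `n + 2 - w - k`

Table `mpe_blocks`, import this file, namespace `Pool.MPE`.  In the column `uses` `W.X` means
`Pool.MPW.Stmt_X`, `P.FFB` means `Pool.ThmP.Stmt_FFB`.

EXAMPLE.  `m = n + 1 - w` and `l_j = (1, a, .., a ^ m, a ^ q, a ^ (q ^ 2), .., a ^ (q ^ (w - 1)))`,
`a = j + 1`, `j = 0, .., N`, for a large `q`: these are the points `(1, t_1, .., t_1 ^ m, t_2, .., t_w)`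
for `t = (a, a ^ q, a ^ (q ^ 2), ..)`.  `X : y_j ^ k = l_j(x)`, and the lines
`y_j = ρ_j (a_j - z)`, `ρ_j ^ k = R(a_j)`, for polynomials `R` of degree `≤ m - k`: their images are the
points `x` whose first `m + 1` coordinates are the coefficients of `R(t) (t - z) ^ k` and whose other
coordinates are `0`. -/

open Pool.Agent.Work.MP_f82ddf_nt.DQ

namespace Pool.MPE

open MvPolynomial
open Pool.Agent.Work.MP_f82ddf_nt (PSpace HolomorphicOn complexPoints points KobayashiHyperbolic)
open Pool.ThmP (Mor OnX OnK tm)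
open Pool.MPV (Ful Full)
open Pool.MPW (ExcW)

/-- The exponents `0, 1, .., m, q, q ^ 2, ..`. -/
def nde (m q i : ℕ) : ℕ := if i ≤ m then i else q ^ (i - m)

/-- The node of index `j`. -/
def nod (Ω : Type) [Field Ω] (m q : ℕ) {n N : ℕ} (j : Fin (N + 1)) (i : Fin (n + 1)) : Ω :=
  (((j : ℕ) + 1 : ℕ) : Ω) ^ nde m q i

/-- FEW (120 lines).  A polynomial with at most `M` terms vanishes at fewer than `M` positive integers.
PROOF.  (1) REAL COEFFICIENTS.  For a real polynomial `p ≠ 0` with `M` terms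
`p.signVariations + 1 ≤ p.support.card` (induction on the number of terms:
`Polynomial.signVariations_le_eraseLead_succ`, `Polynomial.signVariations_monomial`,
`Polynomial.card_support_eraseLead'`; `Mathlib/Algebra/Polynomial/RuleOfSigns.lean`), and the number of
positive roots is at most `p.signVariations` (`Polynomial.roots_countP_pos_le_signVariations`).  So if
`∑ i, y i * (a j) ^ (e i) = 0` for all `j : Fin M`, with real `y`, then the polynomial
`∑ i, y i X ^ (e i)` is `0`, and `y = 0` because the `e i` are different.  (2) So the real matrix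
`V j i = (a j : ℝ) ^ (e i)` is invertible (`Matrix.exists_mulVec_eq_zero_iff`), and its determinant,
the image of the integer `det (fun j i => (a j : ℤ) ^ (e i))` (`RingHom.map_det` or
`Int.cast_det`-like lemma), is not `0`.  So this integer is not `0`, nor is its image in `Ω`
(characteristic 0), and `y = 0` by `Matrix.eq_zero_of_mulVec_eq_zero` over `Ω`. -/
def Stmt_FEW : Prop :=
  ∀ (Ω : Type) [Field Ω] [CharZero Ω] (M : ℕ) (e a : Fin M → ℕ) (y : Fin M → Ω),
    Function.Injective e → Function.Injective a → (∀ j, 0 < a j) →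
    (∀ j, ∑ i, y i * (a j : Ω) ^ e i = 0) → y = 0

/-- LFD (150 lines).  Linear forms without common zero on a closed set.  PROOF.
NULLSTELLENSATZ: the ideal of `Ω[X]` generated by `E` and the linear forms `H_i = ∑ c, C (h i c) * X c`
has no zero but possibly `0`, so it contains `X_j ^ M` for all `j` and some `M ≥ 1`
(`MvPolynomial.vanishingIdeal_zeroLocus_eq_radical`; see `MP_f82ddf_P/B_FFB.lean` or
`MP_f82ddf_M0/B_FMN.lean` where this is done), and because all the generators are homogeneous we can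
take homogeneous components: `X_j ^ M = (element of the ideal generated by E) + ∑ i, b i * H_i` with
forms `b i` of degree `M - 1`.  So every monomial of degree `M' = (n + 1) * M` is in
`(E) + ∑ i, (forms of degree M' - 1) * H_i` (some exponent is `≥ M`).  Let `R₀` be the subalgebra
`Algebra.adjoin Ω {h_i(v)}` of `F`, `h_i(v) = ∑ c, algebraMap Ω F (h i c) * v c`, and `V ⊆ F` the
`R₀`-submodule generated by the values at `v` of the finitely many monomials of degree `< M'`.  `V` is
stable under multiplication by `v j` (a monomial of degree `M'` has at `v` the value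
`∑ i, b i (v) * h_i(v) ∈ V`, because `E` vanishes at `v`), finitely generated and contains `1`.  So `v j`
is integral over `R₀` (`isIntegral_of_smul_mem_submodule` or
`IsIntegral.of_mem_of_fg`-like lemmas), hence algebraic over the field generated by `R₀`. -/
def Stmt_LFD : Prop :=
  ∀ (Ω F : Type) [Field Ω] [IsAlgClosed Ω] [Field F] [Algebra Ω F] (n w : ℕ)
    (E : Set (MvPolynomial (Fin (n + 1)) Ω)) (h : Fin w → Fin (n + 1) → Ω) (v : Fin (n + 1) → F),
    (∀ G ∈ E, ∃ d, G.IsHomogeneous d) →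
    (∀ u : Fin (n + 1) → Ω, u ≠ 0 → (∀ G ∈ E, eval u G = 0) → ∃ i, ∑ c, h i c * u c ≠ 0) →
    (∀ G ∈ E, aeval v G = 0) →
    ∀ j, IsAlgebraic (IntermediateField.adjoin Ω
      (Set.range fun i => ∑ c, algebraMap Ω F (h i c) * v c)) (v j)

/-- NSP (200 lines), uses FEW LFD W.TRM.  The nodes are spread over a `w`-dimensional set.  PROOF.
`B e = (m * e + 1) ^ w`, `q = m * δ + 2` (or larger).  Let `e ≤ δ`, `E`, `h` be as in `NodesW`.
(1) Some `G ∈ E` does not vanish identically on the points `(1, t_1, .., t_1 ^ m, t_2, .., t_w)`: let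
`v` be the vector over `F = FractionRing (MvPolynomial (Option (Fin w)) Ω)` (or any field with `w + 1`
algebraically independent elements `s, t_1, .., t_w`) with `v_i = s t_1 ^ i` (`i ≤ m`),
`v_(m + j) = s t_(j + 1)` (`1 ≤ j < w`; `m + w = n + 1`).  If all `G ∈ E` vanish at `v`, then by LFD all
the `v_i` are algebraic over the field generated by `w` elements; but among the `v_i` are `s`,
`s t_1` (`m ≥ 1`), `s t_2, .., s t_w`, which are algebraically independent over `Ω` (`w + 1` elements; the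
algebra generated by them has the fraction field `Ω(s, t)`; or show: `s, t_1, ..` are algebraic over
the field generated by the `v_i`, hence over the field generated by the `w` elements, and use TRM
directly for `s, t_1, .., t_w`).  TRM: `w + 1 ≤ w`, a contradiction.  (2) Let `G ∈ E` be a form of
degree `e' ≤ e` with `G(v) ≠ 0`, `G(v) = s ^ e' * f(t)`, `f ∈ Ω[t_1, .., t_w]`, `f ≠ 0`, all the
exponents in `f` are `≤ m e'` (`m ≥ 1`).  For `t_i = a ^ (q ^ (i - 1))` the monomial `t ^ μ` becomes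
`a ^ (∑ μ_i q ^ (i - 1))`, and these exponents are different for different `μ` because
`μ_i ≤ m δ < q` (digits in base `q`: `Nat.ofDigits_inj_of_len_eq`, or induction).  So, if `a_j = j + 1`
and `G (l_j) = 0`, then a sum of at most `(m e' + 1) ^ w` terms `f_μ a_j ^ (..)` vanishes; by FEW (choose
as many indices `j` as terms) there are fewer than `(m e' + 1) ^ w ≤ B e` such `j`. -/
def Stmt_NSP : Prop :=
  ∀ (Ω : Type) [Field Ω] [IsAlgClosed Ω] [CharZero Ω] (n m w : ℕ), 1 ≤ m → 1 ≤ w → m + w = n + 1 →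
    ∃ B : ℕ → ℕ, ∀ δ : ℕ, ∃ q₀ : ℕ, ∀ q N : ℕ, q₀ ≤ q →
      NodesW w δ B (fun j : Fin (N + 1) => (nod Ω m q j : Fin (n + 1) → Ω))

/-- NSO (80 lines), uses FEW.  PROOF.  The exponents `nde m q i`, `i ≤ n`, are different for `q > m`
(`q ≥ 2`, `m ≥ 1`), so a nonzero `v` is orthogonal to at most `n` of the nodes: FEW with `M = n + 1` and
`n + 1` of the indices `j` (`a = j + 1`). -/
def Stmt_NSO : Prop :=
  ∀ (Ω : Type) [Field Ω] [CharZero Ω] (n m q N : ℕ), 1 ≤ m → m < q → 2 ≤ q →
    ∀ v : Fin (n + 1) → Ω, v ≠ 0 →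
      {j : Fin (N + 1) | ∑ i : Fin (n + 1), nod Ω m q j i * v i = 0}.ncard ≤ n

/-- SXG (150 lines), uses P.FFB.  The variety `y_j ^ k = l_j(x)` for spanning `l_j` (compare
`MP_f82ddf_W/B_SX.lean`).  PROOF.  `S` = the set of all `∑ j, C (a j) * X j ^ k` with
`a : Fin (N + 1) → ℚ`, `∑ j, a j * l j i = 0` for all `i`.  The matrix `l` has rank `n + 1` (hypothesis:
its kernel is `0`), so there is `b : Fin (n + 1) → Fin (N + 1) → ℚ` with
`∑ j, b c j * l j i = if c = i then 1 else 0` (a left inverse; `LinearMap.exists_leftInverse_of_injective`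
for `Matrix.mulVecLin`, ker `= ⊥`).  `s c = ∑ j, C (b c j) * X j ^ k` (mapped to the algebraic closure).
CLAIM: if the vector `v` over a field `F` (with `ℚ → F`) satisfies the equations in `S`, then
`v_j ^ k = ∑ c, l j c * s_c(v)`: the difference is `∑_i a_i v_i ^ k` with
`a_i = δ_(ij) - ∑ c, l j c * b c i`, and `∑_i a_i l i i' = l j i' - l j i' = 0`.  So FFB (`e = k`; if all
`s_c(v) = 0` then `v = 0`) gives `g` with `g.tuples = {s}`.  `Full`: `t = 1`, `a = 1`, `b = X j`, `μ = k`, and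
some `s_c(v) ≠ 0` for `v ≠ 0` on `X`.  Last claim: the equations in `S` hold for `y` because
`∑_j a_j y_j ^ k = ∑_i x_i ∑_j a_j l j i = 0`, and `s_c(y) = ∑_j b c j * y_j ^ k = x_c`. -/
def Stmt_SXG : Prop :=
  ∀ (n k N : ℕ) (l : Fin (N + 1) → Fin (n + 1) → ℚ), 1 ≤ k →
    (∀ x : Fin (n + 1) → ℚ, (∀ j, ∑ i, l j i * x i = 0) → x = 0) →
    ∃ (S : Set (MvPolynomial (Fin (N + 1)) ℚ)) (g : Mor ℚ (AlgebraicClosure ℚ) N n S),
      (∀ F ∈ S, ∃ d, F.IsHomogeneous d) ∧ g.Finite ∧ g.tuples.Nonempty ∧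
      (∀ j : Fin (N + 1), Full g k (fun i => algebraMap ℚ (AlgebraicClosure ℚ) (l j i))) ∧
      ∀ (τ : AlgebraicClosure ℚ →+* ℂ) (x : Fin (n + 1) → ℂ) (y : Fin (N + 1) → ℂ),
        (∀ j : Fin (N + 1), y j ^ k = ∑ i : Fin (n + 1), x i * (l j i : ℂ)) →
        (∀ F ∈ S, eval₂ (τ.comp (algebraMap ℚ (AlgebraicClosure ℚ))) y F = 0) ∧
        ∀ s ∈ g.tuples, ∀ c, eval₂ τ y (s c) = x c

/-- SLG (60 lines).  As `Stmt_SL` of `MP_f82ddf_W/Interface2.lean` (`B_SL.lean`) with any different
complex numbers `a j` in the place of `j`. -/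
def Stmt_SLG : Prop :=
  ∀ (N : ℕ) (a ρ : Fin (N + 1) → ℂ), Function.Injective a → (∃ i j, i ≠ j ∧ ρ i ≠ 0 ∧ ρ j ≠ 0) →
    ∃ f : ℂ → PSpace ℂ N, HolomorphicOn f Set.univ ∧ (∃ a b, f a ≠ f b) ∧
      ∀ z, ∃ c : ℂ, c ≠ 0 ∧ ∀ j : Fin (N + 1), (f z).rep j = c * (ρ j * (a j - z))

/-- The dimension `n + 2 - w - k` in THEOREM E is optimal, for all `w` and `k`: `w + k + e = n + 1`,
`e = n + 1 - w - k` is one less than this dimension.  There are hyperplanes `l j`, at most `n` of them
through any point, which are spread over a `w`-dimensional set in the sense of `NodesW` (with a function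
`B` which does not depend on `δ`, `N`), and `X`, `g` over `ℚ` such that no closed set of dimension `≤ e`
given by forms `D s` contains all the entire curves. -/
def Stmt_ES : Prop :=
  ∀ n w k e : ℕ, 1 ≤ w → 2 ≤ k → w + k + e = n + 1 → ∃ B : ℕ → ℕ, ∀ δ N : ℕ, n ≤ N →
    ∃ (S : Set (MvPolynomial (Fin (N + 1)) ℚ)) (g : Mor ℚ (AlgebraicClosure ℚ) N n S)
      (l : Fin (N + 1) → Fin (n + 1) → AlgebraicClosure ℚ),
      (∀ F ∈ S, ∃ d, F.IsHomogeneous d) ∧
      (∀ v : Fin (n + 1) → AlgebraicClosure ℚ, v ≠ 0 → {j | ∑ i, l j i * v i = 0}.ncard ≤ n) ∧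
      NodesW w δ B l ∧ g.Finite ∧ (∀ j, Full g k (l j)) ∧
      ∀ D : (Fin (e + 2) ↪ Fin (n + 1)) → MvPolynomial (Fin (e + 2)) (AlgebraicClosure ℚ),
        (∀ s, D s ≠ 0 ∧ ∃ e, (D s).IsHomogeneous e) → ∀ τ : AlgebraicClosure ℚ →+* ℂ,
          ∃ f : ℂ → PSpace ℂ N, HolomorphicOn f Set.univ ∧
            (∀ z, f z ∈ complexPoints S (τ.comp (algebraMap ℚ (AlgebraicClosure ℚ)))) ∧
            (∃ a b, f a ≠ f b) ∧ ∃ z, f z ∉ ExcW (a := e + 1) g D τ

/-- SFE (180 lines), uses NSP NSO SXG SLG W.SR.  PROOF of `Stmt_ES`.  As `MP_f82ddf_W/B_SF.lean` (its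
auxiliary lemmas can be cited).  `m = n + 1 - w = k + e`, `B` from NSP, `q = max q₀ (m + 2)`,
`l j = nod _ m q j` (the image of the same vector over `ℚ`, which satisfies the hypothesis of SXG by NSO
over `ℚ`: `N + 1 ≥ n + 1` nodes cannot all be orthogonal to `x ≠ 0`).  Let `D`, `τ` be given,
`k = κ + 1`, `m = κ + e + 1`, and `s₀ : i ↦ κ + i` (`i ≤ e + 1`; `κ + i ≤ m ≤ n`).  The polynomial
`map τ (D s₀) * X (last)` is not `0`, so it does not vanish at some `p`.  W.SR (with `q = κ`, `d = e`):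
`s`, `R`, `R ≠ 0` of degree `≤ e`.  `R(j + 1) ≠ 0` for two different `j ≤ N` (`R` has at most `e` roots and
`N + 1 ≥ n + 1 ≥ e + 3`); choose `ρ_j` with `ρ_j ^ k = R(j + 1)`; SLG with `a j = j + 1`: `f`.  For every
`z`, with `c` from SLG: `((f z).rep j) ^ k = c ^ k R(j+1) (j + 1 - z) ^ k = ∑_(i ≤ m) x_i (j + 1) ^ i` with
`x_i = c ^ k * (R (t - z) ^ k).coeff i` for `i ≤ m` (the degree is `≤ e + k = m`) and `x_i = 0` for
`i > m`, and this is `∑ i, x i * l j i` (`nde m q i = i` for `i ≤ m`).  SXG: `f z` is in `X_τ`, and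
`s_i(rep) = x_i`.  At `z = s` the value of `D s₀` is `c ^ (k e') (map τ (D s₀))(p) ≠ 0`. -/
def Stmt_SFE : Prop := Stmt_ES

end Pool.MPE
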